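import Pool.Agent.Lib.MP_a7239a_co.RF.ISO
import Pool.Agent.Lib.MP_a7239a_co.RC.Defs

/-!
# The isoperimetric theorem in the form of `RC`
-/

open scoped Pointwise
open Finset

namespace Pool.Agent.Lib.MPa7239a.RF

open Pool.Agent.Lib.MPa7239a Pool.Agent.Lib.MPa7239a.RC

universe u

variable {Q : Type u} [AddCommGroup Q] [Fintype Q] [DecidableEq Q]

theorem hull_eq_cl (H : AddSubgroup Q) (S : Finset Q) : hull H S = cl H S := by
  ext x
  rw [mem_hull, mem_cl]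

theorem vosper {S X : Finset Q} (h0 : (0 : Q) ∈ S) (hgen : AddSubgroup.closure (S : Set Q) = ⊤)
    (h2 : 2 ≤ #X) (hX : #(X + S) + 2 ≤ Fintype.card Q) (hc : #(X + S) + 1 ≤ #X + #S) :
    IsAddCyclic Q ∨ ∃ H : AddSubgroup Q, H ≠ ⊥ ∧ H ≠ ⊤ ∧ #(hull H S) + 1 ≤ #S + Nat.card H := by
  have hS : Spans S := by
    intro N hN
    rw [← top_le_iff, ← hgen, AddSubgroup.closure_le]
    intro a ha
    have := hN a (mem_coe.1 ha) 0 h0
    rwa [sub_zero] at this
  rcases iso hS h2 hX hc with h | ⟨H, h3, h4, h5⟩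
  · exact Or.inl h
  · refine Or.inr ⟨H, h3, h4, ?_⟩
    rw [hull_eq_cl, natCard_hs]
    exact h5

end Pool.Agent.Lib.MPa7239a.RF
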