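import Pool.Agent.Lib.MP_a7239a_co.RH.NUMR
import Pool.Agent.Lib.MP_a7239a_co.RB.GAME

/-!
# The explicit formula up to a constant: definitions (folder RF, captain helper14)
-/

set_option autoImplicit false

open Finset

namespace Pool.Agent.Lib.MPa7239a.RF

open Pool.Agent.Lib.MPa7239a.RB
open Pool.Agent.Lib.MPa7239a.RH

/-- the excess of the divisor `o` of `n`; it is `0` for `o ≤ M` -/
def exc (M n o : ℕ) : ℕ :=
  min (o % M / (o / M))
    (((if Even (n / o * (o / M)) then 1 else 2) * (n / o) - 2) * (M - o % M) / (2 * (o / M + 1)))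

/-- the largest excess -/
def excess (M n : ℕ) : ℕ := n.divisors.sup (exc M n)

theorem exc_le_excess {M n o : ℕ} (hn : n ≠ 0) (ho : o ∣ n) : exc M n o ≤ excess M n :=
  le_sup (f := exc M n) (Nat.mem_divisors.2 ⟨ho, hn⟩)

/-- the rules of the formula game: only one rule (no deletion) -/
structure GameF {o : ℕ} [NeZero o] (r : ZMod o → ℕ) (h θ c : ℕ) : Prop where
  row_le : ∀ u, r u ≤ h
  rule1 : ∀ d, Adm r c d → ∀ u, h + θ ≤ 2 * r u → 3 ≤ d u → d u + 3 ≤ r u → False

section

variable {o : ℕ} [NeZero o] (q : ℕ)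

/-- the integer position of a class: the representative in `- a ≤ i < o - a`, `a = (o - q) / 2` -/
def pos (o q : ℕ) [NeZero o] (u : ZMod o) : ℤ :=
  ((u + (((o - q) / 2 : ℕ) : ZMod o)).val : ℤ) - (((o - q) / 2 : ℕ) : ℤ)

theorem pos_cast (u : ZMod o) : ((pos o q u : ℤ) : ZMod o) = u := by
  rw [pos, Int.cast_sub, Int.cast_natCast, Int.cast_natCast, ZMod.natCast_zmod_val,
    add_sub_cancel_right]

theorem pos_ge (u : ZMod o) : -(((o - q) / 2 : ℕ) : ℤ) ≤ pos o q u := by
  rw [pos]
  omega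

theorem pos_lt (u : ZMod o) : pos o q u < (o : ℤ) - (((o - q) / 2 : ℕ) : ℤ) := by
  rw [pos]
  have h := ZMod.val_lt (u + (((o - q) / 2 : ℕ) : ZMod o))
  omega

theorem pos_of {i : ℤ} (h1 : -(((o - q) / 2 : ℕ) : ℤ) ≤ i)
    (h2 : i < (o : ℤ) - (((o - q) / 2 : ℕ) : ℤ)) : pos o q (i : ZMod o) = i := by
  have h3 := pos_ge q (i : ZMod o)
  have h4 := pos_lt q (i : ZMod o)
  have h5 := pos_cast q (i : ZMod o)
  rw [ZMod.intCast_eq_intCast_iff_dvd_sub] at h5
  have h6 : |i - pos o q (i : ZMod o)| < (o : ℤ) := by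
    rw [abs_lt]
    constructor <;> omega
  have h7 := Int.eq_zero_of_abs_lt_dvd h5 h6
  omega

theorem pos_inj : Function.Injective (pos o q) := by
  intro u v h
  rw [← pos_cast q u, ← pos_cast q v, h]

/-- a class is near if and only if its position is -/
theorem mem_near_iff {w : ℕ} (hw : 2 * w + 2 * q + 4 ≤ o) (u : ZMod o) :
    u ∈ near o q w ↔ -(w : ℤ) ≤ pos o q u ∧ pos o q u ≤ (q : ℤ) + w := by
  rw [near, mem_image]
  constructor
  · rintro ⟨i, hi, rfl⟩
    rw [mem_Icc] at hi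
    rw [pos_of q (by omega) (by omega)]
    exact hi
  · intro h
    exact ⟨pos o q u, mem_Icc.2 h, pos_cast q u⟩

end

/-- the numbers of the input for the formula (real `t = n / M ≥ 1.01`, `c ≥ M + 100`) -/
structure NumF {o : ℕ} [NeZero o] (r : ZMod o → ℕ) (M s n c q L D : ℕ) : Prop where
  os : o * s = n
  s1 : 1 ≤ s
  mn : 101 * M ≤ 100 * n
  total : ∑ u, r u = n + c
  mc : M + 100 ≤ c
  win : q * c + D + 2 ≤ o + q * L
  mo : c ≤ o + 2 * L
  hL : 1000000 * (L + 1) ≤ M
  far_mul : ∀ w : ℕ, (w + 1) * far r q w ≤ D + (w + 1) * L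
  far_two : far r q 0 + far r q 1 ≤ D + 2 * L

section

variable {o : ℕ} [NeZero o] {r d : ZMod o → ℕ} {M s n c q L D h : ℕ}

theorem NumF.M_pos (N : NumF r M s n c q L D) : 1000000 ≤ M := by
  have h3 := N.hL
  omega

theorem NumF.o_large (N : NumF r M s n c q L D) : 100000 * (q + 1) ≤ o := by
  have h1 := N.win
  have h2 := N.mo
  have h3 := N.hL
  have h4 := N.mc
  rcases Nat.eq_zero_or_pos q with rfl | hq
  · omega
  · have h5 : q * (L + 397999) ≤ q * c := Nat.mul_le_mul_left _ (by omega)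
    have h6 : q * (L + 397999) = q * L + 397999 * q := by ring
    omega

theorem NumF.cast_ne (N : NumF r M s n c q L D) {i j : ℤ} (hij : i ≠ j)
    (h : |i - j| < 100000 * (q + 1)) : (i : ZMod o) ≠ (j : ZMod o) := by
  intro he
  rw [ZMod.intCast_eq_intCast_iff_dvd_sub] at he
  have h1 := N.o_large
  have h2 : (100000 * (q + 1) : ℤ) ≤ o := by exact_mod_cast h1
  have h3 : |j - i| < (o : ℤ) := by
    rw [abs_sub_comm]
    omega
  have h4 := Int.eq_zero_of_abs_lt_dvd he h3
  omega

/-- the sum over the near classes -/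
theorem NumF.sum_near (N : NumF r M s n c q L D) (f : ZMod o → ℕ) {w : ℕ} (hw : w ≤ 1) :
    ∑ u ∈ near o q w, f u = ∑ i ∈ Icc (-(w : ℤ)) ((q : ℤ) + w), f (i : ZMod o) := by
  rw [near, sum_image]
  intro i hi j hj hij
  by_contra hne
  rw [mem_coe, mem_Icc] at hi hj
  refine N.cast_ne hne ?_ hij
  rw [abs_lt]
  constructor <;> omega

theorem NumF.sum_main (N : NumF r M s n c q L D) (f : ZMod o → ℕ) :
    ∑ i ∈ range (q + 1), f (i : ZMod o) + far f q 0 = ∑ u, f u := by
  rw [← sum_near_add_far f q 0, N.sum_near f (Nat.zero_le _)]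
  congr 1
  simp only [Nat.cast_zero, neg_zero, add_zero]
  rw [sum_Icc_range (fun i => f (i : ZMod o))]
  refine sum_congr rfl fun i _ => ?_
  simp

theorem NumF.main_sum (N : NumF r M s n c q L D) :
    ∑ i ∈ range (q + 1), r (i : ZMod o) + far r q 0 = n + c := by
  rw [N.sum_main, N.total]

theorem NumF.far_zero (N : NumF r M s n c q L D) : far r q 0 ≤ D + L := by
  have h1 := N.far_mul 0
  omega

theorem NumF.far_split' (N : NumF r M s n c q L D) (f : ZMod o → ℕ) :
    far f q 0 = far f q 1 + f (-1) + f ((q : ZMod o) + 1) := by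
  have h1 := sum_near_add_far f q 0
  have h2 := sum_near_add_far f q 1
  rw [N.sum_near f (Nat.zero_le _)] at h1
  rw [N.sum_near f le_rfl] at h2
  simp only [Nat.cast_zero, neg_zero, add_zero] at h1
  simp only [Nat.cast_one] at h2
  have h3 : Icc (-1 : ℤ) ((q : ℤ) + 1) = insert (-1) (insert ((q : ℤ) + 1) (Icc (0 : ℤ) q)) := by
    ext i
    simp only [mem_Icc, mem_insert]
    omega
  rw [h3, sum_insert, sum_insert] at h2
  · push_cast at h2
    omega
  · rw [mem_Icc]
    omega
  · rw [mem_insert, mem_Icc]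
    omega

theorem NumF.far_split (N : NumF r M s n c q L D) :
    far r q 0 = far r q 1 + r (-1) + r ((q : ZMod o) + 1) := N.far_split' r

theorem NumF.one_row (N : NumF r M s n c q L D) (hr : ∀ u, r u ≤ h) {i : ℕ} (hi : i ≤ q) :
    n + c ≤ r (i : ZMod o) + q * h + far r q 0 := by
  rw [← N.main_sum]
  have h1 : i ∈ range (q + 1) := mem_range.2 (by omega)
  rw [← add_sum_erase _ (fun i : ℕ => r (i : ZMod o)) h1]
  have h2 : ∑ x ∈ (range (q + 1)).erase i, r (x : ZMod o) ≤ #((range (q + 1)).erase i) • h :=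
    sum_le_card_nsmul _ _ _ fun x _ => hr _
  rw [card_erase_of_mem h1, card_range, Nat.add_sub_cancel, smul_eq_mul] at h2
  omega

theorem NumF.two_row (N : NumF r M s n c q L D) (hr : ∀ u, r u ≤ h) {i j : ℕ} (hi : i ≤ q)
    (hj : j ≤ q) (hij : i ≠ j) :
    n + c + h ≤ r (i : ZMod o) + r (j : ZMod o) + q * h + far r q 0 := by
  rw [← N.main_sum]
  have h1 : i ∈ range (q + 1) := mem_range.2 (by omega)
  have h1' : j ∈ (range (q + 1)).erase i := mem_erase.2 ⟨hij.symm, mem_range.2 (by omega)⟩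
  rw [← add_sum_erase _ (fun i : ℕ => r (i : ZMod o)) h1,
    ← add_sum_erase _ (fun i : ℕ => r (i : ZMod o)) h1']
  have h2 : ∑ x ∈ ((range (q + 1)).erase i).erase j, r (x : ZMod o) ≤
      #(((range (q + 1)).erase i).erase j) • h :=
    sum_le_card_nsmul _ _ _ fun x _ => hr _
  rw [card_erase_of_mem h1', card_erase_of_mem h1, card_range, Nat.add_sub_cancel,
    smul_eq_mul] at h2
  have h3 : (q - 1) * h + h = q * h := by
    obtain ⟨a, ha⟩ : ∃ a, q = a + 1 := ⟨q - 1, by omega⟩
    rw [ha, Nat.add_sub_cancel]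
    ring
  omega

/-- the omitted elements: main classes and the rest -/
theorem NumF.omit_sum (N : NumF r M s n c q L D) (hd : Adm r c d) :
    ∑ i ∈ range (q + 1), d (i : ZMod o) + far d q 0 = c := by
  rw [N.sum_main, hd.card]

theorem NumF.mirror (N : NumF r M s n c q L D) :
    NumF (fun u => r ((q : ZMod o) - u)) M s n c q L D where
  os := N.os
  s1 := N.s1
  mn := N.mn
  total := by
    rw [← N.total]
    exact sum_equiv (Equiv.subLeft (q : ZMod o)) (fun _ => by simp) fun u _ => by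
      rw [Equiv.subLeft_apply]
  mc := N.mc
  win := N.win
  mo := N.mo
  hL := N.hL
  far_mul := fun w => by
    rw [far_mirror]
    exact N.far_mul w
  far_two := by
    rw [far_mirror, far_mirror]
    exact N.far_two

/-- `99 q M ≤ 100 o` -/
theorem NumF.q_le (N : NumF r M s n c q L D) : 99 * (q * M) ≤ 100 * o := by
  have h1 := N.mc
  have h2 := N.hL
  have h3 := N.win
  have h4 : 99 * M + 100 * L ≤ 100 * c := by omega
  have h5 := Nat.mul_le_mul_left q h4
  have e1 : q * (99 * M + 100 * L) = 99 * (q * M) + 100 * (q * L) := by ring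
  have e2 : q * (100 * c) = 100 * (q * c) := by ring
  omega

end

/-- the excess is less than `M` -/
theorem exc_lt {M n o : ℕ} (hM : 0 < M) : exc M n o < M := by
  rw [exc]
  refine lt_of_le_of_lt (min_le_left _ _) ?_
  exact lt_of_le_of_lt (Nat.div_le_self _ _) (Nat.mod_lt _ hM)

theorem excess_lt {M n : ℕ} (hM : 0 < M) : excess M n < M :=
  (Finset.sup_lt_iff hM).2 fun _ _ => exc_lt hM

/-- for `n < 3 M` the excess is zero -/
theorem exc_eq_zero {M n o : ℕ} (ho : o ∣ n) (hn : n ≠ 0) (h3 : n < 3 * M) : exc M n o = 0 := by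
  rw [exc]
  obtain ⟨s, rfl⟩ := ho
  have ho0 : 0 < o := Nat.pos_of_ne_zero fun h => hn (by rw [h, zero_mul])
  have hs0 : 0 < s := Nat.pos_of_ne_zero fun h => hn (by rw [h, mul_zero])
  rw [Nat.mul_div_cancel_left _ ho0]
  rcases lt_trichotomy o M with h | h | h
  · rw [Nat.div_eq_of_lt h, Nat.div_zero, Nat.zero_min]
  · subst h
    rw [Nat.mod_self, Nat.zero_div, Nat.zero_min]
  · have hs : s < 3 := by
      by_contra hcon
      push Not at hcon
      have h4 : o * 3 ≤ o * s := Nat.mul_le_mul_left _ hcon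
      omega
    have h5 : (if Even (s * (o / M)) then 1 else 2) * s - 2 = 0 := by
      rcases (by omega : s = 1 ∨ s = 2) with rfl | rfl
      · split_ifs <;> simp
      · rw [if_pos (even_two_mul _)]
    rw [h5, zero_mul, Nat.zero_div, Nat.min_zero]

theorem excess_eq_zero {M n : ℕ} (hn : n ≠ 0) (h3 : n < 3 * M) : excess M n = 0 := by
  rw [excess, ← Nat.le_zero]
  refine Finset.sup_le fun o ho => ?_
  rw [exc_eq_zero (Nat.dvd_of_mem_divisors ho) hn h3]

/-- thickness of the reserve -/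
def JJ (q : ℕ) : ℕ := if q < 1000 then 10 else 2 * q + 10

/-- radius of the near classes -/
def ww (q : ℕ) : ℕ := if q < 1000 then 9 else q + 9

end Pool.Agent.Lib.MPa7239a.RF
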