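import Pool.Agent.Lib.MP_a7239a_co.RF.Defs

/-!
# RF, module FINISH: the quantile rows and the final count
-/

set_option autoImplicit false

open Finset

namespace Pool.Agent.Lib.MPa7239a.RF

namespace FINISHAux

/-- the `c` elements with the largest positions -/
theorem top {ι : Type*} [Fintype ι] [DecidableEq ι] (p : ι → ℤ) (hp : Function.Injective p)
    (x : ι → ℕ) (c : ℕ) (hc : 1 ≤ c) (hx : c ≤ ∑ u, x u) :
    ∃ (i : ℤ) (d : ι → ℕ), (∃ u, p u = i) ∧ (∀ u, d u ≤ x u) ∧ ∑ u, d u = c ∧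
      (∀ u, i < p u → d u = x u) ∧ (∀ u, p u < i → d u = 0) ∧ ∑ u with i < p u, x u < c ∧
      (c : ℤ) * i + ((∑ u with i < p u, x u : ℕ) : ℤ) ≤ ∑ u, (d u : ℤ) * p u := by
  classical
  obtain ⟨B, hB⟩ : ∃ B : ℤ, ∀ u, p u ≤ B := by
    refine ⟨∑ u, |p u|, fun u => (le_abs_self _).trans ?_⟩
    exact single_le_sum (f := fun u => |p u|) (fun v _ => abs_nonneg _) (mem_univ u)
  obtain ⟨B', hB'⟩ : ∃ B' : ℤ, ∀ u, B' ≤ p u := by
    refine ⟨-∑ u, |p u|, fun u => ?_⟩
    have h1 := single_le_sum (f := fun u => |p u|) (fun v _ => abs_nonneg _) (mem_univ u)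
    have h2 := neg_abs_le (p u)
    linarith
  have hex : ∃ k : ℕ, c ≤ ∑ u with B - (k : ℤ) < p u, x u := by
    refine ⟨(B - B' + 1).toNat, ?_⟩
    have h1 : (univ.filter fun u => B - (((B - B' + 1).toNat : ℕ) : ℤ) < p u) = univ := by
      refine filter_true_of_mem fun u _ => ?_
      have := hB' u
      have := Int.self_le_toNat (B - B' + 1)
      omega
    rw [h1]
    exact hx
  have h1 := Nat.find_spec hex
  have h0 : Nat.find hex ≠ 0 := by
    intro h
    rw [h] at h1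
    have h2 : (univ.filter fun u => B - ((0 : ℕ) : ℤ) < p u) = ∅ := by
      refine filter_false_of_mem fun u _ => ?_
      have := hB u
      push_cast
      omega
    rw [h2, sum_empty] at h1
    omega
  obtain ⟨k, hk⟩ := Nat.exists_eq_succ_of_ne_zero h0
  have hmin : ¬ c ≤ ∑ u with B - (k : ℤ) < p u, x u := Nat.find_min hex (by omega)
  rw [hk] at h1
  set i : ℤ := B - k with hi
  have hsplit : ∑ u with B - ((k.succ : ℕ) : ℤ) < p u, x u =
      ∑ u with i < p u, x u + ∑ u with p u = i, x u := by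
    rw [← sum_union]
    · congr 1
      ext u
      simp only [mem_filter, mem_union, mem_univ, true_and]
      push_cast
      omega
    · rw [disjoint_filter]
      intro u _ h2 h3
      omega
  rw [hsplit] at h1
  rw [not_le] at hmin
  obtain ⟨u₁, hu₁⟩ : ∃ u, p u = i := by
    by_contra hno
    push Not at hno
    rw [filter_false_of_mem (s := univ) (p := fun u => p u = i) (fun u _ => hno u),
      sum_empty] at h1
    omega
  have hone : (univ.filter fun u => p u = i) = {u₁} := by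
    ext u
    simp only [mem_filter, mem_univ, true_and, mem_singleton]
    constructor
    · intro h
      exact hp (h.trans hu₁.symm)
    · rintro rfl
      exact hu₁
  rw [hone, sum_singleton] at h1
  set Hi := ∑ u with i < p u, x u with hHi
  refine ⟨i, fun u => if i < p u then x u else if p u = i then c - Hi else 0, ⟨u₁, hu₁⟩,
    fun u => ?_, ?_, fun u hu => ?_, fun u hu => ?_, hmin, ?_⟩
  · beta_reduce
    split_ifs with h2 h3
    · exact le_rfl
    · have : u = u₁ := hp (h3.trans hu₁.symm)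
      subst this
      omega
    · exact Nat.zero_le _
  · rw [sum_ite, ← hHi, sum_ite, sum_const_zero, add_zero, sum_const, filter_filter]
    have h2 : (univ.filter fun u => ¬ i < p u ∧ p u = i) = {u₁} := by
      rw [← hone]
      ext u
      simp only [mem_filter, mem_univ, true_and]
      omega
    rw [h2, card_singleton, one_smul]
    omega
  · exact if_pos hu
  · beta_reduce
    rw [if_neg (by omega), if_neg (by omega)]
  · have h2 : ∀ u, ((x u : ℤ) * (i + 1) * (if i < p u then 1 else 0) +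
        ((c - Hi : ℕ) : ℤ) * i * (if p u = i then 1 else 0)) ≤
        ((if i < p u then x u else if p u = i then c - Hi else 0 : ℕ) : ℤ) * p u := by
      intro u
      by_cases h3 : i < p u
      · rw [if_pos h3, if_pos h3, if_neg (by omega), mul_one, mul_zero, add_zero]
        exact mul_le_mul_of_nonneg_left (by omega) (by positivity)
      · rw [if_neg h3, if_neg h3, mul_zero, zero_add]
        by_cases h4 : p u = i
        · rw [if_pos h4, if_pos h4, h4, mul_one]
        · rw [if_neg h4, if_neg h4]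
          simp
    refine le_trans ?_ (sum_le_sum fun u _ => h2 u)
    rw [sum_add_distrib]
    have h3 : ∑ u, (x u : ℤ) * (i + 1) * (if i < p u then 1 else 0) = (Hi : ℤ) * (i + 1) := by
      rw [hHi, Nat.cast_sum, sum_mul, sum_filter]
      refine sum_congr rfl fun u _ => ?_
      split_ifs <;> ring
    have h4 : ∑ u, ((c - Hi : ℕ) : ℤ) * i * (if p u = i then 1 else 0) =
        ((c - Hi : ℕ) : ℤ) * i := by
      rw [← mul_sum, sum_boole, hone, card_singleton]
      ring
    rw [h3, h4, Nat.cast_sub (by omega)]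
    apply le_of_eq
    ring

theorem split3 {ι : Type*} [Fintype ι] [DecidableEq ι] (p : ι → ℤ) {i₀ i₁ : ℤ} (h : i₀ ≤ i₁)
    (f : ι → ℤ) : ∑ u, f u = ∑ u with p u < i₀, f u + ∑ u with (i₀ ≤ p u ∧ p u ≤ i₁), f u +
      ∑ u with i₁ < p u, f u := by
  rw [← sum_union, ← sum_union]
  · refine sum_congr ?_ fun _ _ => rfl
    ext u
    simp only [mem_univ, mem_union, mem_filter, true_and, true_iff]
    omega
  · rw [disjoint_left]
    intro u hu hu'
    simp only [mem_univ, mem_union, mem_filter, true_and] at hu hu'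
    omega
  · rw [disjoint_filter]
    intro u _ h1 h2
    omega

/-- the first moment about the middle -/
theorem moment {ι : Type*} [Fintype ι] [DecidableEq ι] (p : ι → ℤ) (x y e d : ι → ℕ) {i₀ i₁ : ℤ}
    {h c' T Hi : ℕ} (hi : i₀ ≤ i₁) (hrow : ∀ u, x u + y u ≤ h)
    (hm0 : ∑ u with (i₀ ≤ p u ∧ p u ≤ i₁), (2 * p u - (i₀ + i₁)) = 0)
    (hmc : (#{u | i₀ ≤ p u ∧ p u ≤ i₁} : ℤ) = i₁ - i₀ + 1)
    (hd1 : ∀ u, i₁ < p u → d u = x u) (hd2 : ∀ u, p u < i₁ → d u = 0) (hdc : ∑ u, d u = c')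
    (he : ∀ u, e u ≤ y u) (hec : ∑ u, e u = 16)
    (hy : ∀ u, y u ≠ 0 → i₀ - 1 ≤ p u ∧ p u ≤ i₁ + 1)
    (hyo : ∑ u with (p u < i₀ ∨ i₁ < p u), y u ≤ 32) (hT : ∑ u, (x u + y u) = T)
    (hHi : ∑ u with i₁ < p u, x u = Hi) :
    ∑ u, ((x u : ℤ) + y u - d u - e u) * (2 * p u - (i₀ + i₁)) ≤
      (i₁ - i₀) * ((i₁ - i₀ + 1) * h - T - c' + 2 * Hi + 32) + 48 * (i₁ - i₀ + 2) := by
  have hq : 0 ≤ i₁ - i₀ := by omega
  -- pointwise bounds
  have hR : ∀ u, i₁ < p u → ((x u : ℤ) + y u - d u - e u) * (2 * p u - (i₀ + i₁)) ≤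
      (i₁ - i₀ + 2) * y u := by
    intro u hu
    rw [hd1 u hu]
    by_cases h0 : y u = 0
    · have h1 : e u = 0 := by
        have := he u
        omega
      rw [h0, h1]
      simp
    · have h1 := (hy u h0).2
      have h2 : p u = i₁ + 1 := by omega
      have h3 := he u
      rw [h2]
      have h4 : (0 : ℤ) ≤ e u := by positivity
      nlinarith
  have hM : ∀ u, i₀ ≤ p u → p u ≤ i₁ → ((x u : ℤ) + y u - d u - e u) * (2 * p u - (i₀ + i₁)) ≤
      h * (2 * p u - (i₀ + i₁)) + (i₁ - i₀) * (h - x u - y u) - (i₁ - i₀) * d u +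
        (i₁ - i₀ + 2) * e u := by
    intro u h1 h2
    have h3 : (0 : ℤ) ≤ h - x u - y u := by
      have := hrow u
      omega
    have h4 : -((d u : ℤ) * (2 * p u - (i₀ + i₁))) = -((i₁ - i₀) * d u) := by
      rcases eq_or_lt_of_le h2 with h5 | h5
      · rw [h5]
        ring
      · rw [hd2 u h5]
        simp
    have h5 : (0 : ℤ) ≤ e u := by positivity
    have h6 : -(i₁ - i₀) ≤ 2 * p u - (i₀ + i₁) := by omega
    have h7 : -((h - x u - y u) * (2 * p u - (i₀ + i₁))) ≤ (i₁ - i₀) * (h - x u - y u) := by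
      nlinarith
    have h8 : -((e u : ℤ) * (2 * p u - (i₀ + i₁))) ≤ (i₁ - i₀ + 2) * e u := by
      nlinarith
    nlinarith
  have hL : ∀ u, p u < i₀ → ((x u : ℤ) + y u - d u - e u) * (2 * p u - (i₀ + i₁)) ≤
      -((i₁ - i₀) * x u) := by
    intro u hu
    rw [hd2 u (by omega)]
    have h1 := he u
    have h2 : (0 : ℤ) ≤ y u - e u := by omega
    have h3 : (0 : ℤ) ≤ x u := by positivity
    have h4 : 2 * p u - (i₀ + i₁) ≤ -(i₁ - i₀) := by omega
    push_cast
    nlinarith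
  -- sums
  have sL : ∑ u with p u < i₀, ((x u : ℤ) + y u - d u - e u) * (2 * p u - (i₀ + i₁)) ≤
      -((i₁ - i₀) * ∑ u with p u < i₀, (x u : ℤ)) := by
    rw [mul_sum, ← sum_neg_distrib]
    exact sum_le_sum fun u hu => hL u (mem_filter.1 hu).2
  have sR : ∑ u with i₁ < p u, ((x u : ℤ) + y u - d u - e u) * (2 * p u - (i₀ + i₁)) ≤
      (i₁ - i₀ + 2) * ∑ u with i₁ < p u, (y u : ℤ) := by
    rw [mul_sum]
    exact sum_le_sum fun u hu => hR u (mem_filter.1 hu).2
  have sM : ∑ u with (i₀ ≤ p u ∧ p u ≤ i₁),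
      ((x u : ℤ) + y u - d u - e u) * (2 * p u - (i₀ + i₁)) ≤
      (i₁ - i₀) * ((i₁ - i₀ + 1) * h - ∑ u with (i₀ ≤ p u ∧ p u ≤ i₁), ((x u : ℤ) + y u)) -
        (i₁ - i₀) * ∑ u with (i₀ ≤ p u ∧ p u ≤ i₁), (d u : ℤ) +
        (i₁ - i₀ + 2) * ∑ u with (i₀ ≤ p u ∧ p u ≤ i₁), (e u : ℤ) := by
    refine (sum_le_sum fun u hu => hM u (mem_filter.1 hu).2.1 (mem_filter.1 hu).2.2).trans ?_
    rw [sum_add_distrib, sum_sub_distrib, sum_add_distrib, ← mul_sum, ← mul_sum, ← mul_sum,
      ← mul_sum, hm0]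
    have h1 : ∑ u with (i₀ ≤ p u ∧ p u ≤ i₁), ((h : ℤ) - x u - y u) =
        (i₁ - i₀ + 1) * h - ∑ u with (i₀ ≤ p u ∧ p u ≤ i₁), ((x u : ℤ) + y u) := by
      rw [← hmc, ← nsmul_eq_mul, ← sum_const, ← sum_sub_distrib]
      exact sum_congr rfl fun u _ => by ring
    rw [h1]
    apply le_of_eq
    ring
  -- bookkeeping
  have bd := split3 p hi (fun u => (d u : ℤ))
  have hdL : ∑ u with p u < i₀, (d u : ℤ) = 0 := by
    refine sum_eq_zero fun u hu => ?_
    rw [hd2 u (by have := (mem_filter.1 hu).2; omega)]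
    rfl
  have hdR : ∑ u with i₁ < p u, (d u : ℤ) = Hi := by
    rw [← hHi, Nat.cast_sum]
    exact sum_congr rfl fun u hu => by rw [hd1 u (mem_filter.1 hu).2]
  have hdc' : ∑ u, (d u : ℤ) = c' := by
    rw [← hdc, Nat.cast_sum]
  rw [hdL, hdR, hdc', zero_add] at bd
  have be : ∑ u with (i₀ ≤ p u ∧ p u ≤ i₁), (e u : ℤ) ≤ 16 := by
    have h1 : ∑ u with (i₀ ≤ p u ∧ p u ≤ i₁), (e u : ℤ) ≤ ∑ u, (e u : ℤ) :=
      sum_le_sum_of_subset_of_nonneg (filter_subset _ _) fun u _ _ => by positivity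
    have h2 : ∑ u, (e u : ℤ) = 16 := by
      rw [← Nat.cast_sum, hec]
      rfl
    linarith
  have bt := split3 p hi (fun u => (x u : ℤ) + y u)
  have hT' : ∑ u, ((x u : ℤ) + y u) = T := by
    rw [← hT, Nat.cast_sum]
    exact sum_congr rfl fun u _ => by push_cast; rfl
  rw [hT', sum_add_distrib (s := univ.filter fun u => p u < i₀),
    sum_add_distrib (s := univ.filter fun u => i₁ < p u)] at bt
  have hxR : ∑ u with i₁ < p u, (x u : ℤ) = Hi := by
    rw [← hHi, Nat.cast_sum]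
  have byo : ∑ u with p u < i₀, (y u : ℤ) + ∑ u with i₁ < p u, (y u : ℤ) ≤ 32 := by
    rw [← sum_union (by
      rw [disjoint_filter]
      intro u _ h1 h2
      omega), ← filter_or, ← Nat.cast_sum]
    exact_mod_cast hyo
  have hyL : 0 ≤ ∑ u with p u < i₀, (y u : ℤ) := sum_nonneg fun u _ => by positivity
  have hyR : 0 ≤ ∑ u with i₁ < p u, (y u : ℤ) := sum_nonneg fun u _ => by positivity
  rw [split3 p hi]
  rw [hxR] at bt
  set q := i₁ - i₀ with hqd
  set YL := ∑ u with p u < i₀, (y u : ℤ)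
  set YR := ∑ u with i₁ < p u, (y u : ℤ)
  set XL := ∑ u with p u < i₀, (x u : ℤ)
  set XM := ∑ u with (i₀ ≤ p u ∧ p u ≤ i₁), ((x u : ℤ) + y u)
  set DM := ∑ u with (i₀ ≤ p u ∧ p u ≤ i₁), (d u : ℤ)
  set EM := ∑ u with (i₀ ≤ p u ∧ p u ≤ i₁), (e u : ℤ)
  have e1 : XM = T - XL - YL - Hi - YR := by linarith
  have e2 : DM = c' - Hi := by linarith
  rw [e1, e2] at sM
  have e3 : (q + 2) * YR ≤ (q + 2) * 32 := mul_le_mul_of_nonneg_left (by linarith) (by omega)
  have e4 : (q + 2) * EM ≤ (q + 2) * 16 := mul_le_mul_of_nonneg_left be (by omega)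
  have e5 : q * (YL + YR) ≤ q * 32 := mul_le_mul_of_nonneg_left byo hq
  nlinarith

/-- the final arithmetic -/
theorem arith {M n o s c' b Lo Hi : ℕ} (hM : 1 ≤ M) (ho : M < o) (hos : o * s = n)
    (hc : M + exc M n o + 84 ≤ c') (hs : 1 ≤ s)
    (hE1 : c' * b + Lo + Hi + 2 ≤ o) (hcount : n + c' ≤ (b + 1) * (M * s) + Lo + Hi + 16)
    (h3 : Even (s * b) → 2 * c' < s * ((b + 1) * M - o) + 2 * Hi + 160 ∨
      2 * c' < s * ((b + 1) * M - o) + 2 * Lo + 160) (hoM : o ≤ (b + 1) * M) : False := by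
  have hstar : n + c' * (b + 1) ≤ (b + 1) * (M * s) + o + 14 := by nlinarith
  have hMb : M * b < o := by nlinarith
  have hoM' : o < (b + 1) * M := by
    by_contra hcon
    have h1 : o = (b + 1) * M := le_antisymm hoM (not_lt.1 hcon)
    rw [← hos, h1] at hstar
    nlinarith
  have hdiv : o / M = b := by
    rw [Nat.div_eq_iff (by omega)]
    constructor
    · nlinarith
    · have : (b + 1) * M = b * M + M := by ring
      omega
  have hmod : o % M + M * b = o := by
    have := Nat.mod_add_div o M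
    rw [hdiv] at this
    exact this
  have hb : 1 ≤ b := by
    rcases Nat.eq_zero_or_pos b with h | h
    · rw [h] at hoM'
      omega
    · exact h
  have hns : n / o = s := by
    rw [← hos, Nat.mul_div_cancel_left _ (by omega)]
  set a := o % M with ha
  have haM : a < M := Nat.mod_lt _ (by omega)
  obtain ⟨f, hf⟩ : ∃ f, M = a + f := ⟨M - a, by omega⟩
  have hfo : (b + 1) * M - o = f := by
    have : (b + 1) * M = M * b + M := by ring
    omega
  have hfe : M - a = f := by omega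
  have hoe : o + f = (b + 1) * M := by
    have : (b + 1) * M = M * b + M := by ring
    omega
  rw [hfo] at h3
  -- first term
  have t1 : a / b < c' - M - 83 ∨ True := Or.inr trivial
  have hfirst : exc M n o ≠ a / b := by
    intro h
    rw [h] at hc
    have h1 : a < (a / b + 1) * b := by
      have := Nat.lt_div_mul_add (a := a) (b := b) (by omega)
      nlinarith
    have h2 : (M + a / b + 84) * b ≤ c' * b := Nat.mul_le_mul_right _ hc
    nlinarith
  have hsecond : exc M n o =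
      (((if Even (n / o * (o / M)) then 1 else 2) * (n / o) - 2) * (M - a) / (2 * (o / M + 1))) := by
    rcases min_choice (a / (o / M))
      (((if Even (n / o * (o / M)) then 1 else 2) * (n / o) - 2) * (M - a) / (2 * (o / M + 1)))
      with h | h
    · exfalso
      apply hfirst
      rw [← hdiv]
      exact h
    · exact h
  rw [hns, hdiv, hfe] at hsecond
  by_cases hev : Even (s * b)
  · rw [if_pos hev, one_mul] at hsecond
    have h4 : (s - 2) * f < (exc M n o + 1) * (2 * (b + 1)) := by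
      rw [hsecond]
      have := Nat.lt_div_mul_add (a := (s - 2) * f) (b := 2 * (b + 1)) (by omega)
      nlinarith
    have h5 : s * f ≤ (s - 2) * f + 2 * f := by
      rw [← add_mul]
      exact Nat.mul_le_mul_right _ (by omega)
    have h6 : (M + exc M n o + 84) * (2 * (b + 1)) ≤ c' * (2 * (b + 1)) :=
      Nat.mul_le_mul_right _ hc
    rcases h3 hev with h | h
    · nlinarith
    · nlinarith
  · rw [if_neg hev] at hsecond
    have h4 : (2 * s - 2) * f < (exc M n o + 1) * (2 * (b + 1)) := by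
      rw [hsecond]
      have := Nat.lt_div_mul_add (a := (2 * s - 2) * f) (b := 2 * (b + 1)) (by omega)
      nlinarith
    have h5 : 2 * (s * f) ≤ (2 * s - 2) * f + 2 * f := by
      rw [← add_mul, ← mul_assoc]
      exact Nat.mul_le_mul_right _ (by omega)
    have h6 : (M + exc M n o + 84) * (2 * (b + 1)) ≤ c' * (2 * (b + 1)) :=
      Nat.mul_le_mul_right _ hc
    have h7 : (b + 1) * (M * s) = s * (o + f) := by rw [hoe]; ring
    rw [h7, ← hos] at hstar
    nlinarith

end FINISHAux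

open FINISHAux in
theorem finish {o : ℕ} [NeZero o] {r : ZMod o → ℕ} {M s n c q : ℕ}
    {R d₀ : ZMod o → ℕ} {c' : ℕ} {α : ℤ} (hos : o * s = n) (hM : 1 ≤ M) (ho : M < o)
    (htot : ∑ u, r u = n + c) (hr : ∀ u, r u ≤ M * s) (hRr : ∀ u, R u ≤ r u) (hcc : c = c' + 16)
    (h2c : 2 * c' ≤ ∑ u, (r u - R u)) (hc : M + exc M n o + 100 ≤ c)
    (hd₀ : ∀ u, d₀ u ≤ R u) (hd₀c : ∑ u, d₀ u = 16) (hα : ∑ u, (d₀ u : ℤ) * pos o q u = α)
    (hav : ∀ d₁ d₂ : ZMod o → ℕ, (∀ u, d₁ u ≤ r u - R u) → (∀ u, d₂ u ≤ r u - R u) →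
      ∑ u, d₁ u = c' → ∑ u, d₂ u = c' → ∀ v : ℤ, ∑ u, (d₁ u : ℤ) * pos o q u ≤ v →
      v ≤ ∑ u, (d₂ u : ℤ) * pos o q u → ((v + α : ℤ) : ZMod o) ≠ ∑ u, r u • u)
    (hloc : ∀ i₀ i₁ : ℤ, ∑ u with pos o q u < i₀, (r u - R u) < c' →
      ∑ u with i₁ < pos o q u, (r u - R u) < c' →
      (∀ u, R u ≠ 0 → i₀ - 1 ≤ pos o q u ∧ pos o q u ≤ i₁ + 1) ∧
      ∑ u with (pos o q u < i₀ ∨ i₁ < pos o q u), R u ≤ 32) : False := by
  classical
  have ho0 : 0 < o := by omega
  set x : ZMod o → ℕ := fun u => r u - R u with hx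
  have hxr : ∀ u, x u + R u = r u := fun u => Nat.sub_add_cancel (hRr u)
  have hc1 : 1 ≤ c' := by omega
  set P : ZMod o → ℤ := pos o q with hP
  have hinj : Function.Injective P := pos_inj q
  have hinj' : Function.Injective fun u => -P u := fun u v h => hinj (neg_injective h)
  have h2c' : 2 * c' ≤ ∑ u, x u := h2c
  have hsum : c' ≤ ∑ u, x u := by omega
  obtain ⟨i₁, d₂, ⟨u₁, hu₁⟩, h2x, h2s, h2a, h2b, h2h, h2P⟩ := top P hinj x c' hc1 hsum
  obtain ⟨j₀, d₁, ⟨u₀, hu₀⟩, h1x, h1s, h1a, h1b, h1h, h1P⟩ :=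
    top (fun u => -P u) hinj' x c' hc1 hsum
  obtain ⟨i₀, rfl⟩ : ∃ i₀, j₀ = -i₀ := ⟨-j₀, by omega⟩
  have hlt : ∀ u, -i₀ < -P u ↔ P u < i₀ := fun u => by omega
  simp only [hlt] at h1h h1P h1a
  set Hi := ∑ u with i₁ < P u, x u with hHi
  set Lo := ∑ u with P u < i₀, x u with hLo
  have hu₀' : P u₀ = i₀ := by linarith
  have h1P' : ∑ u, (d₁ u : ℤ) * P u ≤ c' * i₀ - Lo := by
    have e1 : ∑ u, (d₁ u : ℤ) * -P u = -∑ u, (d₁ u : ℤ) * P u := by
      rw [← sum_neg_distrib]
      exact sum_congr rfl fun u _ => by ring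
    rw [e1] at h1P
    linarith
  have hi01 : i₀ ≤ i₁ := by
    by_contra hcon
    rw [not_le] at hcon
    have h3 : ∑ u, x u ≤ Lo + Hi := by
      have h4 : (univ : Finset (ZMod o)) ⊆
          (univ.filter fun u => P u < i₀) ∪ (univ.filter fun u => i₁ < P u) := by
        intro u _
        simp only [mem_union, mem_filter, mem_univ, true_and]
        omega
      refine (sum_le_sum_of_subset h4).trans ?_
      rw [hLo, hHi, ← sum_union_inter]
      exact Nat.le_add_right _ _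
    omega
  obtain ⟨hRp, hRo⟩ := hloc i₀ i₁ h1h h2h
  obtain ⟨b, hb⟩ : ∃ b : ℕ, i₁ = i₀ + b := ⟨(i₁ - i₀).toNat, by omega⟩
  -- the middle
  have hmem : ∀ i : ℤ, i₀ ≤ i → i ≤ i₁ → P (i : ZMod o) = i := by
    intro i h3 h4
    have e1 := pos_ge (o := o) q u₀
    have e2 := pos_lt (o := o) q u₁
    rw [← hP, hu₀'] at e1
    rw [← hP, hu₁] at e2
    exact pos_of q (by omega) (by omega)
  have hmid : (univ.filter fun u : ZMod o => i₀ ≤ P u ∧ P u ≤ i₁) =
      (Icc i₀ i₁).image (fun i : ℤ => (i : ZMod o)) := by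
    ext u
    simp only [mem_filter, mem_univ, true_and, mem_image, mem_Icc]
    constructor
    · intro h
      exact ⟨P u, h, pos_cast q u⟩
    · rintro ⟨i, hi, rfl⟩
      rw [hmem i hi.1 hi.2]
      exact hi
  have hinjOn : Set.InjOn (fun i : ℤ => (i : ZMod o)) (Icc i₀ i₁ : Finset ℤ) := by
    intro i hi j hj hij
    rw [mem_coe, mem_Icc] at hi hj
    have := congrArg P hij
    simp only at this
    rwa [hmem i hi.1 hi.2, hmem j hj.1 hj.2] at this
  have hmc : (#{u : ZMod o | i₀ ≤ P u ∧ P u ≤ i₁} : ℤ) = i₁ - i₀ + 1 := by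
    rw [hmid, card_image_of_injOn hinjOn, Int.card_Icc]
    omega
  have hm0 : ∑ u with (i₀ ≤ P u ∧ P u ≤ i₁), (2 * P u - (i₀ + i₁)) = 0 := by
    rw [hmid, sum_image hinjOn]
    have e1 : ∑ i ∈ Icc i₀ i₁, (2 * P (i : ZMod o) - (i₀ + i₁)) =
        ∑ i ∈ Icc i₀ i₁, (2 * i - (i₀ + i₁)) :=
      sum_congr rfl fun i hi => by rw [hmem i (mem_Icc.1 hi).1 (mem_Icc.1 hi).2]
    have e2 : ∑ i ∈ Icc i₀ i₁, (2 * i - (i₀ + i₁)) = ∑ i ∈ Icc i₀ i₁, -(2 * i - (i₀ + i₁)) := by
      refine sum_bij (fun i _ => i₀ + i₁ - i) ?_ ?_ ?_ ?_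
      · intro i hi
        rw [mem_Icc] at hi ⊢
        omega
      · intro i _ j _ h
        omega
      · intro j hj
        refine ⟨i₀ + i₁ - j, ?_, by omega⟩
        rw [mem_Icc] at hj ⊢
        omega
      · intro i _
        ring
    rw [sum_neg_distrib] at e2
    rw [e1]
    linarith
  -- the forbidden values
  set σ : ℤ := ∑ u, (r u : ℤ) * P u with hσ
  have hσc : ((σ : ℤ) : ZMod o) = ∑ u, r u • u := by
    rw [hσ, Int.cast_sum]
    refine sum_congr rfl fun u _ => ?_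
    rw [Int.cast_mul, Int.cast_natCast, nsmul_eq_mul, hP, pos_cast]
  have hforb : ∀ k : ℤ, ∑ u, (d₁ u : ℤ) * P u ≤ σ - α + o * k →
      σ - α + o * k ≤ ∑ u, (d₂ u : ℤ) * P u → False := by
    intro k h3 h4
    refine hav d₁ d₂ h1x h2x h1s h2s _ h3 h4 ?_
    rw [← hσc]
    push_cast
    rw [ZMod.natCast_self]
    ring
  set P1 := ∑ u, (d₁ u : ℤ) * P u with hP1
  set P2 := ∑ u, (d₂ u : ℤ) * P u with hP2
  have hE1 : P2 - P1 + 2 ≤ o := by
    by_contra hcon
    refine hforb (-((σ - α - P1) / o)) ?_ ?_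
    · have e1 := Int.emod_nonneg (σ - α - P1) (show (o : ℤ) ≠ 0 by positivity)
      have e2 := Int.mul_ediv_add_emod (σ - α - P1) o
      linarith
    · have e1 := Int.emod_lt_of_pos (σ - α - P1) (show (0 : ℤ) < o by positivity)
      have e2 := Int.mul_ediv_add_emod (σ - α - P1) o
      rw [not_le] at hcon
      have e3 : (σ - α - P1) % o ≤ (o : ℤ) - 1 := by omega
      have e4 : (o : ℤ) - 1 ≤ P2 - P1 := by omega
      linarith
  have hE1' : c' * b + Lo + Hi + 2 ≤ o := by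
    have e1 : (c' : ℤ) * i₁ - c' * i₀ = c' * b := by rw [hb]; ring
    have e2 : ((c' * b + Lo + Hi + 2 : ℕ) : ℤ) ≤ (o : ℤ) := by
      push_cast
      linarith
    exact_mod_cast e2
  -- counting
  have htotx : ∑ u, (x u + R u) = n + c := by
    rw [← htot]
    exact sum_congr rfl fun u _ => hxr u
  have hcount : n + c' ≤ (b + 1) * (M * s) + Lo + Hi + 16 := by
    have e1 := split3 P hi01 (fun u => (r u : ℤ))
    have e2 : ∑ u with (i₀ ≤ P u ∧ P u ≤ i₁), (r u : ℤ) ≤ (b + 1) * (M * s) := by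
      have e3 : ∑ u with (i₀ ≤ P u ∧ P u ≤ i₁), (r u : ℤ) ≤
          ∑ _u with (i₀ ≤ P _u ∧ P _u ≤ i₁), ((M * s : ℕ) : ℤ) :=
        sum_le_sum fun u _ => by exact_mod_cast hr u
      rw [sum_const, nsmul_eq_mul, hmc] at e3
      have e4 : i₁ - i₀ + 1 = (b : ℤ) + 1 := by omega
      rw [e4] at e3
      push_cast at e3
      linarith
    have e4 : ∑ u with P u < i₀, (r u : ℤ) + ∑ u with i₁ < P u, (r u : ℤ) ≤ Lo + Hi + 32 := by
      have e5 : ∀ u, (r u : ℤ) = x u + R u := fun u => by exact_mod_cast (hxr u).symm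
      have e6 : ∑ u with P u < i₀, (R u : ℤ) + ∑ u with i₁ < P u, (R u : ℤ) ≤ 32 := by
        rw [← sum_union (by
          rw [disjoint_filter]
          intro u _ h3 h4
          omega), ← filter_or, ← Nat.cast_sum]
        exact_mod_cast hRo
      rw [sum_congr rfl fun u _ => e5 u, sum_congr (s₁ := univ.filter fun u => i₁ < P u) rfl
        fun u _ => e5 u, sum_add_distrib, sum_add_distrib, hHi, hLo]
      push_cast
      linarith
    have e7 : ∑ u, (r u : ℤ) = n + c := by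
      rw [← Nat.cast_sum, htot]
      push_cast
      rfl
    rw [e7, hcc] at e1
    have e8 : ((n + c' : ℕ) : ℤ) ≤ (((b + 1) * (M * s) + Lo + Hi + 16 : ℕ) : ℤ) := by
      push_cast at e1 ⊢
      linarith
    exact_mod_cast e8
  have hs : 1 ≤ s := by
    rcases Nat.eq_zero_or_pos s with h | h
    · exfalso
      rw [h, mul_zero] at hr
      have : ∑ u, r u = 0 := sum_eq_zero fun u _ => Nat.le_zero.1 (hr u)
      omega
    · exact h
  have hstar : n + c' * (b + 1) ≤ (b + 1) * (M * s) + o + 14 := by nlinarith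
  have hoM : o ≤ (b + 1) * M := by
    by_contra hcon
    rw [not_le] at hcon
    obtain ⟨t, rfl⟩ : ∃ t, s = t + 1 := ⟨s - 1, by omega⟩
    have e1 : o * t ≥ (b + 1) * M * t := Nat.mul_le_mul_right _ hcon.le
    rw [← hos] at hstar
    nlinarith
  refine arith hM ho hos (by omega) hs hE1' hcount ?_ hoM
  intro hev
  have hb1 : 1 ≤ b := by
    rcases Nat.eq_zero_or_pos b with h | h
    · exfalso
      rw [h] at hoM
      omega
    · exact h
  -- the two moments
  have hfs : (n : ℤ) + s * (((b + 1) * M - o : ℕ) : ℤ) = (b + 1) * (M * s) := by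
    rw [← hos, Nat.cast_sub hoM]
    push_cast
    ring
  obtain ⟨m, hm⟩ := hev
  have hSS : (s : ℤ) * (i₀ + i₁) = 2 * (s * i₀ + m) := by
    have e1 : (s : ℤ) * b = m + m := by exact_mod_cast hm
    rw [hb]
    linear_combination e1
  have hvn : (o : ℤ) * (2 * (s * i₀ + m)) = n * (i₀ + i₁) := by
    rw [← hSS, ← hos]
    push_cast
    ring
  have hTn : ((n + c : ℕ) : ℤ) = n + c' + 16 := by rw [hcc]; push_cast; ring
  have hα' : ∑ u, (d₀ u : ℤ) * P u = α := hα
  have hd₀' : ∑ u, (d₀ u : ℤ) = 16 := by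
    rw [← Nat.cast_sum, hd₀c]
    rfl
  have hxR : ∀ u, (x u : ℤ) + R u = r u := fun u => by exact_mod_cast hxr u
  have hrt : ∑ u, (r u : ℤ) = n + c' + 16 := by
    rw [← Nat.cast_sum, htot]
    exact hTn
  by_cases hv : σ - α + o * (-(s * i₀ + m)) ≤ P2
  · right
    have hv1 : σ - α + o * (-(s * i₀ + m)) < P1 := by
      by_contra hcon
      exact hforb _ (not_lt.1 hcon) hv
    have hm0' : ∑ u with (-i₁ ≤ -P u ∧ -P u ≤ -i₀), (2 * -P u - (-i₁ + -i₀)) = 0 := by
      have e1 : (univ.filter fun u : ZMod o => -i₁ ≤ -P u ∧ -P u ≤ -i₀) =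
          (univ.filter fun u : ZMod o => i₀ ≤ P u ∧ P u ≤ i₁) := by
        ext u
        simp only [mem_filter, mem_univ, true_and]
        omega
      rw [e1, ← neg_eq_zero, ← sum_neg_distrib, ← hm0]
      exact sum_congr rfl fun u _ => by ring
    have hmc' : (#{u : ZMod o | -i₁ ≤ -P u ∧ -P u ≤ -i₀} : ℤ) = -i₀ - -i₁ + 1 := by
      have e1 : (univ.filter fun u : ZMod o => -i₁ ≤ -P u ∧ -P u ≤ -i₀) =
          (univ.filter fun u : ZMod o => i₀ ≤ P u ∧ P u ≤ i₁) := by
        ext u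
        simp only [mem_filter, mem_univ, true_and]
        omega
      rw [e1, hmc]
      ring
    have hmo := moment (fun u => -P u) x R d₀ d₁ (i₀ := -i₁) (i₁ := -i₀) (h := M * s) (c' := c')
      (T := n + c) (Hi := Lo) (by omega) (fun u => by rw [hxr]; exact hr u) hm0' hmc'
      (fun u hu => h1a u (by omega)) h1b h1s hd₀ hd₀c
      (fun u hu => by have := hRp u hu; constructor <;> omega)
      (by
        refine le_trans (le_of_eq ?_) hRo
        refine sum_congr ?_ fun _ _ => rfl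
        ext u
        simp only [mem_filter, mem_univ, true_and]
        omega) htotx
      (by
        rw [hLo]
        refine sum_congr ?_ fun _ _ => rfl
        ext u
        simp only [mem_filter, mem_univ, true_and]
        omega)
    have hlhs : ∑ u, ((x u : ℤ) + R u - d₁ u - d₀ u) * (2 * -P u - (-i₁ + -i₀)) =
        -(2 * σ - 2 * P1 - 2 * α) + (i₀ + i₁) * n := by
      have e1 : ∀ u, ((x u : ℤ) + R u - d₁ u - d₀ u) * (2 * -P u - (-i₁ + -i₀)) =
          -(2 * ((r u : ℤ) * P u) - 2 * ((d₁ u : ℤ) * P u) - 2 * ((d₀ u : ℤ) * P u)) +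
            (i₀ + i₁) * ((r u : ℤ) - d₁ u - d₀ u) := by
        intro u
        rw [hxR]
        ring
      rw [sum_congr rfl fun u _ => e1 u, sum_add_distrib, sum_neg_distrib, sum_sub_distrib,
        sum_sub_distrib, ← mul_sum, ← mul_sum, ← mul_sum, ← mul_sum, sum_sub_distrib,
        sum_sub_distrib, hα', hd₀', hrt, ← Nat.cast_sum, h1s]
      ring
    rw [hlhs, hTn] at hmo
    have e9 : -i₀ - -i₁ = (b : ℤ) := by rw [hb]; ring
    rw [e9] at hmo
    have e10 : 0 < -(2 * σ - 2 * P1 - 2 * α) + (i₀ + i₁) * n := by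
      have : 2 * (σ - α + o * (-(s * i₀ + m))) = 2 * σ - 2 * α - n * (i₀ + i₁) := by
        linear_combination -hvn
      linarith
    have e11 : (2 * c' : ℤ) < s * (((b + 1) * M - o : ℕ) : ℤ) + 2 * Lo + 160 := by
      by_contra hcon
      rw [not_lt] at hcon
      have e12 : (b : ℤ) * ((b + 1) * ((M * s : ℕ) : ℤ) - (n + c' + 16) - c' + 2 * Lo + 32) ≤
          b * (-144) := by
        refine mul_le_mul_of_nonneg_left ?_ (by positivity)
        push_cast
        linarith
      have e13 : (1 : ℤ) ≤ b := by exact_mod_cast hb1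
      nlinarith
    exact_mod_cast e11
  · left
    rw [not_le] at hv
    have hmo := moment P x R d₀ d₂ (i₀ := i₀) (i₁ := i₁) (h := M * s) (c' := c')
      (T := n + c) (Hi := Hi) hi01 (fun u => by rw [hxr]; exact hr u) hm0 hmc
      h2a h2b h2s hd₀ hd₀c hRp hRo htotx rfl
    have hlhs : ∑ u, ((x u : ℤ) + R u - d₂ u - d₀ u) * (2 * P u - (i₀ + i₁)) =
        2 * σ - 2 * P2 - 2 * α - (i₀ + i₁) * n := by
      have e1 : ∀ u, ((x u : ℤ) + R u - d₂ u - d₀ u) * (2 * P u - (i₀ + i₁)) =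
          (2 * ((r u : ℤ) * P u) - 2 * ((d₂ u : ℤ) * P u) - 2 * ((d₀ u : ℤ) * P u)) -
            (i₀ + i₁) * ((r u : ℤ) - d₂ u - d₀ u) := by
        intro u
        rw [hxR]
        ring
      rw [sum_congr rfl fun u _ => e1 u, sum_sub_distrib, sum_sub_distrib,
        sum_sub_distrib, ← mul_sum, ← mul_sum, ← mul_sum, ← mul_sum, sum_sub_distrib,
        sum_sub_distrib, hα', hd₀', hrt, ← Nat.cast_sum, h2s]
      ring
    rw [hlhs, hTn] at hmo
    have e9 : i₁ - i₀ = (b : ℤ) := by rw [hb]; ring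
    rw [e9] at hmo
    have e10 : 0 < 2 * σ - 2 * P2 - 2 * α - (i₀ + i₁) * n := by
      have : 2 * (σ - α + o * (-(s * i₀ + m))) = 2 * σ - 2 * α - n * (i₀ + i₁) := by
        linear_combination -hvn
      linarith
    have e11 : (2 * c' : ℤ) < s * (((b + 1) * M - o : ℕ) : ℤ) + 2 * Hi + 160 := by
      by_contra hcon
      rw [not_lt] at hcon
      have e12 : (b : ℤ) * ((b + 1) * ((M * s : ℕ) : ℤ) - (n + c' + 16) - c' + 2 * Hi + 32) ≤
          b * (-144) := by
        refine mul_le_mul_of_nonneg_left ?_ (by positivity)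
        push_cast
        linarith
      have e13 : (1 : ℤ) ≤ b := by exact_mod_cast hb1
      nlinarith
    exact_mod_cast e11

end Pool.Agent.Lib.MPa7239a.RF
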