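import Pool.Agent.Lib.MP_a7239a_co.RG.FULL3

/-!
# A set of about half of a coset (RF, module HALF)

Either the set is in a coset of a subgroup of index two, or every element is a sum of `d` distinct
elements, for `50 ≤ d ≤ #X / 45`. No condition on the elements of order two.
-/

set_option autoImplicit false

open Finset
open scoped Pointwise

namespace Pool.Agent.Lib.MPa7239a.RF

open Pool.Agent.Lib.MPa7239a.GC

namespace HALFM

section

variable {G : Type*} [AddCommGroup G] [DecidableEq G]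

/-- `A - A` is a subgroup if it is small -/
theorem exists_subgroup {A : Finset G} (hA : A.Nonempty) (h : 2 * #(A - A) < 3 * #A) :
    ∃ K : AddSubgroup G, ∀ g, g ∈ K ↔ g ∈ A - A := by
  have key : ∀ g ∈ A - A, #A < 2 * #(A.filter (fun x => x - g ∈ A)) := by
    intro g hg
    obtain ⟨a, ha, b, hb, rfl⟩ := mem_sub.1 hg
    have h1 : A.image (fun x => x - a) ⊆ A - A := by
      intro z hz
      obtain ⟨x, hx, rfl⟩ := mem_image.1 hz
      exact sub_mem_sub hx ha
    have h2 : A.image (fun x => x - b) ⊆ A - A := by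
      intro z hz
      obtain ⟨x, hx, rfl⟩ := mem_image.1 hz
      exact sub_mem_sub hx hb
    have h3 := card_union_add_card_inter (A.image (fun x => x - a)) (A.image (fun x => x - b))
    rw [card_image_of_injective _ sub_left_injective,
      card_image_of_injective _ sub_left_injective] at h3
    have h4 := card_le_card (union_subset h1 h2)
    have h5 : #(A.image (fun x => x - a) ∩ A.image (fun x => x - b)) ≤
        #(A.filter (fun x => x - (a - b) ∈ A)) := by
      refine card_le_card_of_injOn (fun z => z + a) ?_ (fun x _ y _ hxy => add_right_cancel hxy)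
      intro z hz
      rw [mem_coe, mem_inter, mem_image, mem_image] at hz
      obtain ⟨⟨x, hx, rfl⟩, y, hy, hxy⟩ := hz
      have h7 : x - (a - b) = y := by
        rw [sub_sub_eq_add_sub, add_sub_right_comm, ← hxy, sub_add_cancel]
      have h8 : x - a + a = x := sub_add_cancel x a
      change x - a + a ∈ A.filter (fun x => x - (a - b) ∈ A)
      rw [h8, mem_filter, h7]
      exact ⟨hx, hy⟩
    omega
  obtain ⟨a, ha⟩ := hA
  refine ⟨AddSubgroup.ofSub ((A - A : Finset G) : Set G) ⟨a - a, mem_coe.2 (sub_mem_sub ha ha)⟩ ?_,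
    fun g => Iff.rfl⟩
  intro g hg g' hg'
  have h1 := key g (mem_coe.1 hg)
  have h2 := key g' (mem_coe.1 hg')
  have h3 := card_union_add_card_inter (A.filter (fun x => x - g ∈ A))
    (A.filter (fun x => x - g' ∈ A))
  have h4 : #(A.filter (fun x => x - g ∈ A) ∪ A.filter (fun x => x - g' ∈ A)) ≤ #A :=
    card_le_card (union_subset (filter_subset _ _) (filter_subset _ _))
  obtain ⟨x, hx⟩ := card_pos.1 (show 0 < #(A.filter (fun x => x - g ∈ A) ∩
    A.filter (fun x => x - g' ∈ A)) by omega)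
  rw [mem_inter, mem_filter, mem_filter] at hx
  rw [mem_coe]
  have h5 : g + -g' = (x - g') - (x - g) := by abel
  rw [h5]
  exact sub_mem_sub hx.2.2 hx.1.2

variable [Fintype G]

/-- double counting of the differences -/
theorem sum_diff (X : Finset G) : ∑ g : G, #(X.filter (fun y => g + y ∈ X)) = #X * #X := by
  have h1 : ∑ g : G, #(X.filter (fun y => g + y ∈ X)) =
      ∑ y ∈ X, #((univ : Finset G).filter (fun g => g + y ∈ X)) := by
    simp_rw [card_filter]
    exact sum_comm
  rw [h1, ← smul_eq_mul, ← sum_const]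
  refine sum_congr rfl fun y _ => ?_
  have h2 : (univ : Finset G).filter (fun g => g + y ∈ X) = X.image (fun x => x - y) := by
    ext g
    rw [mem_filter, mem_image]
    constructor
    · rintro ⟨-, h⟩
      exact ⟨g + y, h, add_sub_cancel_right g y⟩
    · rintro ⟨x, hx, rfl⟩
      exact ⟨mem_univ _, by rwa [sub_add_cancel]⟩
  rw [h2, card_image_of_injective _ sub_left_injective]

/-- few pairs have an unpopular sum -/
theorem sum_bad {H : AddSubgroup G} {X P : Finset G} {x₀ : G} (hX : ∀ x ∈ X, x - x₀ ∈ H)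
    (hP : ∀ s, s ∉ P → 10 ^ 4 * #(X.filter (fun x => s - x ∈ X)) ≤ Nat.card H) :
    10 ^ 4 * ∑ x ∈ X, #(X.filter (fun y => x + y ∉ P)) ≤ Nat.card H * Nat.card H := by
  classical
  set C : Finset G := (univ : Finset G).filter (fun s => s - (2 • x₀) ∈ H ∧ s ∉ P) with hC
  have hCc : #C ≤ Nat.card H := card_le_of_coset H (2 • x₀) fun s hs => (mem_filter.1 hs).2.1
  have h1 : ∀ x ∈ X, #(X.filter (fun y => x + y ∉ P)) ≤ #(C.filter (fun s => s - x ∈ X)) := by
    intro x hx
    refine card_le_card_of_injOn (fun y => x + y) ?_ (fun y _ y' _ h => add_left_cancel h)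
    intro y hy
    rw [mem_coe, mem_filter] at hy
    rw [mem_coe, mem_filter, hC, mem_filter, add_sub_cancel_left]
    refine ⟨⟨mem_univ _, ?_, hy.2⟩, hy.1⟩
    have h2 : x + y - 2 • x₀ = (x - x₀) + (y - x₀) := by
      rw [two_nsmul]
      abel
    rw [h2]
    exact H.add_mem (hX x hx) (hX y hy.1)
  have h2 : ∑ x ∈ X, #(C.filter (fun s => s - x ∈ X)) =
      ∑ s ∈ C, #(X.filter (fun x => s - x ∈ X)) := by
    simp_rw [card_filter]
    exact sum_comm
  calc 10 ^ 4 * ∑ x ∈ X, #(X.filter (fun y => x + y ∉ P))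
      ≤ 10 ^ 4 * ∑ x ∈ X, #(C.filter (fun s => s - x ∈ X)) :=
        Nat.mul_le_mul_left _ (sum_le_sum h1)
    _ = ∑ s ∈ C, 10 ^ 4 * #(X.filter (fun x => s - x ∈ X)) := by rw [h2, mul_sum]
    _ ≤ ∑ _s ∈ C, Nat.card H := sum_le_sum fun s hs => hP s (mem_filter.1 hs).2.2
    _ = #C * Nat.card H := by rw [sum_const, smul_eq_mul]
    _ ≤ Nat.card H * Nat.card H := Nat.mul_le_mul_right _ hCc

/-- few popular sums: most of the set is in a coset of a subgroup of index two -/
theorem few {H : AddSubgroup G} {X P : Finset G} {x₀ : G} (hX : ∀ x ∈ X, x - x₀ ∈ H)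
    (hP : ∀ s, s ∉ P → 10 ^ 4 * #(X.filter (fun x => s - x ∈ X)) ≤ Nat.card H)
    (hPc : 1000 * #P ≤ 502 * Nat.card H) (hXc : 487 * Nat.card H ≤ 1000 * #X) :
    ∃ K ≤ H, 2 * Nat.card K = Nat.card H ∧ ∃ X₁ ⊆ X, 477 * Nat.card H ≤ 1000 * #X₁ ∧
      ∀ x ∈ X₁, ∀ y ∈ X₁, x - y ∈ K := by
  classical
  have hpos : 0 < Nat.card H := Nat.card_pos
  set h := Nat.card H with hh
  set bad : G → ℕ := fun x => #(X.filter (fun y => x + y ∉ P)) with hbad
  have hsum : 10 ^ 4 * ∑ x ∈ X, bad x ≤ h * h := sum_bad hX hP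
  set X₁ := X.filter (fun x => 100 * bad x ≤ h) with hX₁
  -- few elements outside
  have hout : 100 * #(X.filter (fun x => ¬ 100 * bad x ≤ h)) ≤ h := by
    refine Nat.le_of_mul_le_mul_right ?_ (show 0 < 100 * h by omega)
    calc 100 * #(X.filter (fun x => ¬ 100 * bad x ≤ h)) * (100 * h)
        = 10 ^ 4 * (#(X.filter (fun x => ¬ 100 * bad x ≤ h)) * h) := by ring
      _ = 10 ^ 4 * ∑ _x ∈ X.filter (fun x => ¬ 100 * bad x ≤ h), h := by
          rw [sum_const, smul_eq_mul]
      _ ≤ 10 ^ 4 * ∑ x ∈ X.filter (fun x => ¬ 100 * bad x ≤ h), 100 * bad x :=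
          Nat.mul_le_mul_left _ (sum_le_sum fun x hx => (not_le.1 (mem_filter.1 hx).2).le)
      _ ≤ 10 ^ 4 * ∑ x ∈ X, 100 * bad x :=
          Nat.mul_le_mul_left _ (sum_le_sum_of_subset (filter_subset _ _))
      _ = 100 * (10 ^ 4 * ∑ x ∈ X, bad x) := by rw [← mul_sum]; ring
      _ ≤ 100 * (h * h) := Nat.mul_le_mul_left _ hsum
      _ = h * (100 * h) := by ring
  have hXsplit := card_filter_add_card_filter_not (s := X) (fun x => 100 * bad x ≤ h)
  rw [← hX₁] at hXsplit
  have hX₁c : 477 * h ≤ 1000 * #X₁ := by omega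
  -- the translates are nearly in `P`
  have htr : ∀ x ∈ X₁, (X.filter (fun y => x + y ∈ P)).image (fun y => x + y) ⊆ P ∧
      100 * #X ≤ 100 * #((X.filter (fun y => x + y ∈ P)).image (fun y => x + y)) + h := by
    intro x hx
    constructor
    · intro z hz
      obtain ⟨y, hy, rfl⟩ := mem_image.1 hz
      exact (mem_filter.1 hy).2
    · rw [card_image_of_injective _ (add_right_injective x)]
      have h1 := card_filter_add_card_filter_not (s := X) (fun y => x + y ∈ P)
      have h2 : 100 * #(X.filter (fun y => ¬ x + y ∈ P)) ≤ h := (mem_filter.1 hx).2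
      omega
  obtain ⟨x₁, hx₁⟩ : X₁.Nonempty := card_pos.1 (by omega)
  have hXP : 1000 * #X ≤ 512 * h := by
    obtain ⟨h1, h2⟩ := htr x₁ hx₁
    have h3 := card_le_card h1
    omega
  -- the differences are popular
  have hpop : ∀ g ∈ X₁ - X₁, 452 * h ≤ 1000 * #(X.filter (fun y => g + y ∈ X)) := by
    intro g hg
    obtain ⟨a, ha, b, hb, rfl⟩ := mem_sub.1 hg
    obtain ⟨ha1, ha2⟩ := htr a ha
    obtain ⟨hb1, hb2⟩ := htr b hb
    have h1 := card_union_add_card_inter ((X.filter (fun y => a + y ∈ P)).image (fun y => a + y))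
      ((X.filter (fun y => b + y ∈ P)).image (fun y => b + y))
    have h2 := card_le_card (union_subset ha1 hb1)
    have h3 : #((X.filter (fun y => a + y ∈ P)).image (fun y => a + y) ∩
        (X.filter (fun y => b + y ∈ P)).image (fun y => b + y)) ≤
        #(X.filter (fun y => a - b + y ∈ X)) := by
      refine card_le_card_of_injOn (fun z => z - a) ?_ (fun x _ y _ hxy => sub_left_injective hxy)
      intro z hz
      rw [mem_coe, mem_inter, mem_image, mem_image] at hz
      obtain ⟨⟨y, hy, rfl⟩, y', hy', hyy⟩ := hz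
      have h4 : a - b + y = y' := by
        rw [sub_add_eq_add_sub, ← hyy, add_sub_cancel_left]
      have h5 : a + y - a = y := add_sub_cancel_left a y
      change a + y - a ∈ X.filter (fun y => a - b + y ∈ X)
      rw [h5, mem_filter, h4]
      exact ⟨(mem_filter.1 hy).1, (mem_filter.1 hy').1⟩
    omega
  have hDc : 452000 * #(X₁ - X₁) ≤ 262144 * h := by
    refine Nat.le_of_mul_le_mul_right ?_ hpos
    calc 452000 * #(X₁ - X₁) * h = 1000 * (#(X₁ - X₁) * (452 * h)) := by ring
      _ = 1000 * ∑ _g ∈ X₁ - X₁, 452 * h := by rw [sum_const, smul_eq_mul]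
      _ ≤ 1000 * ∑ g ∈ X₁ - X₁, 1000 * #(X.filter (fun y => g + y ∈ X)) :=
          Nat.mul_le_mul_left _ (sum_le_sum hpop)
      _ ≤ 1000 * ∑ g : G, 1000 * #(X.filter (fun y => g + y ∈ X)) :=
          Nat.mul_le_mul_left _ (sum_le_sum_of_subset (subset_univ _))
      _ = (1000 * #X) * (1000 * #X) := by rw [← mul_sum, sum_diff]; ring
      _ ≤ (512 * h) * (512 * h) := Nat.mul_le_mul hXP hXP
      _ = 262144 * h * h := by ring
  obtain ⟨K, hK⟩ := exists_subgroup (A := X₁) ⟨x₁, hx₁⟩ (by omega)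
  have hKH : K ≤ H := by
    intro g hg
    obtain ⟨a, ha, b, hb, rfl⟩ := mem_sub.1 ((hK g).1 hg)
    have h1 : a - b = (a - x₀) - (b - x₀) := by abel
    rw [h1]
    exact H.sub_mem (hX a (mem_filter.1 ha).1) (hX b (mem_filter.1 hb).1)
  have hKc : Nat.card K = #(X₁ - X₁) := by
    rw [← Fintype.card_coe, ← Nat.card_eq_fintype_card]
    exact Nat.card_congr (Equiv.subtypeEquivRight fun g => hK g)
  have hX₁K : #X₁ ≤ #(X₁ - X₁) := by
    rw [← card_image_of_injective X₁ (sub_left_injective (b := x₁))]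
    refine card_le_card fun z hz => ?_
    obtain ⟨x, hx, rfl⟩ := mem_image.1 hz
    exact sub_mem_sub hx hx₁
  refine ⟨K, hKH, ?_, X₁, filter_subset _ _, hX₁c, fun x hx y hy => (hK _).2 (sub_mem_sub hx hy)⟩
  obtain ⟨j, hj⟩ := AddSubgroup.card_dvd_of_le hKH
  rw [← hh] at hj
  have hj0 : j ≠ 0 := by
    rintro rfl
    omega
  have hj1 : j ≠ 1 := by
    rintro rfl
    omega
  have hj3 : j < 3 := by
    by_contra hcon
    have h1 : Nat.card K * 3 ≤ Nat.card K * j := Nat.mul_le_mul_left _ (by omega)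
    omega
  have hj2 : j = 2 := by omega
  rw [hj, hj2, mul_comm]

/-- many popular sums: four distinct elements -/
theorem many {H : AddSubgroup G} (hH : 10 ^ 12 ≤ Nat.card H) {X P : Finset G} {x₀ : G}
    (hX : ∀ x ∈ X, x - x₀ ∈ H)
    (hP : ∀ s ∈ P, Nat.card H ≤ 10 ^ 4 * #(X.filter (fun x => s - x ∈ X)))
    (hPc : 502 * Nat.card H ≤ 1000 * #P) {g : G} (hg : g - 4 • x₀ ∈ H) :
    ∃ T ⊆ X, #T = 4 ∧ ∑ x ∈ T, x = g := by
  classical
  have hPH : ∀ s ∈ P, s - 2 • x₀ ∈ H := by
    intro s hs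
    obtain ⟨x, hx⟩ := card_pos.1 (show 0 < #(X.filter (fun x => s - x ∈ X)) by
      have := hP s hs
      omega)
    rw [mem_filter] at hx
    have h1 : s - 2 • x₀ = (x - x₀) + (s - x - x₀) := by
      rw [two_nsmul]
      abel
    rw [h1]
    exact H.add_mem (hX x hx.1) (hX _ hx.2)
  set P' := P.image (fun s => g - s) with hP'
  have hP'c : #P' = #P := card_image_of_injective _ sub_right_injective
  have hU : #(P ∪ P') ≤ Nat.card H := by
    refine card_le_of_coset H (2 • x₀) fun s hs => ?_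
    rcases mem_union.1 hs with hs | hs
    · exact hPH s hs
    · obtain ⟨s', hs', rfl⟩ := mem_image.1 hs
      have h1 : g - s' - 2 • x₀ = (g - 4 • x₀) - (s' - 2 • x₀) := by
        rw [show (4 : ℕ) = 2 + 2 from rfl, add_nsmul]
        abel
      rw [h1]
      exact H.sub_mem hg (hPH s' hs')
  have hI := card_union_add_card_inter P P'
  rw [hP'c] at hI
  -- sums with many solutions of `x + x = s`
  set Q : Finset G := (univ : Finset G).filter
    (fun s => Nat.card H ≤ 20000 * #(X.filter (fun x => x + x = s))) with hQ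
  have hXH : #X ≤ Nat.card H := card_le_of_coset H x₀ hX
  have hQc : #Q ≤ 20000 := by
    refine Nat.le_of_mul_le_mul_right ?_ (show 0 < Nat.card H by omega)
    have h1 : ∑ s ∈ Q, #(X.filter (fun x => x + x = s)) ≤ #X := by
      rw [card_eq_sum_card_fiberwise (s := X) (f := fun x => x + x) (t := univ)
        fun _ _ => mem_coe.2 (mem_univ _)]
      exact sum_le_sum_of_subset (subset_univ _)
    calc #Q * Nat.card H = ∑ _s ∈ Q, Nat.card H := by rw [sum_const, smul_eq_mul]
      _ ≤ ∑ s ∈ Q, 20000 * #(X.filter (fun x => x + x = s)) :=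
          sum_le_sum fun s hs => (mem_filter.1 hs).2
      _ = 20000 * ∑ s ∈ Q, #(X.filter (fun x => x + x = s)) := by rw [mul_sum]
      _ ≤ 20000 * Nat.card H := Nat.mul_le_mul_left _ (h1.trans hXH)
  set Q' := Q.image (fun s => g - s) with hQ'
  have hQ'c : #Q' ≤ 20000 := card_image_le.trans hQc
  have hQQ := card_union_le Q Q'
  obtain ⟨s, hs, hsQ⟩ := exists_mem_notMem_of_card_lt_card (s := Q ∪ Q') (t := P ∩ P') (by omega)
  rw [mem_inter] at hs
  rw [mem_union, not_or] at hsQ
  have hs' : g - s ∈ P := by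
    obtain ⟨s', hs', h⟩ := mem_image.1 hs.2
    rw [← h, sub_sub_cancel]
    exact hs'
  have hsQ' : g - s ∉ Q := fun h => hsQ.2 (mem_image.2 ⟨g - s, h, sub_sub_cancel g s⟩)
  -- many solutions with different terms
  have hsol : ∀ s ∈ P, s ∉ Q → 5 ≤ #((X.filter (fun x => s - x ∈ X)).filter (fun x => x + x ≠ s)) := by
    intro s hs hsQ
    have h1 := hP s hs
    have h2 : 20000 * #(X.filter (fun x => x + x = s)) < Nat.card H := by
      by_contra hcon
      exact hsQ (mem_filter.2 ⟨mem_univ _, not_lt.1 hcon⟩)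
    have h3 := card_filter_add_card_filter_not (s := X.filter (fun x => s - x ∈ X))
      (fun x => x + x = s)
    have h4 : #((X.filter (fun x => s - x ∈ X)).filter (fun x => x + x = s)) ≤
        #(X.filter (fun x => x + x = s)) := by
      refine card_le_card fun x hx => ?_
      rw [mem_filter, mem_filter] at hx
      exact mem_filter.2 ⟨hx.1.1, hx.2⟩
    have h5 : #((X.filter (fun x => s - x ∈ X)).filter (fun x => ¬ x + x = s)) =
      #((X.filter (fun x => s - x ∈ X)).filter (fun x => x + x ≠ s)) := rfl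
    omega
  obtain ⟨x₁, hx₁⟩ := card_pos.1 (lt_of_lt_of_le (by norm_num) (hsol s hs.1 hsQ.1))
  obtain ⟨x₃, hx₃, hx₃'⟩ := exists_mem_notMem_of_card_lt_card
    (s := ({x₁, s - x₁, g - s - x₁, g - s - (s - x₁)} : Finset G))
    (t := (X.filter (fun x => g - s - x ∈ X)).filter (fun x => x + x ≠ g - s))
    (lt_of_le_of_lt card_le_four (lt_of_lt_of_le (by norm_num) (hsol _ hs' hsQ')))
  rw [mem_filter, mem_filter] at hx₁ hx₃
  simp only [mem_insert, mem_singleton, not_or] at hx₃'
  obtain ⟨⟨hx₁X, hx₂X⟩, h12⟩ := hx₁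
  obtain ⟨⟨hx₃X, hx₄X⟩, h34⟩ := hx₃
  obtain ⟨h31, h32, h41, h42⟩ := hx₃'
  have e12 : x₁ ≠ s - x₁ := fun h => h12 (eq_sub_iff_add_eq.1 h)
  have e34 : x₃ ≠ g - s - x₃ := fun h => h34 (eq_sub_iff_add_eq.1 h)
  have e14 : x₁ ≠ g - s - x₃ := fun h => h41 (by rw [h]; abel)
  have e24 : s - x₁ ≠ g - s - x₃ := fun h => h42 (by rw [h]; abel)
  refine ⟨{x₁, s - x₁, x₃, g - s - x₃}, ?_, ?_, ?_⟩
  · intro x hx
    simp only [mem_insert, mem_singleton] at hx
    rcases hx with rfl | rfl | rfl | rfl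
    · exact hx₁X
    · exact hx₂X
    · exact hx₃X
    · exact hx₄X
  · rw [card_insert_of_notMem, card_insert_of_notMem, card_pair e34]
    · simp only [mem_insert, mem_singleton, not_or]
      exact ⟨fun h => h32 h.symm, e24⟩
    · simp only [mem_insert, mem_singleton, not_or]
      exact ⟨e12, fun h => h31 h.symm, e14⟩
  · rw [sum_insert, sum_insert, sum_pair e34]
    · abel
    · simp only [mem_insert, mem_singleton, not_or]
      exact ⟨fun h => h32 h.symm, e24⟩
    · simp only [mem_insert, mem_singleton, not_or]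
      exact ⟨e12, fun h => h31 h.symm, e14⟩

omit [Fintype G] [DecidableEq G] in
/-- the difference of two elements outside a subgroup of index two -/
theorem sub_mem_of_index [Finite G] {H K : AddSubgroup G} (hK : K ≤ H) (hc : 2 * Nat.card K = Nat.card H)
    {a b : G} (ha : a ∈ H) (hb : b ∈ H) (haK : a ∉ K) (hbK : b ∉ K) : a - b ∈ K := by
  have h1 : (K.addSubgroupOf H).index = 2 := by
    have h2 := (K.addSubgroupOf H).card_mul_index
    have h3 : 0 < Nat.card K := Nat.card_pos
    rw [Nat.card_congr (AddSubgroup.addSubgroupOfEquivOfLe hK).toEquiv, ← hc, mul_comm 2] at h2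
    exact Nat.eq_of_mul_eq_mul_left h3 h2
  have h4 := AddSubgroup.add_mem_iff_of_index_two h1 (a := ⟨a, ha⟩) (b := -⟨b, hb⟩)
  rw [neg_mem_iff, AddSubgroup.mem_addSubgroupOf, AddSubgroup.mem_addSubgroupOf,
    AddSubgroup.mem_addSubgroupOf] at h4
  have h5 : (((⟨a, ha⟩ : H) + -⟨b, hb⟩ : H) : G) = a - b := (sub_eq_add_neg a b).symm
  rw [h5] at h4
  exact h4.2 (iff_of_false haK hbK)

end

end HALFM

open HALFM in
/-- a set of about half of a coset of `H` -/
theorem half {G : Type*} [AddCommGroup G] [Fintype G] [DecidableEq G] {H : AddSubgroup G} {θ : ℕ}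
    (hFF : ∀ K : AddSubgroup G, RG.FatFull3 K θ) (hH : 10 ^ 12 ≤ Nat.card H)
    (hθ : 1000 * θ ≤ Nat.card H) {X : Finset G} {x₀ : G} (hX : ∀ x ∈ X, x - x₀ ∈ H)
    (hX1 : 499 * Nat.card H ≤ 1000 * #X) :
    (∃ K ≤ H, 2 * Nat.card K = Nat.card H ∧ ∀ x ∈ X, ∀ y ∈ X, x - y ∈ K) ∨
      (∀ d, 50 ≤ d → 45 * d ≤ #X → ∀ g, g - d • x₀ ∈ H → ∃ T ⊆ X, #T = d ∧ ∑ x ∈ T, x = g) := by
  classical
  by_cases hfirst : ∃ K ≤ H, 2 * Nat.card K = Nat.card H ∧ ∀ x ∈ X, ∀ y ∈ X, x - y ∈ K
  · exact Or.inl hfirst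
  right
  intro d hd hdX g hg
  have hXH : #X ≤ Nat.card H := card_le_of_coset H x₀ hX
  obtain ⟨W, hWX, hWc⟩ := exists_subset_card_eq (show d - 4 ≤ #X by omega)
  have hX'c : #(X \ W) = #X - (d - 4) := by rw [card_sdiff_of_subset hWX, hWc]
  have hX' : ∀ x ∈ X \ W, x - x₀ ∈ H := fun x hx => hX x (mem_sdiff.1 hx).1
  set P : Finset G := (univ : Finset G).filter
    (fun s => Nat.card H ≤ 10 ^ 4 * #((X \ W).filter (fun x => s - x ∈ X \ W))) with hP
  rcases Nat.lt_or_ge (502 * Nat.card H) (1000 * #P) with h | h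
  · -- many popular sums
    obtain ⟨T, hT, hTc, hTs⟩ := many hH hX' (P := P) (fun s hs => (mem_filter.1 hs).2) h.le
      (g := g - ∑ x ∈ W, x) (by
        have h1 := RK.sum_mem_coset (K := H) (x₀ := x₀) (T := W) fun x hx => hX x (hWX hx)
        rw [hWc] at h1
        have h2 : g - ∑ x ∈ W, x - 4 • x₀ = (g - d • x₀) - (∑ x ∈ W, x - (d - 4) • x₀) := by
          have h3 : d • x₀ = (d - 4) • x₀ + 4 • x₀ := by
            rw [← add_nsmul]
            congr 1
            omega
          rw [h3]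
          abel
        rw [h2]
        exact H.sub_mem hg h1)
    have hdis : Disjoint W T := disjoint_of_subset_right hT disjoint_sdiff
    refine ⟨W ∪ T, union_subset hWX (hT.trans sdiff_subset), ?_, ?_⟩
    · rw [card_union_of_disjoint hdis, hWc, hTc]
      omega
    · rw [sum_union hdis, hTs]
      abel
  · -- few popular sums
    obtain ⟨K, hKH, hKc, X₁, hX₁, hX₁c, hX₁K⟩ := few hX' (P := P) (fun s hs => by
      by_contra hcon
      exact hs (mem_filter.2 ⟨mem_univ _, (not_le.1 hcon).le⟩)) h (by omega)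
    obtain ⟨x₁, hx₁⟩ : X₁.Nonempty := card_pos.1 (by omega)
    have hx₁H : x₁ - x₀ ∈ H := hX' x₁ (hX₁ hx₁)
    obtain ⟨x, hx, hxK⟩ : ∃ x ∈ X, x - x₁ ∉ K := by
      by_contra hcon
      push Not at hcon
      refine hfirst ⟨K, hKH, hKc, fun x hx y hy => ?_⟩
      have h1 := K.sub_mem (hcon x hx) (hcon y hy)
      rwa [sub_sub_sub_cancel_right] at h1
    have hX₁X : X₁ ⊆ X := hX₁.trans sdiff_subset
    have hX₁K' : ∀ x ∈ X₁, x - x₁ ∈ K := fun x hx => hX₁K x hx x₁ hx₁
    have hcoset : ∀ y ∈ X, y - x₁ ∈ H := fun y hy => by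
      have h1 : y - x₁ = (y - x₀) - (x₁ - x₀) := by abel
      rw [h1]
      exact H.sub_mem (hX y hy) hx₁H
    have hgH : g - d • x₁ ∈ H := by
      have h1 : g - d • x₁ = (g - d • x₀) - d • (x₁ - x₀) := by
        rw [nsmul_sub]
        abel
      rw [h1]
      exact H.sub_mem hg (H.nsmul_mem hx₁H d)
    by_cases hgK : g - d • x₁ ∈ K
    · obtain ⟨T, hT, hTc, hTs⟩ := hFF K X₁ x₁ hX₁K' (by omega) d (by omega) (by omega) g hgK
      exact ⟨T, hT.trans hX₁X, hTc, hTs⟩
    · obtain ⟨T, hT, hTc, hTs⟩ := hFF K X₁ x₁ hX₁K' (by omega) (d - 1) (by omega) (by omega)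
        (g - x) (by
          have h1 := sub_mem_of_index hKH hKc hgH (hcoset x hx) hgK hxK
          have h2 : g - x - (d - 1) • x₁ = g - d • x₁ - (x - x₁) := by
            have h3 : d • x₁ = (d - 1) • x₁ + x₁ := by
              rw [← succ_nsmul]
              congr 1
              omega
            rw [h3]
            abel
          rw [h2]
          exact h1)
      have hxT : x ∉ T := fun h => hxK (hX₁K' x (hT h))
      refine ⟨insert x T, insert_subset hx (hT.trans hX₁X), ?_, ?_⟩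
      · rw [card_insert_of_notMem hxT, hTc]
        omega
      · rw [sum_insert hxT, hTs]
        abel

end Pool.Agent.Lib.MPa7239a.RF
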