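import Pool.Agent.Lib.MP_a7239a_co.RF.Defs
import Pool.Agent.Lib.MP_a7239a_co.RC.FINC

/-!
# The explicit formula up to a constant: huge exponents
-/

set_option autoImplicit false

open Finset
open scoped Pointwise

namespace Pool.Agent.Lib.MPa7239a.RF

open Pool.Agent.Lib.MPa7239a.GC

namespace HUGEFM

theorem ms_subset_ball {Q : Type*} [AddCommGroup Q] [Fintype Q] [DecidableEq Q] (P : Finset Q) :
    ∀ k : ℕ, ms P k ⊆ ball P k := by
  intro k
  induction k with
  | zero =>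
    intro x hx
    rw [mem_ball_zero]
    simpa [ms] using hx
  | succ k ih =>
    intro x hx
    obtain ⟨a, ha, b, hb, rfl⟩ := Finset.mem_add.1 hx
    exact mem_ball_succ.2 ⟨a, ih ha, b, hb, rfl⟩

/-- a generating set whose `t`-fold sums miss an element: the numbers of a quotient (Kneser) -/
theorem of_missing {R : Type*} [AddCommGroup R] [Fintype R] [DecidableEq R] {P : Finset R}
    {m t : ℕ} (h0 : (0 : R) ∈ P) (hgen : AddSubgroup.closure (P : Set R) = ⊤)
    (hcard : Fintype.card R < m * #P) (ht : 1 ≤ t) {x : R} (hx : x ∉ ball P t) :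
    ∃ r f : ℕ, r ∣ Fintype.card R ∧ 2 ≤ f ∧ t * (f - 1) + 2 ≤ r ∧ r < m * f := by
  classical
  obtain ⟨M, F, -, hMF, hPF, hxF, hc⟩ := kneser_ms ⟨0, h0⟩ ht
    (fun h => hx (ms_subset_ball P t h)) (K := ⊥) (by
      intro y hy h hh
      rw [AddSubgroup.mem_bot] at hh
      rw [hh, add_zero]
      exact hy)
  obtain ⟨f, hf⟩ := dvd_card_of_per hMF
  have hR : Fintype.card R = Nat.card (R ⧸ M) * #(hs M) := card_eq_index_mul M
  have hpos : 0 < #(hs M) := card_hs_pos M
  set r := Nat.card (R ⧸ M) with hr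
  have hF0 : (0 : R) ∈ F := hPF h0
  have hf1 : 1 ≤ f := by
    rw [Nat.one_le_iff_ne_zero]
    rintro rfl
    rw [mul_zero, card_eq_zero] at hf
    rw [hf] at hF0
    exact absurd hF0 (notMem_empty _)
  obtain ⟨g, rfl⟩ : ∃ g, f = g + 1 := ⟨f - 1, by omega⟩
  obtain ⟨u, rfl⟩ : ∃ u, t = u + 1 := ⟨t - 1, by omega⟩
  have h1 : (u + 1) * (g + 1) + 1 ≤ r + u := by
    have e1 : ((u + 1) * (g + 1) + 1) * #(hs M) ≤ (r + u) * #(hs M) := by
      rw [hf, hR, Nat.add_sub_cancel] at hc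
      calc ((u + 1) * (g + 1) + 1) * #(hs M) = (u + 1) * (#(hs M) * (g + 1)) + #(hs M) := by ring
        _ ≤ r * #(hs M) + u * #(hs M) := hc
        _ = (r + u) * #(hs M) := by ring
    exact Nat.le_of_mul_le_mul_right e1 hpos
  have h2 : (u + 1) * g + 2 ≤ r := by
    have e1 : (u + 1) * (g + 1) = (u + 1) * g + u + 1 := by ring
    omega
  have h3 : r < m * (g + 1) := by
    have e1 : r * #(hs M) < (m * (g + 1)) * #(hs M) := by
      calc r * #(hs M) = Fintype.card R := hR.symm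
        _ < m * #P := hcard
        _ ≤ m * #F := Nat.mul_le_mul_left _ (card_le_card hPF)
        _ = (m * (g + 1)) * #(hs M) := by rw [hf]; ring
    exact Nat.lt_of_mul_lt_mul_right e1
  refine ⟨r, g + 1, ⟨_, hR⟩, ?_, h2, h3⟩
  by_contra hcon
  have hg : g = 0 := by omega
  rw [hg, zero_add, mul_one] at hf
  have h4 : hs M ⊆ F := by
    intro y hy
    have := hMF 0 hF0 y (mem_hs.1 hy)
    rwa [zero_add] at this
  have h5 : hs M = F := eq_of_subset_of_card_le h4 hf.le
  have h6 : AddSubgroup.closure (P : Set R) ≤ M := by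
    rw [AddSubgroup.closure_le]
    intro p hp
    have := hPF (mem_coe.1 hp)
    rw [← h5, mem_hs] at this
    exact this
  rw [hgen, top_le_iff] at h6
  have h7 : r = 1 := by
    rw [hr, h6]
    exact AddSubgroup.index_top
  omega

/-- the excess is at least `t - M` -/
theorem le_exc {M n o t p : ℕ} (hM : 3 ≤ M) (hn : 40000 * M ^ 6 ≤ n) (ho : o ∣ n) (hp : 2 ≤ p)
    (h1 : t * (p - 1) + 2 ≤ o) (h2 : o < M * p) (ht : M ≤ t) : t ≤ M + exc M n o := by
  obtain ⟨s, hs⟩ := ho
  obtain ⟨b, rfl⟩ : ∃ b, p = b + 1 := ⟨p - 1, by omega⟩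
  obtain ⟨d, rfl⟩ : ∃ d, t = M + d := ⟨t - M, by omega⟩
  rw [Nat.add_sub_cancel] at h1
  rcases Nat.eq_zero_or_pos d with rfl | hd
  · omega
  have hb : 1 ≤ b := by omega
  have hMb : M * b ≤ o := by
    have : (M + d) * b = M * b + d * b := by ring
    omega
  have hob : o / M = b := by
    apply Nat.div_eq_of_lt_le
    · rw [mul_comm]
      exact hMb
    · rw [mul_comm]
      exact h2
  have hoM := Nat.div_add_mod o M
  rw [hob] at hoM
  have hopos : 0 < o := by omega
  have hns : n / o = s := by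
    rw [hs, Nat.mul_div_cancel_left _ hopos]
  have ha : o % M < M := Nat.mod_lt _ (by omega)
  have hda : d * b + 2 ≤ o % M := by
    have : (M + d) * b = M * b + d * b := by ring
    omega
  unfold exc
  rw [hob, hns]
  set a := o % M with haa
  have h3 : d ≤ a / b := by
    rw [Nat.le_div_iff_mul_le (by omega)]
    omega
  have hbM : b + 2 ≤ M := by
    have : b ≤ d * b := Nat.le_mul_of_pos_left _ hd
    omega
  have hdM : d ≤ M := by
    have : d ≤ d * b := Nat.le_mul_of_pos_right _ (by omega)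
    omega
  have hoMM : o ≤ M * M := by
    have : M * (b + 1) ≤ M * M := Nat.mul_le_mul_left _ (by omega)
    omega
  have hsM : 40000 * M ^ 4 ≤ s := by
    have e1 : 40000 * M ^ 4 * (M * M) ≤ s * (M * M) := by
      calc 40000 * M ^ 4 * (M * M) = 40000 * M ^ 6 := by ring
        _ ≤ n := hn
        _ = s * o := by rw [hs]; ring
        _ ≤ s * (M * M) := Nat.mul_le_mul_left _ hoMM
    exact Nat.le_of_mul_le_mul_right e1 (by positivity)
  have hM24 : M * M ≤ M ^ 4 := by
    have : M ^ 4 = (M * M) * (M * M) := by ring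
    rw [this]
    exact Nat.le_mul_of_pos_right _ (by positivity)
  have hMM : 9 ≤ M * M := Nat.mul_le_mul hM hM
  have h4 : d ≤ ((if Even (s * b) then 1 else 2) * s - 2) * (M - a) / (2 * (b + 1)) := by
    rw [Nat.le_div_iff_mul_le (by omega)]
    have e1 : s ≤ (if Even (s * b) then 1 else 2) * s := by
      split_ifs
      · omega
      · omega
    have e2 : d * (2 * (b + 1)) ≤ 2 * (M * M) := by
      calc d * (2 * (b + 1)) ≤ M * (2 * M) := Nat.mul_le_mul hdM (by omega)
        _ = 2 * (M * M) := by ring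
    have e3 : 2 * (M * M) ≤ (if Even (s * b) then 1 else 2) * s - 2 := by omega
    calc d * (2 * (b + 1)) ≤ (if Even (s * b) then 1 else 2) * s - 2 := e2.trans e3
      _ ≤ ((if Even (s * b) then 1 else 2) * s - 2) * (M - a) :=
        Nat.le_mul_of_pos_right _ (by omega)
  have h5 := le_min h3 h4
  omega

/-- a good `t > M` is at most `M + excess + 1` -/
theorem good_le {G : Type*} [AddCommGroup G] [Fintype G] [DecidableEq G] {m n t₀ : ℕ} (hm : 3 ≤ m)
    (hexp : AddMonoid.exponent G = n) (hκ : 40000 * m ^ 6 ≤ n) (ht : m + 1 ≤ t₀)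
    (hg : Good G m t₀) : t₀ ≤ m + excess m n + 1 := by
  classical
  have hn0 : n ≠ 0 := by
    have : 0 < m ^ 6 := by positivity
    omega
  obtain ⟨K, P, hP, ⟨y, hy⟩, h1, h2⟩ := hg
  have : Fintype (G ⧸ K) := Fintype.ofFinite _
  have hw := two_le_card_of_spans hP (by omega)
  obtain ⟨p₀, hp₀⟩ : P.Nonempty := card_pos.1 (by omega)
  -- translate
  set P₀ : Finset (G ⧸ K) := P.image (fun p => p - p₀) with hP₀
  have hc₀ : #P₀ = #P := card_image_of_injective _ (sub_left_injective)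
  have h0 : (0 : G ⧸ K) ∈ P₀ := mem_image.2 ⟨p₀, hp₀, sub_self p₀⟩
  have hgen : AddSubgroup.closure (P₀ : Set (G ⧸ K)) = ⊤ := by
    apply hP
    intro a ha b hb
    have e : a - b = (a - p₀) - (b - p₀) := by abel
    rw [e]
    exact AddSubgroup.sub_mem _
      (AddSubgroup.subset_closure (mem_coe.2 (mem_image.2 ⟨a, ha, rfl⟩)))
      (AddSubgroup.subset_closure (mem_coe.2 (mem_image.2 ⟨b, hb, rfl⟩)))
  have hy₀ : y - t₀ • p₀ ∉ ball P₀ t₀ := by
    intro h
    obtain ⟨f, hf, hfs⟩ := RC.FINCM.ball_translate t₀ _ h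
    apply hy f hf
    rw [hfs]
    abel
  have hcardK : Fintype.card (G ⧸ K) = Nat.card (G ⧸ K) := by rw [Nat.card_eq_fintype_card]
  obtain ⟨H, hHc, y₁, hy₁⟩ := RC.cyclic_quotient (Q := G ⧸ K) h0 hgen (by omega)
    (by rw [hc₀, hcardK]; exact h2) ht ⟨_, hy₀⟩
  -- the second quotient
  have : Fintype ((G ⧸ K) ⧸ H) := Fintype.ofFinite _
  set P' : Finset ((G ⧸ K) ⧸ H) := P₀.image (fun x : G ⧸ K => (x : (G ⧸ K) ⧸ H)) with hP'
  have h0' : (0 : (G ⧸ K) ⧸ H) ∈ P' := mem_image.2 ⟨0, h0, rfl⟩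
  have hHpos : 0 < Nat.card H := Nat.card_pos
  have hc1 : #(RC.hull H P₀) = Nat.card H * #P' := by
    rw [RC.CQ3M.hull_eq, RC.CQ3M.card_pre]
  have hc2 : #P₀ ≤ #(RC.hull H P₀) := card_le_card (RC.CQ3M.subset_hull P₀)
  have hcQ : Fintype.card (G ⧸ K) = Nat.card H * Fintype.card ((G ⧸ K) ⧸ H) := by
    rw [← Nat.card_eq_fintype_card, ← Nat.card_eq_fintype_card, mul_comm]
    exact AddSubgroup.card_eq_card_quotient_mul_card_addSubgroup H
  have hsub : ∀ N : AddSubgroup ((G ⧸ K) ⧸ H), (∀ p ∈ P', p ∈ N) → N = ⊤ := by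
    intro N hN
    have e1 : AddSubgroup.closure (P₀ : Set (G ⧸ K)) ≤ N.comap (QuotientAddGroup.mk' H) := by
      rw [AddSubgroup.closure_le]
      intro p hp
      exact hN _ (mem_image.2 ⟨p, mem_coe.1 hp, rfl⟩)
    rw [hgen] at e1
    rw [eq_top_iff]
    intro x _
    obtain ⟨x, rfl⟩ := QuotientAddGroup.mk_surjective x
    exact e1 (AddSubgroup.mem_top x)
  have hgen' : AddSubgroup.closure (P' : Set ((G ⧸ K) ⧸ H)) = ⊤ :=
    hsub _ fun p hp => AddSubgroup.subset_closure (mem_coe.2 hp)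
  have hy' : (y₁ : (G ⧸ K) ⧸ H) ∉ ball P' (t₀ - 1) := by
    intro h
    obtain ⟨r, hr, hr'⟩ := RC.CQ3M.ball_image P₀ (t₀ - 1) _ h
    exact hy₁ r hr (QuotientAddGroup.eq_iff_sub_mem.1 hr'.symm)
  have hcard : Fintype.card ((G ⧸ K) ⧸ H) < m * #P' := by
    have e1 : Nat.card H * Fintype.card ((G ⧸ K) ⧸ H) < Nat.card H * (m * #P') := by
      calc Nat.card H * Fintype.card ((G ⧸ K) ⧸ H) = Fintype.card (G ⧸ K) := hcQ.symm
        _ < m * #P₀ := by rw [hc₀, hcardK]; exact h2
        _ ≤ m * #(RC.hull H P₀) := Nat.mul_le_mul_left _ hc2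
        _ = Nat.card H * (m * #P') := by rw [hc1]; ring
    exact Nat.lt_of_mul_lt_mul_left e1
  obtain ⟨r, f, hr, hf, hrf, hrm⟩ := of_missing h0' hgen' hcard (t := t₀ - 1) (by omega) hy'
  -- the order of the cyclic quotient divides the exponent
  have hdvd : Fintype.card ((G ⧸ K) ⧸ H) ∣ n := by
    obtain ⟨g, hg⟩ := hHc.exists_generator
    have e1 : addOrderOf g = Fintype.card ((G ⧸ K) ⧸ H) := by
      rw [← Nat.card_eq_fintype_card]
      exact addOrderOf_eq_card_of_forall_mem_zmultiples hg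
    rw [← e1]
    apply addOrderOf_dvd_of_nsmul_eq_zero
    obtain ⟨g', rfl⟩ := QuotientAddGroup.mk_surjective g
    obtain ⟨g'', rfl⟩ := QuotientAddGroup.mk_surjective g'
    rw [← QuotientAddGroup.mk_nsmul, ← QuotientAddGroup.mk_nsmul, ← hexp,
      AddMonoid.exponent_nsmul_eq_zero]
    rfl
  have h5 := le_exc hm hκ (hr.trans hdvd) hf hrf hrm (by omega)
  have h6 := exc_le_excess (M := m) hn0 (hr.trans hdvd)
  omega

end HUGEFM

/-- the explicit upper bound for huge exponents, with the constant one -/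
theorem upper_huge_F1 {G : Type*} [AddCommGroup G] [Fintype G] [DecidableEq G] {M n : ℕ}
    (hexp : AddMonoid.exponent G = n) (hcard : Nat.card G = M * n) (hM : 3 ≤ M)
    (hn : 40000 * M ^ 6 ≤ n) {A : Finset G} (hno : ¬ Hit A n 0) :
    #A ≤ n + M + excess M n + 1 := by
  by_contra hcon
  have hn0 : 0 < n := by
    have : 0 < M ^ 6 := by positivity
    omega
  obtain ⟨hcrit, -⟩ := main_theorem2 M hM G n hexp.symm hn hcard
  have hW : WZF n A := fun T hT hTc hTs => hno ⟨T, hT, hTc, hTs⟩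
  have hle : #A ≤ tauHat G n := (le_tauHat_iff hn0 _).2 ⟨A, rfl, hW⟩
  have hg := (hcrit (#A - n) (by omega)).1 (by omega)
  have h1 := HUGEFM.good_le hM hexp hn (by omega) hg
  omega

theorem upper_huge_F {G : Type*} [AddCommGroup G] [Fintype G] [DecidableEq G] {M n : ℕ}
    (hexp : AddMonoid.exponent G = n) (hcard : Nat.card G = M * n) (hM : 3 ≤ M)
    (hn : 40000 * M ^ 6 ≤ n) {A : Finset G} (hno : ¬ Hit A n 0) :
    #A ≤ n + M + excess M n + 10 := by
  have h1 := upper_huge_F1 hexp hcard hM hn hno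
  omega

end Pool.Agent.Lib.MPa7239a.RF
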