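import Pool.Agent.Lib.MP_a7239a_co.Final

/-!
# The isoperimetric theorem of Hamidoune for pairs with a small sumset
-/

open scoped Pointwise
open Finset

set_option linter.unusedSectionVars false

namespace Pool.Agent.Lib.MPa7239a.RF

open Pool.Agent.Lib.MPa7239a

universe u

section
variable {G : Type u} [AddCommGroup G] [Fintype G] [DecidableEq G]

/-- `A` is an atom of `S`: it has at least two elements, `A + S` misses at least two elements,
`|A + S| - |A|` is minimal and then `|A|` is minimal -/
structure Atom (S A : Finset G) : Prop where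
  two : 2 ≤ #A
  miss : #(A + S) + 2 ≤ Fintype.card G
  min : ∀ X : Finset G, 2 ≤ #X → #(X + S) + 2 ≤ Fintype.card G →
    #(A + S) + #X < #(X + S) + #A ∨ (#(A + S) + #X = #(X + S) + #A ∧ #A ≤ #X)

theorem exists_atom {S X : Finset G} (hX : 2 ≤ #X) (hXS : #(X + S) + 2 ≤ Fintype.card G) :
    ∃ A, Atom S A := by
  obtain ⟨A, hA, hmin⟩ := exists_min_image
    (univ.filter fun Y : Finset G => 2 ≤ #Y ∧ #(Y + S) + 2 ≤ Fintype.card G)
    (fun Y => (#(Y + S) + (Fintype.card G - #Y)) * (Fintype.card G + 1) + #Y)
    ⟨X, mem_filter.2 ⟨mem_univ _, hX, hXS⟩⟩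
  obtain ⟨-, hA1, hA2⟩ := mem_filter.1 hA
  refine ⟨A, hA1, hA2, fun Y hY1 hY2 => ?_⟩
  have h1 := hmin Y (mem_filter.2 ⟨mem_univ _, hY1, hY2⟩)
  have h2 : #A ≤ Fintype.card G := card_le_univ _
  have h3 : #Y ≤ Fintype.card G := card_le_univ _
  set N := Fintype.card G with hN
  rcases Nat.lt_trichotomy (#(A + S) + (N - #A)) (#(Y + S) + (N - #Y)) with h | h | h
  · left
    omega
  · right
    rw [h] at h1
    have h4 : #A ≤ #Y := Nat.le_of_add_le_add_left h1
    omega
  · exfalso
    have h4 : (#(Y + S) + (N - #Y) + 1) * (N + 1) ≤ (#(A + S) + (N - #A)) * (N + 1) :=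
      Nat.mul_le_mul_right _ h
    have h5 : (#(Y + S) + (N - #Y) + 1) * (N + 1) = (#(Y + S) + (N - #Y)) * (N + 1) + (N + 1) := by
      ring
    omega

theorem Atom.dual {S A : Finset G} (h : Atom S A) : #A + #(A + S) ≤ Fintype.card G := by
  set X : Finset G := -(A + S)ᶜ with hX
  have h1 : #X + #(A + S) = Fintype.card G := by
    rw [hX, card_neg, card_compl]
    have : #(A + S) ≤ Fintype.card G := card_le_univ _
    omega
  have h2 : X + S ⊆ (-A)ᶜ := by
    intro x hx
    rw [mem_add] at hx
    obtain ⟨c, hc, s, hs, rfl⟩ := hx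
    rw [mem_compl]
    intro hcon
    rw [Finset.mem_neg'] at hcon
    rw [hX, Finset.mem_neg', mem_compl] at hc
    apply hc
    have : -c = -(c + s) + s := by abel
    rw [this]
    exact add_mem_add hcon hs
  have h3 : #(X + S) + #A ≤ Fintype.card G := by
    have h4 := card_le_card h2
    rw [card_compl, card_neg] at h4
    have : #A ≤ Fintype.card G := card_le_univ _
    omega
  have h4 := h.miss
  have h5 := h.two
  rcases h.min X (by omega) (by omega) with h6 | h6
  · omega
  · omega

theorem Atom.translate {S A : Finset G} (h : Atom S A) (g : G) : Atom S (A + {g}) := by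
  have h1 : A + {g} + S = A + S + {g} := add_right_comm _ _ _
  refine ⟨?_, ?_, ?_⟩
  · rw [card_add_singleton]
    exact h.two
  · rw [h1, card_add_singleton]
    exact h.miss
  · intro X hX hXS
    rw [h1, card_add_singleton, card_add_singleton]
    exact h.min X hX hXS

theorem submodular (A B S : Finset G) :
    #((A ∩ B) + S) + #((A ∪ B) + S) ≤ #(A + S) + #(B + S) := by
  have h1 : (A ∩ B) + S ⊆ (A + S) ∩ (B + S) :=
    subset_inter (add_subset_add_right inter_subset_left)
      (add_subset_add_right inter_subset_right)
  have h2 := card_le_card h1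
  have h3 := card_union_add_card_inter (A + S) (B + S)
  rw [union_add]
  omega

theorem Atom.eq_of_inter {S A B : Finset G} (hA : Atom S A) (hB : Atom S B)
    (hAB : 2 ≤ #(A ∩ B)) : A = B := by
  by_contra hne
  have h1 := hA.min B hB.two hB.miss
  have h2 := hB.min A hA.two hA.miss
  have h3 : #(A ∩ B) < #A := by
    apply card_lt_card
    refine ⟨inter_subset_left, fun h => hne ?_⟩
    have h4 : A ⊆ B := h.trans inter_subset_right
    exact eq_of_subset_of_card_le h4 (by omega)
  have h4 : #((A ∩ B) + S) ≤ #(A + S) := card_le_card (add_subset_add_right inter_subset_left)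
  have h5 := hA.miss
  have h6 := hA.min (A ∩ B) hAB (by omega)
  have h7 := submodular A B S
  have h8 := card_union_add_card_inter A B
  have h9 := hA.dual
  have h10 : #A ≤ #(A ∪ B) := card_le_card subset_union_left
  have h11 := hA.two
  have h12 := hA.min (A ∪ B) (by omega) (by omega)
  omega

/-- a periodic atom is a subgroup -/
theorem Atom.subgroup {S A : Finset G} (hA : Atom S A) (h0 : (0 : G) ∈ A) {g : G} (hg0 : g ≠ 0)
    (hg : g ∈ st A) : ∃ H : AddSubgroup G, A = hs H := by
  have key : ∀ a ∈ A, ∀ x ∈ A, x - a ∈ A := by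
    intro a ha x hx
    have h1 : A = A + {-a} := by
      apply hA.eq_of_inter (hA.translate _)
      have h2 : ({0, g} : Finset G) ⊆ A ∩ (A + {-a}) := by
        intro z hz
        rw [mem_insert, mem_singleton] at hz
        rw [mem_inter, mem_add]
        rcases hz with rfl | rfl
        · exact ⟨h0, a, ha, -a, mem_singleton_self _, by abel⟩
        · refine ⟨?_, a + z, (hg a).2 ha, -a, mem_singleton_self _, by abel⟩
          have := (hg 0).2 h0
          rwa [zero_add] at this
      have h3 := card_le_card h2
      rwa [card_pair hg0.symm] at h3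
    rw [h1, sub_eq_add_neg]
    exact add_mem_add hx (mem_singleton_self _)
  refine ⟨{ carrier := {x | x ∈ A}, zero_mem' := h0, add_mem' := ?_, neg_mem' := ?_ }, ?_⟩
  · intro x y hx hy
    have h1 := key y hy 0 h0
    have h2 := key _ h1 x hx
    show x + y ∈ A
    have : x + y = x - (0 - y) := by abel
    rwa [this]
  · intro x hx
    have := key x hx 0 h0
    show -x ∈ A
    rwa [zero_sub] at this
  · ext x
    rw [mem_hs]
    rfl

/-- the translates of an aperiodic atom are almost disjoint -/
theorem Atom.inter_le {S A : Finset G} (hA : Atom S A) (hst : st A = ⊥) {g g' : G}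
    (hg : g ≠ g') : #((A + {g}) ∩ (A + {g'})) ≤ 1 := by
  by_contra hcon
  have h1 := (hA.translate g).eq_of_inter (hA.translate g') (by omega)
  have h2 : g - g' ∈ st A := by
    apply mem_st_of_forall
    intro x hx
    have h3 : x + g ∈ A + {g'} := by
      rw [← h1]
      exact add_mem_add hx (mem_singleton_self _)
    rw [mem_add] at h3
    obtain ⟨y, hy, z, hz, hyz⟩ := h3
    rw [mem_singleton] at hz
    have : x + (g - g') = y := by
      rw [hz] at hyz
      rw [← add_sub_assoc, ← hyz]
      abel
    rwa [this]
  rw [hst, AddSubgroup.mem_bot] at h2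
  exact hg (sub_eq_zero.1 h2)

theorem two_translates {A B : Finset G} (h : ∀ g g' : G, g ≠ g' → #((A + {g}) ∩ (A + {g'})) ≤ 1)
    (hB : 2 ≤ #B) : 2 * #A ≤ #(A + B) + 1 := by
  obtain ⟨g, hg, g', hg', hne⟩ := one_lt_card.1 (show 1 < #B by omega)
  have h1 : (A + {g}) ∪ (A + {g'}) ⊆ A + B :=
    union_subset (add_subset_add_left (singleton_subset_iff.2 hg))
      (add_subset_add_left (singleton_subset_iff.2 hg'))
  have h2 := card_le_card h1
  have h3 := card_union_add_card_inter (A + {g}) (A + {g'})
  have h4 := h g g' hne
  rw [card_add_singleton, card_add_singleton] at h3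
  omega

theorem three_translates {A B : Finset G}
    (h : ∀ g g' : G, g ≠ g' → #((A + {g}) ∩ (A + {g'})) ≤ 1) (hB : 3 ≤ #B) :
    3 * #A ≤ #(A + B) + 3 := by
  obtain ⟨a, ha, b, hb, c, hc, hab, hac, hbc⟩ := two_lt_card.1 (show 2 < #B by omega)
  have h1 : (A + {a}) ∪ (A + {b}) ∪ (A + {c}) ⊆ A + B :=
    union_subset (union_subset (add_subset_add_left (singleton_subset_iff.2 ha))
      (add_subset_add_left (singleton_subset_iff.2 hb)))
      (add_subset_add_left (singleton_subset_iff.2 hc))
  have h2 := card_le_card h1
  have h3 := card_union_add_card_inter (A + {a}) (A + {b})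
  have h4 := card_union_add_card_inter ((A + {a}) ∪ (A + {b})) (A + {c})
  have h5 := h a b hab
  have h6 := h a c hac
  have h7 := h b c hbc
  have h8 : #(((A + {a}) ∪ (A + {b})) ∩ (A + {c})) ≤
      #((A + {a}) ∩ (A + {c})) + #((A + {b}) ∩ (A + {c})) := by
    rw [union_inter_distrib_right]
    exact card_union_le _ _
  rw [card_add_singleton, card_add_singleton] at h3
  rw [card_add_singleton] at h4
  omega

theorem exists_ne_zero {H : AddSubgroup G} (h : H ≠ ⊥) : ∃ g ∈ H, g ≠ 0 := by
  obtain ⟨x, hx⟩ := AddSubgroup.ne_bot_iff_exists_ne_zero.1 h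
  exact ⟨x, x.2, fun h => hx (Subtype.ext h)⟩

/-- an aperiodic set with at least three elements whose translates are almost disjoint -/
theorem big_of_disjoint {A Y : Finset G} (hA : Spans A) (h3 : 3 ≤ #A)
    (h : ∀ g g' : G, g ≠ g' → #((A + {g}) ∩ (A + {g'})) ≤ 1) (hY : 2 ≤ #Y)
    (hYA : #(Y + A) + 2 ≤ Fintype.card G) : #Y + #A ≤ #(Y + A) := by
  by_contra hcon
  obtain ⟨B, hB⟩ := exists_atom hY hYA
  obtain ⟨b, hb⟩ : B.Nonempty := card_pos.1 (by have := hB.two; omega)
  have hC := hB.translate (-b)
  set C := B + {-b} with hCdef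
  have h0 : (0 : G) ∈ C := mem_add.2 ⟨b, hb, -b, mem_singleton_self _, by abel⟩
  have h1 : #(C + A) + #Y ≤ #(Y + A) + #C := by
    rcases hC.min Y hY hYA with h | h
    · omega
    · omega
  have h2 := hC.two
  have hcomm : #(A + C) = #(C + A) := by rw [add_comm]
  have h4 := two_translates h h2
  have h5 : 3 ≤ #C := by omega
  have h6 := three_translates h h5
  have h7 : #A + 1 ≤ #C := by omega
  by_cases hst : st C = ⊥
  · have h8 := three_translates (A := C) (B := A) (fun g g' hg => hC.inter_le hst hg) h3
    omega
  · obtain ⟨g, hg, hg0⟩ := exists_ne_zero hst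
    obtain ⟨H, hH⟩ := hC.subgroup h0 hg0 hg
    have hper : Per H (cl H A) := per_cl H A
    obtain ⟨v, hv⟩ := dvd_card_of_per hper
    have hcl : #(cl H A) = #(C + A) := by
      unfold cl
      rw [hH, add_comm]
    have hvle : v ≤ 1 := by
      by_contra hv2
      have : #(hs H) * 2 ≤ #(hs H) * v := Nat.mul_le_mul_left _ (by omega)
      rw [← hH] at this hv
      omega
    have hle : #(cl H A) ≤ #(hs H) := by
      rw [hv]
      calc #(hs H) * v ≤ #(hs H) * 1 := Nat.mul_le_mul_left _ hvle
        _ = #(hs H) := mul_one _
    have htop : H = ⊤ := by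
      apply hA
      intro a ha a' ha'
      have h8 : cs H a' ⊆ cl H A := by
        intro x hx
        rw [mem_cs] at hx
        rw [mem_cl]
        exact ⟨a', ha', hx⟩
      have h9 := eq_of_subset_of_card_le h8 (by rw [card_cs]; exact hle)
      have h10 : a ∈ cs H a' := by
        rw [h9]
        exact subset_cl H A ha
      rwa [mem_cs] at h10
    have h8 : C = univ := by
      rw [hH, htop]
      ext x
      simp
    have h9 := hC.miss
    have h10 : #C ≤ #(C + A) := by
      obtain ⟨a, ha⟩ : A.Nonempty := card_pos.1 (by omega)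
      rw [← card_add_singleton C a]
      exact card_le_card (add_subset_add_left (singleton_subset_iff.2 ha))
    have h11 : #C = Fintype.card G := by rw [h8, card_univ]
    omega

/-! ### Sets in one coset of a subgroup -/

open Classical in
/-- the elements `x` of `K` with `c + x` in `Y` -/
noncomputable def pull (K : AddSubgroup G) (c : G) (Y : Finset G) : Finset K :=
  univ.filter fun x : K => c + (x : G) ∈ Y

theorem mem_pull {K : AddSubgroup G} {c : G} {Y : Finset G} {x : K} :
    x ∈ pull K c Y ↔ c + (x : G) ∈ Y := by
  unfold pull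
  simp

theorem card_pull {K : AddSubgroup G} {c : G} {Y : Finset G} (hY : Y ⊆ cs K c) :
    #(pull K c Y) = #Y := by
  refine card_bij (fun x _ => c + (x : G)) (fun x hx => mem_pull.1 hx) (fun x _ y _ h => ?_) ?_
  · exact Subtype.ext (add_left_cancel h)
  · intro y hy
    have h1 := mem_cs.1 (hY hy)
    refine ⟨⟨y - c, h1⟩, mem_pull.2 ?_, ?_⟩
    · show c + (y - c) ∈ Y
      rw [add_sub_cancel]
      exact hy
    · show c + (y - c) = y
      rw [add_sub_cancel]

theorem pull_add {K : AddSubgroup G} {c : G} {Y A : Finset G} [DecidableEq K] (hY : Y ⊆ cs K c)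
    (hA : A ⊆ hs K) : pull K c (Y + A) = pull K c Y + pull K 0 A := by
  ext x
  rw [mem_pull, mem_add, mem_add]
  constructor
  · rintro ⟨y, hy, a, ha, h⟩
    have h1 := mem_cs.1 (hY hy)
    have h2 := mem_hs.1 (hA ha)
    refine ⟨⟨y - c, h1⟩, mem_pull.2 ?_, ⟨a, h2⟩, mem_pull.2 ?_, Subtype.ext ?_⟩
    · show c + (y - c) ∈ Y
      rw [add_sub_cancel]
      exact hy
    · show 0 + a ∈ A
      rw [zero_add]
      exact ha
    · show y - c + a = (x : G)
      have : (x : G) = y + a - c := by rw [h]; abel
      rw [this]
      abel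
  · rintro ⟨y, hy, a, ha, rfl⟩
    rw [mem_pull] at hy ha
    rw [zero_add] at ha
    refine ⟨_, hy, _, ha, ?_⟩
    show c + (y : G) + (a : G) = c + ((y : G) + (a : G))
    abel

theorem card_subgroup (K : AddSubgroup G) [Fintype K] : Fintype.card K = #(hs K) := by
  rw [← natCard_hs, Nat.card_eq_fintype_card]

/-- `big_of_disjoint` in a coset -/
theorem big_of_disjoint' {A Y : Finset G} {K : AddSubgroup G} (hK : AddSubgroup.closure (A : Set G) = K)
    (h0 : (0 : G) ∈ A) (h3 : 3 ≤ #A)
    (h : ∀ g g' : G, g ≠ g' → #((A + {g}) ∩ (A + {g'})) ≤ 1) {c : G} (hYc : Y ⊆ cs K c)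
    (hY : 2 ≤ #Y) (hYA : #(Y + A) + 2 ≤ #(hs K)) : #Y + #A ≤ #(Y + A) := by
  classical
  have hAK : A ⊆ hs K := fun a ha => mem_hs.2 (hK ▸ AddSubgroup.subset_closure (mem_coe.2 ha))
  have hYA' : Y + A ⊆ cs K c := by
    intro x hx
    obtain ⟨y, hy, a, ha, rfl⟩ := mem_add.1 hx
    rw [mem_cs, add_sub_right_comm]
    exact K.add_mem (mem_cs.1 (hYc hy)) (mem_hs.1 (hAK ha))
  have hA0 : A ⊆ cs K 0 := fun a ha => mem_cs.2 (by rw [sub_zero]; exact mem_hs.1 (hAK ha))
  have e1 := card_pull hYc
  have e2 := card_pull hA0
  have e3 := card_pull hYA'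
  rw [pull_add hYc hAK] at e3
  have hspan : Spans (pull K 0 A) := by
    intro N hN
    have hmem : ∀ a ∈ A, ∀ ha : a ∈ K, (⟨a, ha⟩ : K) ∈ N := by
      intro a ha haK
      have h1 := hN ⟨a, haK⟩ (mem_pull.2 (by rw [zero_add]; exact ha)) 0
        (mem_pull.2 (by rw [zero_add]; exact h0))
      rwa [sub_zero] at h1
    rw [AddSubgroup.eq_top_iff']
    rintro ⟨x, hx⟩
    have h1 : x ∈ AddSubgroup.closure (A : Set G) := by rw [hK]; exact hx
    have h2 : AddSubgroup.closure (A : Set G) ≤ N.map K.subtype := by
      rw [AddSubgroup.closure_le]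
      intro a ha
      have haK := mem_hs.1 (hAK (mem_coe.1 ha))
      exact ⟨⟨a, haK⟩, hmem a (mem_coe.1 ha) haK, rfl⟩
    obtain ⟨z, hz, hzx⟩ := h2 h1
    have : z = ⟨x, hx⟩ := Subtype.ext hzx
    rwa [← this]
  have hdis : ∀ g g' : K, g ≠ g' → #((pull K 0 A + {g}) ∩ (pull K 0 A + {g'})) ≤ 1 := by
    intro g g' hg
    refine (le_trans ?_ (h g g' fun hh => hg (Subtype.ext hh)))
    apply card_le_card_of_injOn (fun x : K => (x : G))
    · intro x hx
      have hx' := mem_coe.1 hx
      rw [mem_inter, mem_add, mem_add] at hx'
      obtain ⟨⟨a, ha, z, hz, h1⟩, ⟨a', ha', z', hz', h2⟩⟩ := hx'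
      rw [mem_singleton] at hz hz'
      rw [mem_pull, zero_add] at ha ha'
      refine mem_coe.2 (mem_inter.2 ⟨mem_add.2 ⟨a, ha, g, mem_singleton_self _, ?_⟩,
        mem_add.2 ⟨a', ha', g', mem_singleton_self _, ?_⟩⟩)
      · rw [← h1, hz]
        rfl
      · rw [← h2, hz']
        rfl
    · intro x _ y _ hxy
      exact Subtype.ext hxy
  have h4 := big_of_disjoint hspan (by omega) hdis (Y := pull K c Y) (by omega)
    (by rw [card_subgroup]; omega)
  omega

/-- **Hamidoune's theorem** -/
theorem iso {S X : Finset G} (hS : Spans S) (hX : 2 ≤ #X) (hXS : #(X + S) + 2 ≤ Fintype.card G)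
    (hle : #(X + S) + 1 ≤ #X + #S) :
    IsAddCyclic G ∨ ∃ H : AddSubgroup G, H ≠ ⊥ ∧ H ≠ ⊤ ∧ #(cl H S) + 1 ≤ #S + #(hs H) := by
  classical
  have hX1 : #X ≤ Fintype.card G := card_le_univ _
  have hS2 : 2 ≤ #S := two_le_card_of_spans hS (by rw [Nat.card_eq_fintype_card]; omega)
  obtain ⟨B, hB⟩ := exists_atom hX hXS
  obtain ⟨b, hb⟩ : B.Nonempty := card_pos.1 (by have := hB.two; omega)
  have hA := hB.translate (-b)
  set A := B + {-b} with hAdef
  have h0 : (0 : G) ∈ A := mem_add.2 ⟨b, hb, -b, mem_singleton_self _, by abel⟩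
  have h1 : #(A + S) + 1 ≤ #A + #S := by
    rcases hA.min X hX hXS with h | h
    · omega
    · omega
  have h2 := hA.two
  have hmiss := hA.miss
  by_cases hst : st A = ⊥
  swap
  · -- a subgroup
    obtain ⟨g, hg, hg0⟩ := exists_ne_zero hst
    obtain ⟨H, hH⟩ := hA.subgroup h0 hg0 hg
    refine Or.inr ⟨H, ?_, ?_, ?_⟩
    · rintro rfl
      have : hs (⊥ : AddSubgroup G) = {0} := by
        ext x
        simp
      rw [hH, this, card_singleton] at h2
      omega
    · rintro rfl
      have h3 : A = univ := by
        rw [hH]
        ext x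
        simp
      obtain ⟨s, hs⟩ : S.Nonempty := card_pos.1 (by omega)
      have h4 : #A ≤ #(A + S) := by
        rw [← card_add_singleton A s]
        exact card_le_card (add_subset_add_left (singleton_subset_iff.2 hs))
      have h5 : #A = Fintype.card G := by rw [h3, card_univ]
      omega
    · unfold cl
      rw [add_comm S, ← hH]
      omega
  rcases Nat.lt_or_ge (#A) 3 with h3 | h3
  · -- two elements
    obtain ⟨x, y, hxy, hAxy⟩ := card_eq_two.1 (show #A = 2 by omega)
    obtain ⟨d, hd0, hAd⟩ : ∃ d : G, d ≠ 0 ∧ A = {0, d} := by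
      rw [hAxy, mem_insert, mem_singleton] at h0
      rcases h0 with rfl | rfl
      · exact ⟨y, hxy.symm, hAxy⟩
      · exact ⟨x, hxy, by rw [hAxy, pair_comm]⟩
    set H := AddSubgroup.zmultiples d with hHd
    by_cases htop : H = ⊤
    · left
      refine ⟨d, fun x => ?_⟩
      have : x ∈ H := by
        rw [htop]
        trivial
      exact this
    refine Or.inr ⟨H, ?_, htop, ?_⟩
    · intro hbot
      apply hd0
      have : d ∈ H := AddSubgroup.mem_zmultiples d
      rwa [hbot, AddSubgroup.mem_bot] at this
    have hsub : S ∪ (S + {d}) ⊆ A + S := by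
      intro z hz
      rw [hAd]
      rw [mem_union] at hz
      rcases hz with hz | hz
      · have : z = 0 + z := (zero_add z).symm
        rw [this]
        exact add_mem_add (mem_insert_self _ _) hz
      · obtain ⟨s, hs, w, hw, rfl⟩ := mem_add.1 hz
        rw [mem_singleton] at hw
        rw [hw, add_comm s d]
        exact add_mem_add (mem_insert_of_mem (mem_singleton_self _)) hs
    have hcard := card_le_card hsub
    have hE : #((S + {d}) \ S) ≤ 1 := by
      have h4 : #(S ∪ (S + {d})) = #S + #((S + {d}) \ S) := by
        rw [← union_sdiff_self_eq_union, card_union_of_disjoint disjoint_sdiff]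
      omega
    have hnat : ∀ z ∈ H, ∃ k : ℕ, k • d = z := fun z hz =>
      AddSubmonoid.mem_multiples_iff _ _ |>.1 (mem_multiples_iff_mem_zmultiples.2 hz)
    by_cases hex : ∃ e ∈ S, e + d ∉ S
    · obtain ⟨e, he, hed⟩ := hex
      have huniq : ∀ s ∈ S, s + d ∉ S → s = e := by
        intro s hs hsd
        have h5 := card_le_one.1 hE (s + d)
          (mem_sdiff.2 ⟨add_mem_add hs (mem_singleton_self _), hsd⟩) (e + d)
          (mem_sdiff.2 ⟨add_mem_add he (mem_singleton_self _), hed⟩)
        exact add_right_cancel h5
      have hcl : cl H S ⊆ (S \ cs H e) ∪ cs H e := by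
        intro z hz
        obtain ⟨s, hs, hzs⟩ := mem_cl.1 hz
        by_cases hse : s - e ∈ H
        · refine mem_union_right _ (mem_cs.2 ?_)
          have : z - e = (z - s) + (s - e) := by abel
          rw [this]
          exact H.add_mem hzs hse
        · refine mem_union_left _ (mem_sdiff.2 ⟨?_, ?_⟩)
          · obtain ⟨k, hk⟩ := hnat _ hzs
            have h6 : ∀ k : ℕ, s + k • d ∈ S := by
              intro k
              induction k with
              | zero => rwa [zero_smul, add_zero]
              | succ k ih =>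
                by_contra hcon
                have h7 : s + k • d + d ∉ S := by
                  rwa [succ_nsmul, ← add_assoc] at hcon
                have h8 := huniq _ ih h7
                apply hse
                have : s - e = -(k • d) := by
                  rw [← h8]
                  abel
                rw [this]
                exact H.neg_mem (H.nsmul_mem (AddSubgroup.mem_zmultiples d) k)
            have h7 := h6 k
            rw [hk] at h7
            rwa [add_sub_cancel] at h7
          · intro h9
            apply hse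
            have : s - e = (z - e) - (z - s) := by abel
            rw [this]
            exact H.sub_mem (mem_cs.1 h9) hzs
      have h4 := card_le_card hcl
      have h5 := card_union_le (S \ cs H e) (cs H e)
      have h6 : #(S \ cs H e) + 1 ≤ #S := by
        have h7 : S \ cs H e ⊆ S.erase e := by
          intro z hz
          rw [mem_sdiff] at hz
          refine mem_erase.2 ⟨?_, hz.1⟩
          rintro rfl
          exact hz.2 (mem_cs.2 (by rw [sub_self]; exact H.zero_mem))
        have h8 := card_le_card h7
        rw [card_erase_of_mem he] at h8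
        omega
      have h7 := card_cs H e
      omega
    · push Not at hex
      have h4 : Per H S := by
        intro s hs z hz
        obtain ⟨k, rfl⟩ := hnat z hz
        induction k with
        | zero => rwa [zero_smul, add_zero]
        | succ k ih =>
          rw [succ_nsmul, ← add_assoc]
          exact hex _ (ih (H.nsmul_mem (AddSubgroup.mem_zmultiples d) k))
      rw [cl_eq_of_per h4]
      have := card_hs_pos H
      omega
  · -- at least three elements
    have hdis : ∀ g g' : G, g ≠ g' → #((A + {g}) ∩ (A + {g'})) ≤ 1 :=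
      fun g g' hg => hA.inter_le hst hg
    set K := AddSubgroup.closure (A : Set G) with hKdef
    have hAK : A ⊆ hs K := fun a ha => mem_hs.2 (AddSubgroup.subset_closure (mem_coe.2 ha))
    have hAcard := card_le_card hAK
    have hcomm : #(A + S) = #(S + A) := by rw [add_comm]
    -- in one coset
    have hone : ∀ (c : G) (Y : Finset G), Y.Nonempty → Y ⊆ cs K c → #(Y + A) < #(hs K) →
        #Y + #A ≤ #(Y + A) + 1 := by
      intro c Y hYn hYc hlt
      have hY1 := card_pos.2 hYn
      rcases Nat.lt_or_ge (#Y) 2 with h4 | h4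
      · obtain ⟨y, hy⟩ := card_eq_one.1 (show #Y = 1 by omega)
        rw [hy, card_singleton, singleton_add, card_vadd_finset]
        omega
      rcases Nat.lt_or_ge (#(Y + A) + 1) (#(hs K)) with h5 | h5
      · have := big_of_disjoint' (K := K) rfl h0 h3 hdis hYc h4 (by omega)
        omega
      · -- one element is missing
        have hYA' : Y + A ⊆ cs K c := by
          intro x hx
          obtain ⟨y, hy, a, ha, rfl⟩ := mem_add.1 hx
          rw [mem_cs, add_sub_right_comm]
          exact K.add_mem (mem_cs.1 (hYc hy)) (mem_hs.1 (hAK ha))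
        obtain ⟨x, hx, hxn⟩ : ∃ x ∈ cs K c, x ∉ Y + A := by
          by_contra hcon
          push Not at hcon
          have h6 : #(cs K c) ≤ #(Y + A) := card_le_card hcon
          rw [card_cs] at h6
          omega
        have h6 : Y ∪ A.image (fun a => x - a) ⊆ cs K c := by
          intro z hz
          rw [mem_union, mem_image] at hz
          rcases hz with hz | ⟨a, ha, rfl⟩
          · exact hYc hz
          · rw [mem_cs]
            have : x - a - c = (x - c) - a := by abel
            rw [this]
            exact K.sub_mem (mem_cs.1 hx) (mem_hs.1 (hAK ha))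
        have h7 : Disjoint Y (A.image fun a => x - a) := by
          rw [disjoint_left]
          intro z hz hz'
          obtain ⟨a, ha, rfl⟩ := mem_image.1 hz'
          apply hxn
          have : x = (x - a) + a := by abel
          rw [this]
          exact add_mem_add hz ha
        have h8 := card_le_card h6
        rw [card_union_of_disjoint h7, card_image_of_injective _ (sub_right_injective), card_cs] at h8
        omega
    refine Or.inr ⟨K, ?_, ?_, ?_⟩
    · intro hbot
      have h4 : A ⊆ {0} := by
        intro a ha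
        have := mem_hs.1 (hAK ha)
        rw [hbot, AddSubgroup.mem_bot] at this
        rw [mem_singleton, this]
      have := card_le_card h4
      rw [card_singleton] at this
      omega
    · intro htop
      have h4 : #(hs K) = Fintype.card G := by
        rw [htop, ← card_univ]
        congr 1
        ext x
        simp
      have h5 := big_of_disjoint' (K := K) rfl h0 h3 hdis (Y := S) (c := 0) (fun x _ => by
        rw [mem_cs, htop]
        trivial) hS2 (by omega)
      omega
    · by_cases hfull : ∀ c ∈ S, #(hs K) ≤ #(S.filter (fun s => s - c ∈ K) + A)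
      · -- all cosets are filled
        have h4 : cl K S ⊆ S + A := by
          intro z hz
          obtain ⟨c, hc, hzc⟩ := mem_cl.1 hz
          have h5 : S.filter (fun s => s - c ∈ K) + A ⊆ cs K c := by
            intro x hx
            obtain ⟨y, hy, a, ha, rfl⟩ := mem_add.1 hx
            rw [mem_cs, add_sub_right_comm]
            exact K.add_mem (mem_filter.1 hy).2 (mem_hs.1 (hAK ha))
          have h6 := eq_of_subset_of_card_le h5 (by rw [card_cs]; exact hfull c hc)
          have h7 : z ∈ S.filter (fun s => s - c ∈ K) + A := by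
            rw [h6]
            exact mem_cs.2 hzc
          exact add_subset_add_right (filter_subset _ _) h7
        have := card_le_card h4
        omega
      · push Not at hfull
        obtain ⟨c, hc, hlt⟩ := hfull
        set S0 := S.filter (fun s => s - c ∈ K) with hS0
        set S1 := S.filter (fun s => ¬ s - c ∈ K) with hS1
        have hS01 : #S0 + #S1 = #S := card_filter_add_card_filter_not _
        have hS0n : S0.Nonempty := ⟨c, mem_filter.2 ⟨hc, by rw [sub_self]; exact K.zero_mem⟩⟩
        have h4 := hone c S0 hS0n (fun x hx => mem_cs.2 (mem_filter.1 hx).2) hlt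
        have h5 : Disjoint (S0 + A) (S1 + A) := by
          rw [disjoint_left]
          intro z hz hz'
          obtain ⟨x, hx, a, ha, rfl⟩ := mem_add.1 hz
          obtain ⟨x', hx', a', ha', h6⟩ := mem_add.1 hz'
          apply (mem_filter.1 hx').2
          have h7 : x' - c = (x - c) + (a - a') := by
            have : x' = x + a - a' := by rw [← h6]; abel
            rw [this]
            abel
          rw [h7]
          exact K.add_mem (mem_filter.1 hx).2 (K.sub_mem (mem_hs.1 (hAK ha)) (mem_hs.1 (hAK ha')))
        have h6 : #(S0 + A) + #(S1 + A) ≤ #(S + A) := by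
          rw [← card_union_of_disjoint h5]
          exact card_le_card (union_subset (add_subset_add_right (filter_subset _ _))
            (add_subset_add_right (filter_subset _ _)))
        have h7 : S1 ⊆ S1 + A := fun x hx => by
          have := add_mem_add hx h0
          rwa [add_zero] at this
        have h8 := eq_of_subset_of_card_le h7 (by omega)
        have h9 : K ≤ st S1 := by
          rw [hKdef, AddSubgroup.closure_le]
          intro a ha
          apply mem_st_of_forall
          intro x hx
          rw [h8]
          exact add_mem_add hx (mem_coe.1 ha)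
        have h10 : Per K S1 := (per_st S1).anti h9
        have h11 : cl K S ⊆ S1 ∪ cs K c := by
          intro z hz
          obtain ⟨s, hs, hzs⟩ := mem_cl.1 hz
          by_cases hsc : s - c ∈ K
          · refine mem_union_right _ (mem_cs.2 ?_)
            have : z - c = (z - s) + (s - c) := by abel
            rw [this]
            exact K.add_mem hzs hsc
          · refine mem_union_left _ ?_
            have := h10 s (mem_filter.2 ⟨hs, hsc⟩) _ hzs
            rwa [add_sub_cancel] at this
        have h12 := card_le_card h11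
        have h13 := card_union_le S1 (cs K c)
        have h14 := card_cs K c
        have h15 := card_pos.2 hS0n
        omega

end

end Pool.Agent.Lib.MPa7239a.RF
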