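import Mathlib

/-! # RF/IVL: the sums of `c` elements of a multiset of integers are `J`-dense

`interval_full`: a multiset (multiplicities `r u` at the distinct positions `p u`) whose near part
(`u ∈ N₀`) has gaps at most `J` and whose far part has at most `V` elements; the `k`-element sums of
the near part spread over at least `W` for `c - V ≤ k ≤ c`, and the far positions are not farther
than `W + J + 1`. Then between any two sums of `c` elements every interval of length `J` contains a
sum of `c` elements. -/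

open Finset

namespace Pool.Agent.Lib.MPa7239a.RF

namespace IVL

variable {ι : Type*} [Fintype ι] [DecidableEq ι]

/-- the sum of a multiset with multiplicities `d` -/
def PS (p : ι → ℤ) (d : ι → ℕ) : ℤ := ∑ u, (d u : ℤ) * p u

/-- the sums of `k` elements of `r` are `J`-dense between any two of them -/
def IV (p : ι → ℤ) (r : ι → ℕ) (J k : ℕ) : Prop :=
  ∀ d₁ d₂ : ι → ℕ, (∀ u, d₁ u ≤ r u) → (∀ u, d₂ u ≤ r u) → ∑ u, d₁ u = k → ∑ u, d₂ u = k →
    ∀ v : ℤ, PS p d₁ ≤ v → v ≤ PS p d₂ →
      ∃ d : ι → ℕ, (∀ u, d u ≤ r u) ∧ ∑ u, d u = k ∧ v - J ≤ PS p d ∧ PS p d ≤ v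

theorem PS_update (p : ι → ℤ) (d : ι → ℕ) (x : ι) (m : ℕ) :
    PS p (Function.update d x m) = PS p d + ((m : ℤ) - d x) * p x := by
  unfold PS
  have h : ∀ u, ((Function.update d x m u : ℕ) : ℤ) * p u
      = (d u : ℤ) * p u + (if u = x then ((m : ℤ) - d x) * p x else 0) := by
    intro u
    by_cases hu : u = x
    · subst hu
      simp only [Function.update_self, if_true]
      ring
    · simp [hu]
  rw [sum_congr rfl (fun u _ => h u), sum_add_distrib, sum_ite_eq' univ x]
  simp

theorem sum_update (d : ι → ℕ) (x : ι) (m : ℕ) :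
    ((∑ u, Function.update d x m u : ℕ) : ℤ) = ((∑ u, d u : ℕ) : ℤ) + ((m : ℤ) - d x) := by
  have h := PS_update (fun _ => 1) d x m
  unfold PS at h
  push_cast
  simpa using h

/-- move one element from `z` to `u` -/
def mv (d : ι → ℕ) (z u : ι) : ι → ℕ :=
  Function.update (Function.update d z (d z - 1)) u (d u + 1)

theorem PS_mv (p : ι → ℤ) {d : ι → ℕ} {z u : ι} (hz : 0 < d z) (hzu : z ≠ u) :
    PS p (mv d z u) = PS p d - p z + p u := by
  unfold mv
  rw [PS_update, PS_update, Function.update_of_ne (Ne.symm hzu)]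
  have h1 : (((d z - 1 : ℕ)) : ℤ) = (d z : ℤ) - 1 := by omega
  rw [h1]
  push_cast
  ring

theorem sum_mv {d : ι → ℕ} {z u : ι} (hz : 0 < d z) (hzu : z ≠ u) :
    ∑ w, mv d z u w = ∑ w, d w := by
  have h := PS_mv (fun _ => 1) hz hzu
  unfold PS at h
  have h2 : ((∑ w, mv d z u w : ℕ) : ℤ) = ((∑ w, d w : ℕ) : ℤ) := by
    push_cast
    simpa using h
  exact_mod_cast h2

omit [Fintype ι] in
theorem mv_le {d r : ι → ℕ} {z u : ι} (h : ∀ w, d w ≤ r w) (hu : d u < r u) :
    ∀ w, mv d z u w ≤ r w := by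
  intro w
  unfold mv
  by_cases hw : w = u
  · subst hw
    rw [Function.update_self]
    omega
  · rw [Function.update_of_ne hw]
    by_cases hwz : w = z
    · subst hwz
      rw [Function.update_self]
      have := h w
      omega
    · rw [Function.update_of_ne hwz]
      exact h w

omit [DecidableEq ι] in
/-- two multisets of the same size with different sums: an exchange to the right is possible -/
theorem exchange (p : ι → ℤ) {d e : ι → ℕ} (hs : ∑ u, d u = ∑ u, e u) (hP : PS p d < PS p e) :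
    ∃ x y, e x < d x ∧ d y < e y ∧ p x < p y := by
  by_contra hcon
  push Not at hcon
  -- some `y` with `d y < e y`
  have hy : ∃ y, d y < e y := by
    by_contra hno
    push Not at hno
    have heq : ∀ u, e u = d u := by
      have h1 : ∑ u, e u = ∑ u, d u := hs.symm
      have h2 := (Finset.sum_eq_sum_iff_of_le (fun u _ => hno u)).1 h1
      intro u
      exact h2 u (mem_univ u)
    have : d = e := funext (fun u => (heq u).symm)
    rw [this] at hP
    exact lt_irrefl _ hP
  obtain ⟨y, hy1, hy2⟩ := exists_max_image (univ.filter (fun y => d y < e y)) p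
    ⟨hy.choose, by simpa using hy.choose_spec⟩
  have hy1' : d y < e y := by simpa using hy1
  have hle : ∑ u, ((e u : ℤ) - d u) * (p u - p y) ≤ 0 := by
    apply sum_nonpos
    intro u _
    rcases lt_trichotomy (d u) (e u) with h | h | h
    · have h1 : p u ≤ p y := hy2 u (by simpa using h)
      apply mul_nonpos_of_nonneg_of_nonpos
      · have : (d u : ℤ) < e u := by exact_mod_cast h
        linarith
      · linarith
    · rw [h]
      simp
    · have h1 : p y ≤ p u := hcon u y h hy1'
      apply mul_nonpos_of_nonpos_of_nonneg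
      · have : (e u : ℤ) < d u := by exact_mod_cast h
        linarith
      · linarith
  have hid : ∑ u, ((e u : ℤ) - d u) * (p u - p y)
      = PS p e - PS p d - p y * (∑ u, (e u : ℤ) - ∑ u, (d u : ℤ)) := by
    unfold PS
    rw [mul_sub, mul_sum, mul_sum, ← sum_sub_distrib, ← sum_sub_distrib, ← sum_sub_distrib]
    apply sum_congr rfl
    intro u _
    ring
  have hs' : ∑ u, (e u : ℤ) - ∑ u, (d u : ℤ) = 0 := by
    have h1 : ((∑ u, d u : ℕ) : ℤ) = ((∑ u, e u : ℕ) : ℤ) := by exact_mod_cast hs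
    push_cast at h1
    linarith
  rw [hid, hs'] at hle
  linarith

/-- BASE: all gaps between occupied positions are at most `J` -/
theorem iv_base (p : ι → ℤ) {r : ι → ℕ} {J : ℕ}
    (hgap : ∀ u v, 0 < r u → 0 < r v → p u + J < p v → ∃ w, 0 < r w ∧ p u < p w ∧ p w < p v)
    (k : ℕ) : IV p r J k := by
  intro d₁ d₂ h1 h2 hc1 hc2 v hv1 hv2
  -- the finite set of admissible multisets below `v`
  have hfin : (univ : Finset (∀ u : ι, Fin (r u + 1))).Nonempty := ⟨fun _ => 0, mem_univ _⟩
  let toN : (∀ u : ι, Fin (r u + 1)) → (ι → ℕ) := fun f u => (f u : ℕ)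
  let S : Finset (∀ u : ι, Fin (r u + 1)) :=
    univ.filter (fun f => ∑ u, toN f u = k ∧ PS p (toN f) ≤ v)
  have hofN : ∀ d : ι → ℕ, (∀ u, d u ≤ r u) → ∃ f : (∀ u : ι, Fin (r u + 1)), toN f = d := by
    intro d hd
    exact ⟨fun u => ⟨d u, Nat.lt_succ_of_le (hd u)⟩, rfl⟩
  have hSne : S.Nonempty := by
    obtain ⟨f, hf⟩ := hofN d₁ h1
    refine ⟨f, ?_⟩
    simp only [S, mem_filter, mem_univ, true_and]
    rw [hf]
    exact ⟨hc1, hv1⟩
  obtain ⟨f, hfS, hfmax⟩ := exists_max_image S (fun f => PS p (toN f)) hSne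
  have hf' : ∑ u, toN f u = k ∧ PS p (toN f) ≤ v := by
    simpa only [S, mem_filter, mem_univ, true_and] using hfS
  set d : ι → ℕ := toN f with hd
  have hdr : ∀ u, d u ≤ r u := fun u => Nat.le_of_lt_succ (f u).2
  have hmax : ∀ e : ι → ℕ, (∀ u, e u ≤ r u) → ∑ u, e u = k → PS p e ≤ v → PS p e ≤ PS p d := by
    intro e he hek hev
    obtain ⟨g, hg⟩ := hofN e he
    have := hfmax g (by
      simp only [S, mem_filter, mem_univ, true_and]
      rw [hg]
      exact ⟨hek, hev⟩)
    simpa [hg] using this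
  refine ⟨d, hdr, hf'.1, ?_, hf'.2⟩
  by_contra hlt
  push Not at hlt
  -- an exchange exists
  obtain ⟨x₀, y₀, hx₀, hy₀, hxy₀⟩ := exchange p (d := d) (e := d₂) (by rw [hf'.1, hc2])
    (by have : (0 : ℤ) ≤ J := by positivity
        linarith)
  -- choose the shortest one
  let E : Finset (ι × ι) := univ.filter (fun q => 0 < d q.1 ∧ d q.2 < r q.2 ∧ p q.1 < p q.2)
  have hEne : E.Nonempty := by
    refine ⟨(x₀, y₀), ?_⟩
    simp only [E, mem_filter, mem_univ, true_and]
    have := h2 y₀
    exact ⟨by omega, by omega, hxy₀⟩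
  obtain ⟨q, hqE, hqmin⟩ := exists_min_image E (fun q => p q.2 - p q.1) hEne
  obtain ⟨x, y⟩ := q
  have hq : 0 < d x ∧ d y < r y ∧ p x < p y := by
    simpa only [E, mem_filter, mem_univ, true_and] using hqE
  obtain ⟨hx, hy, hxy⟩ := hq
  have hJ : p y ≤ p x + J := by
    by_contra hJ
    push Not at hJ
    obtain ⟨w, hw, hxw, hwy⟩ := hgap x y (lt_of_lt_of_le hx (hdr x)) (by omega) hJ
    by_cases hdw : 0 < d w
    · have := hqmin (w, y) (by
        simp only [E, mem_filter, mem_univ, true_and]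
        exact ⟨hdw, hy, hwy⟩)
      simp only at this
      linarith
    · have := hqmin (x, w) (by
        simp only [E, mem_filter, mem_univ, true_and]
        exact ⟨hx, by omega, hxw⟩)
      simp only at this
      linarith
  have hxney : x ≠ y := by
    intro h
    rw [h] at hxy
    exact lt_irrefl _ hxy
  have hP := PS_mv p hx hxney
  have := hmax (mv d x y) (mv_le hdr hy) (by rw [sum_mv hx hxney, hf'.1]) (by rw [hP]; linarith)
  rw [hP] at this
  linarith

/-- SPREAD: `k` classes -/
theorem spread (p : ι → ℤ) (hp : Function.Injective p) (k : ℕ) : ∀ (m : ℕ) (a : ι → ℕ),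
    (∀ u, a u ≤ k) → ∑ u, a u = k + m → ∃ Kt Kb : ι → ℕ, (∀ u, Kt u ≤ a u) ∧ (∀ u, Kb u ≤ a u) ∧
      ∑ u, Kt u = k ∧ ∑ u, Kb u = k ∧ PS p Kb + m ≤ PS p Kt := by
  intro m
  induction m with
  | zero =>
    intro a _ hs
    exact ⟨a, a, fun _ => le_rfl, fun _ => le_rfl, by simpa using hs, by simpa using hs, by simp⟩
  | succ m ih =>
    intro a ha hs
    have hne : (univ.filter (fun u => 0 < a u)).Nonempty := by
      by_contra hno
      rw [not_nonempty_iff_eq_empty, filter_eq_empty_iff] at hno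
      have : ∑ u, a u = 0 := by
        apply sum_eq_zero
        intro u hu
        have := hno hu
        omega
      omega
    obtain ⟨u, hu1, hu2⟩ := exists_max_image _ p hne
    have hu : 0 < a u := by simpa using hu1
    have hmaxu : ∀ z, 0 < a z → p z ≤ p u := fun z hz => hu2 z (by simpa using hz)
    let a' : ι → ℕ := Function.update a u (a u - 1)
    have ha'le : ∀ w, a' w ≤ a w := by
      intro w
      by_cases hw : w = u
      · subst hw
        simp only [a', Function.update_self]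
        omega
      · simp only [a', Function.update_of_ne hw]
        exact le_rfl
    have hs' : ∑ w, a' w = k + m := by
      have h := sum_update a u (a u - 1)
      have h1 : (((a u - 1 : ℕ)) : ℤ) = (a u : ℤ) - 1 := by omega
      rw [h1, hs] at h
      have h2 : ((∑ w, a' w : ℕ) : ℤ) = ((k + m : ℕ) : ℤ) := by
        rw [h]
        push_cast
        ring
      exact_mod_cast h2
    obtain ⟨Kt, Kb, hKt, hKb, hst, hsb, hP⟩ := ih a' (fun w => (ha'le w).trans (ha w)) hs'
    -- an element of `Kt` outside row `u`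
    have hz : ∃ z, z ≠ u ∧ 0 < Kt z := by
      by_contra hno
      push Not at hno
      have h1 : ∑ w, Kt w = Kt u := by
        apply sum_eq_single u
        · intro b _ hb
          have := hno b hb
          omega
        · intro h
          exact absurd (mem_univ u) h
      have h2 : Kt u ≤ a' u := hKt u
      have h3 : a' u = a u - 1 := by simp [a']
      have h4 := ha u
      omega
    obtain ⟨z, hzu, hz0⟩ := hz
    have hzp : p z < p u := by
      have h1 : p z ≤ p u := hmaxu z (lt_of_lt_of_le hz0 ((hKt z).trans (ha'le z)))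
      have h2 : p z ≠ p u := fun h => hzu (hp h)
      omega
    have hKtu : Kt u < a u := by
      have h2 : Kt u ≤ a' u := hKt u
      have h3 : a' u = a u - 1 := by simp [a']
      omega
    refine ⟨mv Kt z u, Kb, mv_le (fun w => (hKt w).trans (ha'le w)) hKtu,
      fun w => (hKb w).trans (ha'le w), by rw [sum_mv hz0 hzu, hst], hsb, ?_⟩
    rw [PS_mv p hz0 hzu]
    push_cast
    linarith

/-- INSERT one element at `x` -/
theorem iv_insert (p : ι → ℤ) {r : ι → ℕ} {x : ι} {J k : ℕ} (hk1 : IV p r J (k + 1))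
    (hk0 : IV p r J k)
    (hup : ∃ K3 K4 : ι → ℕ, (∀ u, K3 u ≤ r u) ∧ (∀ u, K4 u ≤ r u) ∧ ∑ u, K3 u = k + 1 ∧
      ∑ u, K4 u = k ∧ p x + PS p K4 ≤ PS p K3 + J + 1)
    (hdn : ∃ K3 K4 : ι → ℕ, (∀ u, K3 u ≤ r u) ∧ (∀ u, K4 u ≤ r u) ∧ ∑ u, K3 u = k + 1 ∧
      ∑ u, K4 u = k ∧ PS p K3 ≤ p x + PS p K4 + J + 1) :
    IV p (Function.update r x (r x + 1)) J (k + 1) := by
  -- lifting
  have hle : ∀ u, r u ≤ Function.update r x (r x + 1) u := by
    intro u
    by_cases hu : u = x
    · subst hu
      rw [Function.update_self]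
      omega
    · rw [Function.update_of_ne hu]
  have liftA : ∀ v : ℤ, (∃ d : ι → ℕ, (∀ u, d u ≤ r u) ∧ ∑ u, d u = k + 1 ∧ v - J ≤ PS p d ∧
      PS p d ≤ v) → ∃ d : ι → ℕ, (∀ u, d u ≤ Function.update r x (r x + 1) u) ∧
      ∑ u, d u = k + 1 ∧ v - J ≤ PS p d ∧ PS p d ≤ v := by
    rintro v ⟨d, hd, hs, h1, h2⟩
    exact ⟨d, fun u => (hd u).trans (hle u), hs, h1, h2⟩
  have liftB : ∀ v : ℤ, (∃ d : ι → ℕ, (∀ u, d u ≤ r u) ∧ ∑ u, d u = k ∧ v - p x - J ≤ PS p d ∧
      PS p d ≤ v - p x) → ∃ d : ι → ℕ, (∀ u, d u ≤ Function.update r x (r x + 1) u) ∧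
      ∑ u, d u = k + 1 ∧ v - J ≤ PS p d ∧ PS p d ≤ v := by
    rintro v ⟨d, hd, hs, h1, h2⟩
    have hPS : PS p (Function.update d x (d x + 1)) = PS p d + p x := by
      rw [PS_update]
      push_cast
      ring
    have hsum : ∑ u, Function.update d x (d x + 1) u = k + 1 := by
      have h := sum_update d x (d x + 1)
      rw [hs] at h
      push_cast at h
      have h3 : ((∑ u, Function.update d x (d x + 1) u : ℕ) : ℤ) = ((k + 1 : ℕ) : ℤ) := by
        push_cast
        rw [h]
        ring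
      exact_mod_cast h3
    refine ⟨Function.update d x (d x + 1), ?_, hsum, ?_, ?_⟩
    · intro u
      by_cases hu : u = x
      · subst hu
        rw [Function.update_self, Function.update_self]
        have := hd u
        omega
      · rw [Function.update_of_ne hu, Function.update_of_ne hu]
        exact hd u
    · rw [hPS]
      linarith
    · rw [hPS]
      linarith
  -- every admissible multiset is of type A or of type B
  have split : ∀ d : ι → ℕ, (∀ u, d u ≤ Function.update r x (r x + 1) u) → ∑ u, d u = k + 1 →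
      (∀ u, d u ≤ r u) ∨ ∃ e : ι → ℕ, (∀ u, e u ≤ r u) ∧ ∑ u, e u = k ∧ PS p d = p x + PS p e := by
    intro d hd hs
    by_cases hx : d x ≤ r x
    · left
      intro u
      by_cases hu : u = x
      · rw [hu]
        exact hx
      · have := hd u
        rwa [Function.update_of_ne hu] at this
    · right
      have hx1 : 0 < d x := by omega
      have h1 : (((d x - 1 : ℕ)) : ℤ) = (d x : ℤ) - 1 := by omega
      refine ⟨Function.update d x (d x - 1), ?_, ?_, ?_⟩
      · intro u
        by_cases hu : u = x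
        · subst hu
          have := hd u
          rw [Function.update_self] at this ⊢
          omega
        · have := hd u
          rw [Function.update_of_ne hu] at this ⊢
          exact this
      · have h := sum_update d x (d x - 1)
        rw [hs, h1] at h
        have h3 : ((∑ u, Function.update d x (d x - 1) u : ℕ) : ℤ) = (k : ℤ) := by
          rw [h]
          push_cast
          ring
        exact_mod_cast h3
      · rw [PS_update, h1]
        ring
  intro d₁ d₂ h1 h2 hc1 hc2 v hv1 hv2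
  obtain ⟨T3, T4, hT3, hT4, hsT3, hsT4, hT⟩ := hup
  obtain ⟨B3, B4, hB3, hB4, hsB3, hsB4, hB⟩ := hdn
  rcases split d₁ h1 hc1 with a1 | ⟨e1, he1, hse1, hPe1⟩
  · rcases split d₂ h2 hc2 with a2 | ⟨e2, he2, hse2, hPe2⟩
    · exact liftA v (hk1 d₁ d₂ a1 a2 hc1 hc2 v hv1 hv2)
    · -- A-B
      by_cases hc : v ≤ PS p T3
      · exact liftA v (hk1 d₁ T3 a1 hT3 hc1 hsT3 v hv1 hc)
      · by_cases hc' : p x + PS p T4 ≤ v
        · exact liftB v (hk0 T4 e2 hT4 he2 hsT4 hse2 (v - p x) (by linarith) (by linarith))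
        · exact liftA v ⟨T3, hT3, hsT3, by linarith [not_le.1 hc'], by linarith [not_le.1 hc]⟩
  · rcases split d₂ h2 hc2 with a2 | ⟨e2, he2, hse2, hPe2⟩
    · -- B-A
      by_cases hc : v ≤ p x + PS p B4
      · exact liftB v (hk0 e1 B4 he1 hB4 hse1 hsB4 (v - p x) (by linarith) (by linarith))
      · by_cases hc' : PS p B3 ≤ v
        · exact liftA v (hk1 B3 d₂ hB3 a2 hsB3 hc2 v hc' hv2)
        · exact liftB v ⟨B4, hB4, hsB4, by linarith [not_le.1 hc'], by linarith [not_le.1 hc]⟩
    · exact liftB v (hk0 e1 e2 he1 he2 hse1 hse2 (v - p x) (by linarith) (by linarith))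

/-- remove one element -/
theorem remove_one (p : ι → ℤ) {K : ι → ℕ} {k : ℕ} (hs : ∑ u, K u = k + 1) :
    ∃ z, 0 < K z ∧ ∑ u, Function.update K z (K z - 1) u = k ∧
      PS p (Function.update K z (K z - 1)) = PS p K - p z ∧
      ∀ u, Function.update K z (K z - 1) u ≤ K u := by
  have hz : ∃ z, 0 < K z := by
    by_contra hno
    push Not at hno
    have : ∑ u, K u = 0 := sum_eq_zero (fun u _ => by have := hno u; omega)
    omega
  obtain ⟨z, hz⟩ := hz
  have h1 : (((K z - 1 : ℕ)) : ℤ) = (K z : ℤ) - 1 := by omega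
  refine ⟨z, hz, ?_, ?_, ?_⟩
  · have h := sum_update K z (K z - 1)
    rw [hs, h1] at h
    have h3 : ((∑ u, Function.update K z (K z - 1) u : ℕ) : ℤ) = (k : ℤ) := by
      rw [h]
      push_cast
      ring
    exact_mod_cast h3
  · rw [PS_update, h1]
    ring
  · intro u
    by_cases hu : u = z
    · subst hu
      rw [Function.update_self]
      omega
    · rw [Function.update_of_ne hu]

/-- the sums of `c` elements are `J`-dense between any two of them (general form) -/
theorem iv_full (p : ι → ℤ) (hp : Function.Injective p)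
    {r : ι → ℕ} {N₀ : Finset ι} {J c V : ℕ} {W : ℤ} (hW0 : 0 ≤ W)
    (hgap : ∀ u ∈ N₀, ∀ v ∈ N₀, 0 < r u → 0 < r v → p u + J < p v →
      ∃ w ∈ N₀, 0 < r w ∧ p u < p w ∧ p w < p v)
    (hW : ∀ k : ℕ, k ≤ c → c ≤ k + V → (k : ℤ) + W ≤ ((∑ u ∈ N₀, min k (r u) : ℕ) : ℤ))
    (hfar : ∀ u, u ∉ N₀ → ∀ v ∈ N₀, |p u - p v| ≤ W + J + 1) :
    ∀ (m : ℕ) (r' : ι → ℕ), (∀ u ∈ N₀, r' u = r u) → ∑ u ∈ univ \ N₀, r' u = m →
      ∀ k : ℕ, k ≤ c → c + m ≤ k + V → IV p r' J k := by
  intro m
  induction m with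
  | zero =>
    intro r' hr' hs k _ _
    have h0 : ∀ u, u ∉ N₀ → r' u = 0 := by
      intro u hu
      exact (sum_eq_zero_iff.1 hs) u (by simp [hu])
    have hmem : ∀ u, 0 < r' u → u ∈ N₀ := by
      intro u hu
      by_contra hno
      have := h0 u hno
      omega
    apply iv_base
    intro u v hu hv huv
    have hu1 := hmem u hu
    have hv1 := hmem v hv
    obtain ⟨w, hw, hw1, hw2, hw3⟩ := hgap u hu1 v hv1 (by rw [← hr' u hu1]; exact hu)
      (by rw [← hr' v hv1]; exact hv) huv
    exact ⟨w, by rw [hr' w hw]; exact hw1, hw2, hw3⟩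
  | succ m ih =>
    intro r' hr' hs k hkc hkV
    rcases Nat.eq_zero_or_pos k with hk0 | hkpos
    · -- `k = 0`
      subst hk0
      intro d₁ d₂ h1 h2 hc1 hc2 v hv1 hv2
      have e1 : PS p d₁ = 0 := by
        unfold PS
        apply sum_eq_zero
        intro u hu
        rw [(sum_eq_zero_iff.1 hc1) u hu]
        simp
      have e2 : PS p d₂ = 0 := by
        unfold PS
        apply sum_eq_zero
        intro u hu
        rw [(sum_eq_zero_iff.1 hc2) u hu]
        simp
      refine ⟨d₁, h1, hc1, ?_, hv1⟩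
      have : (0 : ℤ) ≤ J := by positivity
      linarith
    · obtain ⟨k, rfl⟩ : ∃ j, k = j + 1 := ⟨k - 1, by omega⟩
      -- an element outside
      have hx : ∃ x ∈ univ \ N₀, 0 < r' x := by
        by_contra hno
        push Not at hno
        have : ∑ u ∈ univ \ N₀, r' u = 0 := sum_eq_zero (fun u hu => by have := hno u hu; omega)
        omega
      obtain ⟨x, hxm, hx0⟩ := hx
      have hxN : x ∉ N₀ := by simpa using hxm
      have hupd : r' = Function.update (Function.update r' x (r' x - 1)) x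
          (Function.update r' x (r' x - 1) x + 1) := by
        funext u
        by_cases hu : u = x
        · subst hu
          rw [Function.update_self, Function.update_self]
          omega
        · rw [Function.update_of_ne hu, Function.update_of_ne hu]
      set r₁ : ι → ℕ := Function.update r' x (r' x - 1) with hr₁
      have hr₁N : ∀ u ∈ N₀, r₁ u = r u := by
        intro u hu
        have hne : u ≠ x := fun h => hxN (h ▸ hu)
        rw [hr₁, Function.update_of_ne hne]
        exact hr' u hu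
      have hs₁ : ∑ u ∈ univ \ N₀, r₁ u = m := by
        have h1 : ∑ u ∈ univ \ N₀, r' u = r' x + ∑ u ∈ (univ \ N₀).erase x, r' u :=
          (add_sum_erase _ _ hxm).symm
        have h2 : ∑ u ∈ univ \ N₀, r₁ u = r₁ x + ∑ u ∈ (univ \ N₀).erase x, r₁ u :=
          (add_sum_erase _ _ hxm).symm
        have h3 : ∑ u ∈ (univ \ N₀).erase x, r₁ u = ∑ u ∈ (univ \ N₀).erase x, r' u := by
          apply sum_congr rfl
          intro u hu
          rw [hr₁, Function.update_of_ne (ne_of_mem_erase hu)]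
        have h4 : r₁ x = r' x - 1 := by rw [hr₁, Function.update_self]
        omega
      have iv1 : IV p r₁ J (k + 1) := ih r₁ hr₁N hs₁ (k + 1) hkc (by omega)
      have iv0 : IV p r₁ J k := ih r₁ hr₁N hs₁ k (by omega) (by omega)
      -- the spread at `k + 1`
      have hw := hW (k + 1) hkc (by omega)
      let a : ι → ℕ := fun u => if u ∈ N₀ then min (k + 1) (r u) else 0
      have hasum : ∑ u, a u = ∑ u ∈ N₀, min (k + 1) (r u) := by
        simp only [a]
        rw [sum_ite_mem, univ_inter]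
      have hT : ∃ t : ℕ, ∑ u, a u = (k + 1) + t ∧ W ≤ (t : ℤ) := by
        have h1 : (k + 1 : ℕ) ≤ ∑ u, a u := by
          rw [hasum]
          have : ((k + 1 : ℕ) : ℤ) ≤ ((∑ u ∈ N₀, min (k + 1) (r u) : ℕ) : ℤ) := by linarith
          exact_mod_cast this
        obtain ⟨t, ht⟩ := Nat.exists_eq_add_of_le h1
        refine ⟨t, ht, ?_⟩
        have h2 : ((∑ u ∈ N₀, min (k + 1) (r u) : ℕ) : ℤ) = ((k + 1 : ℕ) : ℤ) + t := by
          rw [← hasum, ht]
          push_cast
          ring
        rw [h2] at hw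
        linarith
      obtain ⟨t, ht, hWt⟩ := hT
      have hak : ∀ u, a u ≤ k + 1 := by
        intro u
        simp only [a]
        split_ifs
        · exact min_le_left _ _
        · omega
      obtain ⟨Kt, Kb, hKt, hKb, hst, hsb, hP⟩ := spread p hp (k + 1) t a hak ht
      have haN : ∀ u, 0 < a u → u ∈ N₀ := by
        intro u hu
        by_contra hno
        simp [a, hno] at hu
      have har : ∀ u, a u ≤ r₁ u := by
        intro u
        by_cases hu : u ∈ N₀
        · rw [hr₁N u hu]
          simp only [a, hu, if_true]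
          exact min_le_right _ _
        · simp [a, hu]
      rw [hupd]
      apply iv_insert p iv1 iv0
      · obtain ⟨z, hz, hsz, hPz, hlez⟩ := remove_one p hsb
        have hzN : z ∈ N₀ := haN z (lt_of_lt_of_le hz (hKb z))
        refine ⟨Kt, Function.update Kb z (Kb z - 1), fun u => (hKt u).trans (har u),
          fun u => ((hlez u).trans (hKb u)).trans (har u), hst, hsz, ?_⟩
        rw [hPz]
        have h1 := (abs_le.1 (hfar x hxN z hzN)).2
        linarith
      · obtain ⟨z, hz, hsz, hPz, hlez⟩ := remove_one p hst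
        have hzN : z ∈ N₀ := haN z (lt_of_lt_of_le hz (hKt z))
        refine ⟨Kb, Function.update Kt z (Kt z - 1), fun u => (hKb u).trans (har u),
          fun u => ((hlez u).trans (hKt u)).trans (har u), hsb, hsz, ?_⟩
        rw [hPz]
        have h1 := (abs_le.1 (hfar x hxN z hzN)).1
        linarith

end IVL

/-- The intermediate value lemma, in the form used: `r'` with values in `ZMod o`. -/
theorem interval_full {o : ℕ} [NeZero o] (p : ZMod o → ℤ) (hp : Function.Injective p)
    {r : ZMod o → ℕ} {N₀ : Finset (ZMod o)} {J c V : ℕ} {W : ℤ} (hW0 : 0 ≤ W)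
    (hgap : ∀ u ∈ N₀, ∀ v ∈ N₀, 0 < r u → 0 < r v → p u + J < p v →
      ∃ w ∈ N₀, 0 < r w ∧ p u < p w ∧ p w < p v)
    (hV : ∑ u ∈ univ \ N₀, r u ≤ V)
    (hW : ∀ k : ℕ, k ≤ c → c ≤ k + V → (k : ℤ) + W ≤ ((∑ u ∈ N₀, min k (r u) : ℕ) : ℤ))
    (hfar : ∀ u, u ∉ N₀ → ∀ v ∈ N₀, |p u - p v| ≤ W + J + 1)
    {d₁ d₂ : ZMod o → ℕ} (h1 : ∀ u, d₁ u ≤ r u) (h2 : ∀ u, d₂ u ≤ r u) (hc1 : ∑ u, d₁ u = c)
    (hc2 : ∑ u, d₂ u = c) {v : ℤ} (hv1 : ∑ u, (d₁ u : ℤ) * p u ≤ v)
    (hv2 : v ≤ ∑ u, (d₂ u : ℤ) * p u) :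
    ∃ d : ZMod o → ℕ, (∀ u, d u ≤ r u) ∧ ∑ u, d u = c ∧
      v - J ≤ ∑ u, (d u : ℤ) * p u ∧ ∑ u, (d u : ℤ) * p u ≤ v :=
  IVL.iv_full p hp hW0 hgap hW hfar (∑ u ∈ univ \ N₀, r u) r (fun _ _ => rfl) rfl c le_rfl
    (Nat.add_le_add_left hV c) d₁ d₂ h1 h2 hc1 hc2 v hv1 hv2

end Pool.Agent.Lib.MPa7239a.RF
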