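import Pool.Agent.Lib.MP_a7239a_co.RF.Defs
import Pool.Agent.Lib.MP_a7239a_co.RH.LOWR

/-!
# The lower bound of the explicit formula
-/

set_option autoImplicit false

open Finset

namespace Pool.Agent.Lib.MPa7239a.RF

open Pool.Agent.Lib.MPa7239a.GC
open Pool.Agent.Lib.MPa7239a.RK
open Pool.Agent.Lib.MPa7239a.RH

namespace LowfM

open Pool.Agent.Lib.MPa7239a.RH.LowrM

/-- the centre is a half-odd multiple of `o`: symmetric rows -/
theorem odd_rows {G : Type*} [AddCommGroup G] [Fintype G] [DecidableEq G] {o h b n c : ℕ}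
    (φ : G →+ ZMod o) (hφ : Function.Surjective φ) (hfib : ∀ z : ZMod o, #{x : G | φ x = z} = h)
    (hb : 1 ≤ b) (hbo : b + 3 ≤ o) {p K : ℤ} (hp : ((b : ℤ) + 1) * h = n + p)
    (hK : (n : ℤ) * b = (2 * K - 1) * o) (h1 : b * (c + 1) + 2 ≤ o)
    (h2 : ((b : ℤ) + 1) * (c + 1) + 2 ≤ o + p) (hp1 : p + 1 ≤ 2 * h) (hp2 : (c : ℤ) + 1 ≤ 2 * h + p) :
    ∃ A : Finset G, #A = n + c ∧ CycFree A n := by
  have hcen := two_cen b h
  have h1' : (b : ℤ) * (c + 1) + 2 ≤ o := by exact_mod_cast h1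
  have hcen' : 2 * cen b h = (2 * K - 1) * o + b * p := by
    rw [hcen, mul_assoc, hp, ← hK]
    ring
  rcases le_or_gt (c : ℤ) p with hcp | hcp
  · obtain ⟨x₁, hx₁⟩ : ∃ x₁ : ℕ, (x₁ : ℤ) = (p - c) / 2 := ⟨((p - c) / 2).toNat, by omega⟩
    obtain ⟨x₀, hx₀⟩ : ∃ x₀ : ℕ, (x₀ : ℤ) = p - c - x₁ := ⟨(p - c - x₁).toNat, by omega⟩
    refine build (b := b) (n := n) (c := c) (x₀ := x₀) (x₁ := x₁) (i₀ := b) (u := 0) (v := 0)
      φ hφ hfib hbo hb le_rfl (by omega) (by omega) (by omega) (by omega)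
      (by
        rw [hp, hx₀]
        push_cast
        ring) (K := K) ?_ ?_
    · have h3 : p - 2 * x₁ ≤ c + 1 := by omega
      have h4 : (b : ℤ) * (p - 2 * x₁) ≤ b * (c + 1) :=
        mul_le_mul_of_nonneg_left h3 (by omega)
      have h5 : 2 * (cen b h - b * x₁ + (b + 1) * ((0 : ℕ) : ℤ) + 1) ≤ 2 * (K * o) := by
        have h6 : 2 * (cen b h - b * x₁ + (b + 1) * ((0 : ℕ) : ℤ) + 1) =
            2 * cen b h - 2 * b * x₁ + 2 := by
          push_cast
          ring
        rw [h6, hcen']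
        have h7 : (2 * K - 1) * (o : ℤ) = 2 * (K * o) - o := by ring
        have h8 : (b : ℤ) * (p - 2 * x₁) = b * p - 2 * b * x₁ := by ring
        linarith
      linarith
    · have h3 : 2 * (c : ℤ) - (p - 2 * x₁) ≤ c + 1 := by omega
      have h4 : (b : ℤ) * (2 * (c : ℤ) - (p - 2 * x₁)) ≤ b * (c + 1) :=
        mul_le_mul_of_nonneg_left h3 (by omega)
      have h5 : 2 * ((K - 1) * o + 1) ≤ 2 * (cen b h - b * x₁ + (b + 1) * ((0 : ℕ) : ℤ) -
          ((0 : ℕ) : ℤ) - b * c - ((0 : ℕ) : ℤ)) := by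
        have h6 : 2 * (cen b h - b * x₁ + (b + 1) * ((0 : ℕ) : ℤ) -
          ((0 : ℕ) : ℤ) - b * c - ((0 : ℕ) : ℤ)) = 2 * cen b h - 2 * b * x₁ - 2 * b * c := by
          push_cast
          ring
        rw [h6, hcen']
        have h7 : (2 * K - 1) * (o : ℤ) = 2 * ((K - 1) * o) + o := by ring
        have h8 : (b : ℤ) * (2 * (c : ℤ) - (p - 2 * x₁)) = 2 * b * c - b * p + 2 * b * x₁ := by ring
        linarith
      linarith
  · obtain ⟨u, hu⟩ : ∃ u : ℕ, (u : ℤ) = (c - p) / 2 := ⟨((c - p) / 2).toNat, by omega⟩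
    obtain ⟨v, hv⟩ : ∃ v : ℕ, (v : ℤ) = c - p - u := ⟨(c - p - u).toNat, by omega⟩
    refine build (b := b) (n := n) (c := c) (x₀ := 0) (x₁ := 0) (i₀ := 1) (u := u) (v := v)
      φ hφ hfib hbo le_rfl hb (by omega) (by omega) (by omega) (by omega)
      (by
        rw [hp, hv]
        push_cast
        ring) (K := K) ?_ ?_
    · have h3 : 2 * (v : ℤ) ≤ c - p + 1 := by omega
      have h4 : ((b : ℤ) + 1) * (2 * v) ≤ (b + 1) * (c - p + 1) :=
        mul_le_mul_of_nonneg_left h3 (by omega)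
      have h5 : 2 * (cen b h - ((1 : ℕ) : ℤ) * ((0 : ℕ) : ℤ) + (b + 1) * (v : ℤ) + 1) ≤
          2 * (K * o) := by
        have h6 : 2 * (cen b h - ((1 : ℕ) : ℤ) * ((0 : ℕ) : ℤ) + (b + 1) * (v : ℤ) + 1) =
            2 * cen b h + (b + 1) * (2 * v) + 2 := by
          push_cast
          ring
        rw [h6, hcen']
        have h7 : (2 * K - 1) * (o : ℤ) = 2 * (K * o) - o := by ring
        have h8 : ((b : ℤ) + 1) * (c - p + 1) = (b + 1) * (c + 1) - b * p - p := by ring
        linarith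
      linarith
    · have h3 : 2 * (c : ℤ) - p - 2 * v ≤ c := by omega
      have h4 : (b : ℤ) * (2 * (c : ℤ) - p - 2 * v) ≤ b * c :=
        mul_le_mul_of_nonneg_left h3 (by omega)
      have h5 : 2 * ((K - 1) * o + 1) ≤ 2 * (cen b h - ((1 : ℕ) : ℤ) * ((0 : ℕ) : ℤ) +
          (b + 1) * (v : ℤ) - (u : ℤ) - b * c - (v : ℤ)) := by
        have h6 : 2 * (cen b h - ((1 : ℕ) : ℤ) * ((0 : ℕ) : ℤ) +
          (b + 1) * (v : ℤ) - (u : ℤ) - b * c - (v : ℤ)) =
            2 * cen b h + 2 * b * v - 2 * u - 2 * b * c := by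
          push_cast
          ring
        rw [h6, hcen']
        have h7 : (2 * K - 1) * (o : ℤ) = 2 * ((K - 1) * o) + o := by ring
        have h8 : (b : ℤ) * (2 * (c : ℤ) - p - 2 * v) = 2 * b * c - b * p - 2 * b * v := by ring
        have h9 : 2 * (u : ℤ) ≤ c - p := by omega
        have h10 : ((b : ℤ) + 1) * (c + 1) = b * c + c + b + 1 := by ring
        linarith
      linarith

/-- the centre is a multiple of `o`: the sums lie above the centre -/
theorem even_rows {G : Type*} [AddCommGroup G] [Fintype G] [DecidableEq G] {o h b n c p : ℕ}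
    (φ : G →+ ZMod o) (hφ : Function.Surjective φ) (hfib : ∀ z : ZMod o, #{x : G | φ x = z} = h)
    (hb : 1 ≤ b) (hbo : b + 3 ≤ o) {K : ℤ} (hp : (b + 1) * h = n + p)
    (hK : (n : ℤ) * b = 2 * K * o) (h1 : b * (c + 2) + 1 ≤ o)
    (h2 : (b + 1) * (2 * c + 3) + 2 ≤ 2 * o + p) (hp1 : p + 3 ≤ 2 * h) (hp2 : c + 1 ≤ h) :
    ∃ A : Finset G, #A = n + c ∧ CycFree A n := by
  have hcen := two_cen b h
  have h1' : (b : ℤ) * (c + 2) + 1 ≤ o := by exact_mod_cast h1
  have h2' : ((b : ℤ) + 1) * (2 * c + 3) + 2 ≤ 2 * o + p := by exact_mod_cast h2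
  have hp' : ((b : ℤ) + 1) * h = n + p := by exact_mod_cast hp
  have hcen' : 2 * cen b h = 2 * K * o + b * p := by
    rw [hcen, mul_assoc, hp', ← hK]
    ring
  rcases le_or_gt (2 * c + 2) p with hcp | hcp
  · obtain ⟨x₁, hx₁⟩ : ∃ x₁ : ℕ, x₁ = (p - 2 * c - 2) / 2 := ⟨_, rfl⟩
    obtain ⟨x₀, hx₀⟩ : ∃ x₀ : ℕ, (x₀ : ℤ) = p - c - x₁ := ⟨p - c - x₁, by omega⟩
    refine build (b := b) (n := n) (c := c) (x₀ := x₀) (x₁ := x₁) (i₀ := b) (u := 0) (v := 0)
      φ hφ hfib hbo hb le_rfl (by omega) (by omega) (by omega) (by omega)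
      (by
        rw [hp', hx₀]
        push_cast
        ring) (K := K + 1) ?_ ?_
    · have h3 : (p : ℤ) - 2 * x₁ ≤ 2 * c + 3 := by omega
      have h4 : (b : ℤ) * (p - 2 * x₁) ≤ b * (2 * c + 3) :=
        mul_le_mul_of_nonneg_left h3 (by omega)
      have h5 : 2 * (cen b h - b * x₁ + (b + 1) * ((0 : ℕ) : ℤ) + 1) ≤ 2 * ((K + 1) * o) := by
        have h6 : 2 * (cen b h - b * x₁ + (b + 1) * ((0 : ℕ) : ℤ) + 1) =
            2 * cen b h - 2 * b * x₁ + 2 := by
          push_cast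
          ring
        rw [h6, hcen']
        have h7 : 2 * ((K + 1) * (o : ℤ)) = 2 * K * o + 2 * o := by ring
        have h8 : (b : ℤ) * (p - 2 * x₁) = b * p - 2 * b * x₁ := by ring
        have h9 : (b : ℤ) * (2 * c + 3) = 2 * (b * (c + 2)) - b := by ring
        linarith
      linarith
    · have h3 : 2 * (c : ℤ) + 2 ≤ (p : ℤ) - 2 * x₁ := by omega
      have h4 : (b : ℤ) * (2 * c + 2) ≤ b * (p - 2 * x₁) :=
        mul_le_mul_of_nonneg_left h3 (by omega)
      have h5 : 2 * ((K + 1 - 1) * o + 1) ≤ 2 * (cen b h - b * x₁ + (b + 1) * ((0 : ℕ) : ℤ) -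
          ((0 : ℕ) : ℤ) - b * c - ((0 : ℕ) : ℤ)) := by
        have h6 : 2 * (cen b h - b * x₁ + (b + 1) * ((0 : ℕ) : ℤ) -
          ((0 : ℕ) : ℤ) - b * c - ((0 : ℕ) : ℤ)) = 2 * cen b h - 2 * b * x₁ - 2 * b * c := by
          push_cast
          ring
        rw [h6, hcen']
        have h7 : 2 * ((K + 1 - 1) * (o : ℤ) + 1) = 2 * K * o + 2 := by ring
        have h8 : (b : ℤ) * (p - 2 * x₁) = b * p - 2 * b * x₁ := by ring
        have h9 : (b : ℤ) * (2 * c + 2) = 2 * b * c + 2 * b := by ring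
        have h10 : (1 : ℤ) ≤ b := by omega
        linarith
      linarith
  · obtain ⟨v, hv⟩ : ∃ v : ℕ, v = c - p / 2 + 1 := ⟨_, rfl⟩
    obtain ⟨x₀, hx₀⟩ : ∃ x₀ : ℕ, (x₀ : ℤ) = v + p - c := ⟨v + p - c, by omega⟩
    refine build (b := b) (n := n) (c := c) (x₀ := x₀) (x₁ := 0) (i₀ := 1) (u := 0) (v := v)
      φ hφ hfib hbo le_rfl hb (by omega) (by omega) (by omega) (by omega)
      (by
        rw [hp', hx₀]
        push_cast
        ring) (K := K + 1) ?_ ?_
    · have h3 : 2 * (v : ℤ) ≤ 2 * c - p + 3 := by omega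
      have h4 : ((b : ℤ) + 1) * (2 * v) ≤ (b + 1) * (2 * c - p + 3) :=
        mul_le_mul_of_nonneg_left h3 (by omega)
      have h5 : 2 * (cen b h - ((1 : ℕ) : ℤ) * ((0 : ℕ) : ℤ) + (b + 1) * (v : ℤ) + 1) ≤
          2 * ((K + 1) * o) := by
        have h6 : 2 * (cen b h - ((1 : ℕ) : ℤ) * ((0 : ℕ) : ℤ) + (b + 1) * (v : ℤ) + 1) =
            2 * cen b h + (b + 1) * (2 * v) + 2 := by
          push_cast
          ring
        rw [h6, hcen']
        have h7 : 2 * ((K + 1) * (o : ℤ)) = 2 * K * o + 2 * o := by ring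
        have h8 : ((b : ℤ) + 1) * (2 * c - p + 3) = (b + 1) * (2 * c + 3) - b * p - p := by ring
        linarith
      linarith
    · have h3 : 2 * (c : ℤ) + 2 ≤ p + 2 * v := by omega
      have h4 : (b : ℤ) * (2 * (c : ℤ) + 2) ≤ b * (p + 2 * v) :=
        mul_le_mul_of_nonneg_left h3 (by omega)
      have h5 : 2 * ((K + 1 - 1) * o + 1) ≤ 2 * (cen b h - ((1 : ℕ) : ℤ) * ((0 : ℕ) : ℤ) +
          (b + 1) * (v : ℤ) - ((0 : ℕ) : ℤ) - b * c - (v : ℤ)) := by
        have h6 : 2 * (cen b h - ((1 : ℕ) : ℤ) * ((0 : ℕ) : ℤ) +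
          (b + 1) * (v : ℤ) - ((0 : ℕ) : ℤ) - b * c - (v : ℤ)) =
            2 * cen b h + 2 * b * v - 2 * b * c := by
          push_cast
          ring
        rw [h6, hcen']
        have h7 : 2 * ((K + 1 - 1) * (o : ℤ) + 1) = 2 * K * o + 2 := by ring
        have h8 : (b : ℤ) * (p + 2 * v) = b * p + 2 * b * v := by ring
        have h9 : (b : ℤ) * (2 * c + 2) = 2 * b * c + 2 * b := by ring
        have h10 : (1 : ℤ) ≤ b := by omega
        linarith
      linarith

/-- `n + M - 2` -/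
theorem base {G : Type*} [AddCommGroup G] [Fintype G] [DecidableEq G] {M n : ℕ}
    (hexp : AddMonoid.exponent G = n) (hcard : Nat.card G = M * n) (hM : 3 ≤ M)
    (hn : M < n) : ∃ A : Finset G, CycFree A n ∧ n + M ≤ #A + 4 := by
  have hn0 : 0 < n := by omega
  have : NeZero n := ⟨hn0.ne'⟩
  obtain ⟨ψ, hψ⟩ := RG.exists_phi hexp
  have hfib : ∀ z : ZMod n, #{x : G | ψ x = z} = M := by
    intro z
    have h1 := RG.card_fib hψ z
    rw [hcard, mul_comm M] at h1
    exact Nat.eq_of_mul_eq_mul_left hn0 h1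
  have hdm := Nat.div_add_mod n M
  have hRM := Nat.mod_lt n (show 0 < M by omega)
  have hb0 : 1 ≤ n / M := Nat.div_pos hn.le (by omega)
  obtain ⟨R, hR⟩ : ∃ R, R = n % M := ⟨_, rfl⟩
  obtain ⟨b₀, hb₀⟩ : ∃ b₀, b₀ = n / M := ⟨_, rfl⟩
  rw [← hR] at hRM
  rw [← hR, ← hb₀, mul_comm] at hdm
  rw [← hb₀] at hb0
  obtain ⟨m, hm⟩ : ∃ m, M = m + 1 := ⟨M - 1, by omega⟩
  have hbm : b₀ * M = b₀ * m + b₀ := by rw [hm]; ring
  have hb3 : b₀ * 3 ≤ b₀ * M := Nat.mul_le_mul_left b₀ hM
  have hM2 : M - 2 + 1 = m := by omega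
  have hM2' : ((M - 2 : ℕ) : ℤ) + 1 = m := by omega
  have hZ : (b₀ : ℤ) * M + R = n := by exact_mod_cast hdm
  have hZm : (b₀ : ℤ) * M = b₀ * m + b₀ := by exact_mod_cast hbm
  rcases Nat.even_or_odd b₀ with ⟨β, hβ⟩ | ⟨β, hβ⟩
  · obtain ⟨b, hb⟩ : ∃ b, b₀ = b + 1 := ⟨b₀ - 1, by omega⟩
    have hbm' : (b + 1) * m = b * m + m := by ring
    rw [hb] at hbm
    obtain ⟨B, hB, hBc⟩ := odd_rows (o := n) (h := M) (b := b) (n := n) (c := M - 2) ψ hψ hfib
      (by omega) (by omega) (p := - (R : ℤ)) (K := β)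
      (by
        rw [hb] at hZ
        push_cast at hZ
        linarith)
      (by
        have h1 : (b : ℤ) = 2 * β - 1 := by omega
        rw [h1]
        ring)
      (by
        rw [hM2]
        rw [hb] at hdm
        omega)
      (by
        rw [hM2']
        rw [hb] at hZ hZm
        push_cast at hZ hZm
        have h3 : (2 : ℤ) ≤ (b : ℤ) + 1 := by omega
        linarith)
      (by omega) (by omega)
    exact ⟨B, hBc, by omega⟩
  · obtain ⟨B, hB, hBc⟩ := odd_rows (o := n) (h := M) (b := b₀) (n := n) (c := M - 2) ψ hψ hfib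
      (by omega)
      (by
        rcases Nat.lt_or_ge b₀ 2 with h | h
        · have h1 : b₀ = 1 := by omega
          omega
        · omega)
      (p := (M : ℤ) - R) (K := β + 1)
      (by linarith)
      (by
        have h1 : (b₀ : ℤ) = 2 * β + 1 := by exact_mod_cast hβ
        rw [h1]
        ring)
      (by
        rw [hM2]
        rcases Nat.lt_or_ge b₀ 2 with h | h
        · have h1 : b₀ = 1 := by omega
          rw [h1, one_mul]
          omega
        · omega)
      (by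
        rw [hM2']
        have h3 : ((b₀ : ℤ) + 1) * m = b₀ * m + m := by ring
        have h4 : (M : ℤ) = m + 1 := by exact_mod_cast hm
        have h5 : (1 : ℤ) ≤ b₀ := by exact_mod_cast hb0
        rw [h3]
        linarith)
      (by omega) (by omega)
    exact ⟨B, hBc, by omega⟩

/-- the excess of the divisor `o` -/
theorem one {G : Type*} [AddCommGroup G] [Fintype G] [DecidableEq G] {M n o : ℕ}
    (hexp : AddMonoid.exponent G = n) (hcard : Nat.card G = M * n) (hM : 3 ≤ M)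
    (hn0 : n ≠ 0) (ho : o ∣ n) (he : exc M n o ≠ 0) :
    ∃ A : Finset G, CycFree A n ∧ n + M + exc M n o ≤ #A + 4 := by
  obtain ⟨E, hE⟩ : ∃ E, E = exc M n o := ⟨_, rfl⟩
  rw [← hE] at he ⊢
  obtain ⟨s, hs⟩ := ho
  have ho0 : o ≠ 0 := by
    rintro rfl
    exact hn0 (by rw [hs, zero_mul])
  have : NeZero n := ⟨hn0⟩
  have : NeZero o := ⟨ho0⟩
  have hns : n / o = s := by
    rw [hs]
    exact Nat.mul_div_cancel_left s (Nat.pos_of_ne_zero ho0)
  obtain ⟨b, hb⟩ : ∃ b, b = o / M := ⟨_, rfl⟩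
  obtain ⟨a, ha⟩ : ∃ a, a = o % M := ⟨_, rfl⟩
  have haM : a < M := by
    rw [ha]
    exact Nat.mod_lt _ (by omega)
  have hdm : b * M + a = o := by
    rw [hb, ha, mul_comm]
    exact Nat.div_add_mod o M
  rw [exc, hns, ← hb, ← ha] at hE
  have hb1 : 1 ≤ b := by
    rcases Nat.eq_zero_or_pos b with h | h
    · rw [h, Nat.div_zero] at hE
      omega
    · exact h
  have hE1 : b * E ≤ a := by
    have h1 : E ≤ a / b := by omega
    calc b * E ≤ b * (a / b) := Nat.mul_le_mul_left b h1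
      _ ≤ a := Nat.mul_div_le a b
  obtain ⟨f, hf⟩ : ∃ f, f = M - a := ⟨_, rfl⟩
  rw [← hf] at hE
  have hE2 : 2 * (b + 1) * E ≤ ((if Even (s * b) then 1 else 2) * s - 2) * f := by
    have h1 : E ≤ ((if Even (s * b) then 1 else 2) * s - 2) * f / (2 * (b + 1)) := by omega
    exact (Nat.mul_le_mul_left _ h1).trans (Nat.mul_div_le _ _)
  -- the quotient
  obtain ⟨ψ, hψ⟩ := RG.exists_phi hexp
  have hdvd : o ∣ n := ⟨s, hs⟩
  set φ : G →+ ZMod o := (ZMod.castHom hdvd (ZMod o)).toAddMonoidHom.comp ψ with hφ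
  have hφs : Function.Surjective φ := (ZMod.castHom_surjective hdvd).comp hψ
  have hfib : ∀ z : ZMod o, #{x : G | φ x = z} = M * s := by
    intro z
    have h1 := RG.card_fib hφs z
    rw [hcard, hs] at h1
    have h2 : o * #{x : G | φ x = z} = o * (M * s) := by
      rw [h1]
      ring
    exact Nat.eq_of_mul_eq_mul_left (Nat.pos_of_ne_zero ho0) h2
  have hbo : b + 3 ≤ o := by
    have h1 : b * 3 ≤ b * M := Nat.mul_le_mul_left b hM
    have h2 : 1 ≤ a := by
      have h3 : 1 * 1 ≤ b * E := Nat.mul_le_mul hb1 (by omega)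
      omega
    rcases Nat.lt_or_ge b 2 with h | h
    · have h3 : b = 1 := by omega
      rw [h3, one_mul] at hdm
      omega
    · omega
  -- the numbers
  obtain ⟨c, hc⟩ : ∃ c, M + E = c + 4 := ⟨M + E - 4, by omega⟩
  have hp : (b + 1) * (M * s) = n + s * f := by
    have h1 : M = a + f := by omega
    rw [hs, ← hdm]
    calc (b + 1) * (M * s) = (b * M + M) * s := by ring
      _ = (b * M + (a + f)) * s := by rw [← h1]
      _ = (b * M + a) * s + s * f := by ring
  have hEM : E ≤ a := by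
    calc E = 1 * E := (one_mul E).symm
      _ ≤ b * E := Nat.mul_le_mul_right E hb1
      _ ≤ a := hE1
  have hbc : b * c + 4 * b ≤ o := by
    have h1 : b * (M + E) = b * c + 4 * b := by rw [hc]; ring
    have h2 : b * (M + E) = b * M + b * E := by ring
    omega
  have hsf : s * f ≤ M * s := by
    rw [mul_comm M s]
    exact Nat.mul_le_mul_left s (by omega)
  have hbM1 : (b + 1) * M = o + f := by
    have h1 : (b + 1) * M = b * M + M := by ring
    omega
  rcases Nat.even_or_odd (s * b) with hev | hodd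
  · rw [if_pos hev, one_mul] at hE2
    have hs3 : 3 ≤ s := by
      by_contra hlt
      have h1 : s - 2 = 0 := by omega
      rw [h1, zero_mul] at hE2
      have h2 : 0 < 2 * (b + 1) * E := by positivity
      omega
    have hMs : 2 * M ≤ M * s := by
      rw [mul_comm]
      exact Nat.mul_le_mul_left M (by omega)
    have hkey : 2 * (b + 1) * c + 8 * (b + 1) ≤ 2 * o + s * f := by
      have h1 : 2 * (b + 1) * (M + E) = 2 * (b + 1) * c + 8 * (b + 1) := by rw [hc]; ring
      have h2 : 2 * (b + 1) * (M + E) = 2 * ((b + 1) * M) + 2 * (b + 1) * E := by ring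
      have h3 : (s - 2) * f + 2 * f = s * f := by
        rw [← add_mul]
        congr 1
        omega
      rw [hbM1] at h2
      omega
    obtain ⟨K, hK⟩ := hev
    obtain ⟨A, hA, hAc⟩ := even_rows (n := n) (c := c) (p := s * f) φ hφs hfib hb1 hbo (K := K) hp
      (by
        rw [hs]
        push_cast
        have h1 : (s : ℤ) * b = K + K := by exact_mod_cast hK
        have h2 : (o : ℤ) * s * b = o * (s * b) := by ring
        rw [h2, h1]
        ring)
      (by
        have h1 : b * (c + 2) = b * c + 2 * b := by ring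
        omega)
      (by
        have h1 : (b + 1) * (2 * c + 3) = 2 * (b + 1) * c + 3 * (b + 1) := by ring
        omega)
      (by omega) (by omega)
    exact ⟨A, hAc, by omega⟩
  · rw [if_neg (by rwa [Nat.not_even_iff_odd])] at hE2
    have hs2 : 2 ≤ s := by
      by_contra hlt
      have h1 : 2 * s - 2 = 0 := by omega
      rw [h1, zero_mul] at hE2
      have h2 : 0 < 2 * (b + 1) * E := by positivity
      omega
    have hMs : 2 * M ≤ M * s := by
      rw [mul_comm]
      exact Nat.mul_le_mul_left M (by omega)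
    have hkey : (b + 1) * c + 4 * (b + 1) ≤ o + s * f := by
      have h1 : (b + 1) * (M + E) = (b + 1) * c + 4 * (b + 1) := by rw [hc]; ring
      have h2 : (b + 1) * (M + E) = (b + 1) * M + (b + 1) * E := by ring
      have h3 : (2 * s - 2) * f + 2 * f = 2 * (s * f) := by
        rw [← add_mul, ← mul_assoc]
        congr 1
        omega
      have h4 : 2 * (b + 1) * E = 2 * ((b + 1) * E) := by ring
      rw [hbM1] at h2
      omega
    obtain ⟨K, hK⟩ := hodd
    obtain ⟨A, hA, hAc⟩ := odd_rows (n := n) (c := c) (p := ((s * f : ℕ) : ℤ)) (K := K + 1)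
      φ hφs hfib hb1 hbo
      (by exact_mod_cast hp)
      (by
        rw [hs]
        push_cast
        have h1 : (s : ℤ) * b = 2 * K + 1 := by exact_mod_cast hK
        have h2 : (o : ℤ) * s * b = o * (s * b) := by ring
        rw [h2, h1]
        ring)
      (by
        have h1 : b * (c + 1) = b * c + b := by ring
        omega)
      (by
        have h1 : (b + 1) * (c + 1) + 2 ≤ o + s * f := by
          have h2 : (b + 1) * (c + 1) = (b + 1) * c + (b + 1) := by ring
          omega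
        exact_mod_cast h1)
      (by omega) (by omega)
    exact ⟨A, hAc, by omega⟩

end LowfM

/-- **the lower bound**: `n + M + excess M n - 4` -/
theorem low_F' {G : Type*} [AddCommGroup G] [Fintype G] [DecidableEq G] {M n : ℕ}
    (hexp : AddMonoid.exponent G = n) (hcard : Nat.card G = M * n) (hM : 3 ≤ M)
    (hn : M < n) : ∃ A : Finset G, CycFree A n ∧ n + M + excess M n ≤ #A + 4 := by
  have hn0 : n ≠ 0 := by omega
  obtain ⟨o, ho, hoe⟩ := exists_mem_eq_sup n.divisors ⟨1, Nat.one_mem_divisors.2 hn0⟩ (exc M n)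
  rw [excess, hoe]
  rcases Nat.eq_zero_or_pos (exc M n o) with h | h
  · rw [h, add_zero]
    exact LowfM.base hexp hcard hM hn
  · exact LowfM.one hexp hcard hM hn0 (Nat.dvd_of_mem_divisors ho) h.ne'

/-- **the lower bound**: `n + M + excess M n - 4` -/
theorem low_F {G : Type*} [AddCommGroup G] [Fintype G] [DecidableEq G] {M n : ℕ}
    (hexp : AddMonoid.exponent G = n) (hcard : Nat.card G = M * n) (hM : 3 ≤ M)
    (hn : 101 * M ≤ 100 * n) (_hn' : 1000 ≤ M ∨ 100 * M ≤ n) :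
    ∃ A : Finset G, CycFree A n ∧ n + M + excess M n ≤ #A + 4 :=
  low_F' hexp hcard hM (by omega)

end Pool.Agent.Lib.MPa7239a.RF
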