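import Pool.Agent.Lib.MP_a7239a_co.RH.MAINR
import Pool.Agent.Lib.MP_a7239a_co.RG.FULL3

/-!
# The number `m` nearly `n` (module NEAR, helper41)

`G` of order `m n` and exponent `n`, `m ≤ n ≤ 1.01 m`: a set without a zero-sum of `n` elements has at
most `n + m + 2` elements. The structure has two or three rows.
-/

set_option autoImplicit false

open Finset

namespace Pool.Agent.Lib.MPa7239a.RF

open Pool.Agent.Lib.MPa7239a.GC hiding cs
open Pool.Agent.Lib.MPa7239a.RB (exists_phi)
open Pool.Agent.Lib.MPa7239a.RH (exists_parR)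
open Pool.Agent.Lib.MPa7239a.RS (Amj Par)
open Pool.Agent.Lib.MPa7239a.RG (dense_three exists_amj)

section

variable {G : Type*} [AddCommGroup G] [Fintype G] [DecidableEq G] {n : ℕ}

/-- a row with at least three spare elements, and a set of other elements -/
theorem hit_flex (φ : G →+ ZMod n) {A W : Finset G} (hW : W ⊆ A) {u : ZMod n}
    (hWu : ∀ x ∈ W, φ x ≠ u) {k : ℕ} (hk : k + 3 ≤ #(A.filter (fun x => φ x = u)))
    (hk2 : Nat.card φ.ker + 4 ≤ 2 * (k + 3)) (hc : #W + k = n)
    (hs : ∑ x ∈ W, φ x + k • u = 0) : Hit A n 0 := by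
  obtain ⟨x₁, hx₁⟩ : (A.filter (fun x => φ x = u)).Nonempty := card_pos.1 (by omega)
  rw [mem_filter] at hx₁
  obtain ⟨T, hT, hTc, hTs⟩ := dense_three φ.ker (A.filter (fun x => φ x = u)) x₁ (fun x hx => by
    rw [AddMonoidHom.mem_ker, map_sub, hx₁.2, (mem_filter.1 hx).2, sub_self]) hk hk2
    (y := -∑ x ∈ W, x) (by
      rw [AddMonoidHom.mem_ker, map_sub, map_neg, map_sum, map_nsmul, hx₁.2, ← neg_add', hs,
        neg_zero])
  have hd : Disjoint W T := by
    rw [disjoint_left]
    intro x h1 h2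
    exact hWu x h1 (mem_filter.1 (hT h2)).2
  refine ⟨W ∪ T, union_subset hW (hT.trans (filter_subset _ _)), ?_, ?_⟩
  · rw [card_union_of_disjoint hd, hTc, hc]
  · rw [sum_union hd, hTs, add_neg_cancel]

omit [AddCommGroup G] [Fintype G] in
/-- a subset of a given sum of weights -/
theorem exists_sub (w : G → ℕ) {hi : ℕ} (F : Finset G) {t : ℕ} (hw : ∀ x ∈ F, w x ≤ hi)
    (ht : t ≤ ∑ x ∈ F, w x) : ∃ K ⊆ F, t ≤ ∑ x ∈ K, w x ∧ ∑ x ∈ K, w x ≤ t + hi := by
  induction F using Finset.induction with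
  | empty => exact ⟨∅, subset_rfl, ht, by simp⟩
  | insert a F ha ih =>
    rcases le_or_gt t (∑ x ∈ F, w x) with h | h
    · obtain ⟨K, hK, h1, h2⟩ := ih (fun x hx => hw x (mem_insert_of_mem hx)) h
      exact ⟨K, hK.trans (subset_insert _ _), h1, h2⟩
    · refine ⟨insert a F, subset_rfl, ht, ?_⟩
      rw [sum_insert ha]
      have := hw a (mem_insert_self _ _)
      omega

/-- **two nearly full rows** -/
theorem two_near [NeZero n] (φ : G →+ ZMod n) {m : ℕ} (hker : Nat.card φ.ker = m) (hmn : m ≤ n)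
    (hn : 100 * n ≤ 101 * m) (hm : 10000 ≤ m) {A : Finset G} (hA : n + m + 3 ≤ #A)
    (h0 : 9 * m ≤ 10 * #(A.filter (fun x => φ x = 0)))
    (h1 : 9 * m ≤ 10 * #(A.filter (fun x => φ x = 1))) : Hit A n 0 := by
  obtain ⟨R₀, hR₀⟩ : ∃ R, R = A.filter (fun x => φ x = 0) := ⟨_, rfl⟩
  obtain ⟨R₁, hR₁⟩ : ∃ R, R = A.filter (fun x => φ x = 1) := ⟨_, rfl⟩
  obtain ⟨r₀, hr₀⟩ : ∃ r, r = #R₀ := ⟨_, rfl⟩
  obtain ⟨r₁, hr₁⟩ : ∃ r, r = #R₁ := ⟨_, rfl⟩
  have h10 : (1 : ZMod n) ≠ 0 := by
    intro h
    have h2 := (ZMod.natCast_eq_zero_iff 1 n).1 (by rw [Nat.cast_one]; exact h)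
    have h3 := Nat.le_of_dvd one_pos h2
    omega
  have hr₀m : r₀ ≤ m := by
    rw [hr₀, hR₀, ← hker]
    exact card_le_of_coset φ.ker (0 : G) fun x hx => by
      rw [sub_zero, AddMonoidHom.mem_ker, (mem_filter.1 hx).2]
  have hr₁m : r₁ ≤ m := by
    rcases R₁.eq_empty_or_nonempty with h | ⟨y, hy⟩
    · rw [hr₁, h, card_empty]
      exact Nat.zero_le _
    · rw [hr₁, ← hker]
      exact card_le_of_coset φ.ker y fun x hx => by
        rw [hR₁, mem_filter] at hx hy
        rw [AddMonoidHom.mem_ker, map_sub, hx.2, hy.2, sub_self]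
  rw [← hR₀, ← hr₀] at h0
  rw [← hR₁, ← hr₁] at h1
  -- the position
  have hval : ∀ x : G, (((φ x).val : ℕ) : ZMod n) = φ x := fun x => ZMod.natCast_zmod_val _
  have hlt : ∀ x : G, (φ x).val < n := fun x => ZMod.val_lt _
  obtain ⟨F, hF⟩ : ∃ F, F = A.filter (fun x => 2 ≤ (φ x).val) := ⟨_, rfl⟩
  have hFA : F ⊆ A := by
    rw [hF]
    exact filter_subset _ _
  have hF2 : ∀ x ∈ F, 2 ≤ (φ x).val := fun x hx => by
    rw [hF, mem_filter] at hx
    exact hx.2
  have hF0 : ∀ x ∈ F, φ x ≠ 0 := by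
    intro x hx h
    have h2 := hF2 x hx
    rw [h, ZMod.val_zero] at h2
    omega
  have hF1 : ∀ x ∈ F, φ x ≠ 1 := by
    intro x hx h
    have h2 := hF2 x hx
    have h3 : (1 : ZMod n).val = 1 := by
      rw [ZMod.val_one_eq_one_mod, Nat.mod_eq_of_lt (by omega)]
    rw [h, h3] at h2
    omega
  have hAc : #A ≤ r₀ + r₁ + #F := by
    have h2 : A ⊆ (R₀ ∪ R₁) ∪ F := by
      intro x hx
      rw [mem_union, mem_union, hR₀, hR₁, hF, mem_filter, mem_filter, mem_filter]
      rcases Nat.lt_or_ge (φ x).val 2 with h | h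
      · left
        have h3 := hval x
        rcases (by omega : (φ x).val = 0 ∨ (φ x).val = 1) with h4 | h4
        · rw [h4, Nat.cast_zero] at h3
          exact Or.inl ⟨hx, h3.symm⟩
        · rw [h4, Nat.cast_one] at h3
          exact Or.inr ⟨hx, h3.symm⟩
      · exact Or.inr ⟨hx, h⟩
    refine (card_le_card h2).trans ((card_union_le _ _).trans ?_)
    rw [hr₀, hr₁]
    exact Nat.add_le_add_right (card_union_le _ _) _
  -- the two ways to finish
  have fin1 : ∀ K ⊆ F, ∀ k : ℕ, k + 3 ≤ r₁ → m + 4 ≤ 2 * (k + 3) → k + #K ≤ n →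
      n ≤ k + #K + r₀ → (∑ x ∈ K, φ x + k • (1 : ZMod n) = 0) → Hit A n 0 := by
    intro K hK k hk hk2 hk3 hk4 hs
    obtain ⟨T, hT, hTc⟩ := exists_subset_card_eq (show n - (k + #K) ≤ #R₀ by omega)
    have hT' : ∀ x ∈ T, x ∈ A ∧ φ x = 0 := fun x hx => by
      have := hT hx
      rw [hR₀, mem_filter] at this
      exact this
    have hd : Disjoint K T := by
      rw [disjoint_left]
      intro x hx1 hx2
      exact hF0 x (hK hx1) (hT' x hx2).2
    refine hit_flex φ (W := K ∪ T) (u := 1) (k := k) (union_subset (hK.trans hFA)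
      (fun x hx => (hT' x hx).1)) ?_ (by rw [← hR₁]; omega) (by rw [hker]; exact hk2) ?_ ?_
    · intro x hx
      rw [mem_union] at hx
      rcases hx with hx | hx
      · exact hF1 x (hK hx)
      · rw [(hT' x hx).2]
        exact h10.symm
    · rw [card_union_of_disjoint hd]
      omega
    · rw [sum_union hd, sum_eq_zero (fun x hx => (hT' x hx).2), add_zero, hs]
  have fin0 : ∀ K ⊆ F, ∀ k : ℕ, k + 3 ≤ r₀ → m + 4 ≤ 2 * (k + 3) → k + #K ≤ n →
      n ≤ k + #K + r₁ → (∑ x ∈ K, φ x + (n - (k + #K)) • (1 : ZMod n) = 0) → Hit A n 0 := by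
    intro K hK k hk hk2 hk3 hk4 hs
    obtain ⟨T, hT, hTc⟩ := exists_subset_card_eq (show n - (k + #K) ≤ #R₁ by omega)
    have hT' : ∀ x ∈ T, x ∈ A ∧ φ x = 1 := fun x hx => by
      have := hT hx
      rw [hR₁, mem_filter] at this
      exact this
    have hd : Disjoint K T := by
      rw [disjoint_left]
      intro x hx1 hx2
      exact hF1 x (hK hx1) (hT' x hx2).2
    refine hit_flex φ (W := K ∪ T) (u := 0) (k := k) (union_subset (hK.trans hFA)
      (fun x hx => (hT' x hx).1)) ?_ (by rw [← hR₀]; omega) (by rw [hker]; exact hk2) ?_ ?_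
    · intro x hx
      rw [mem_union] at hx
      rcases hx with hx | hx
      · exact hF0 x (hK hx)
      · rw [(hT' x hx).2]
        exact h10
    · rw [card_union_of_disjoint hd]
      omega
    · rw [sum_union hd, smul_zero, add_zero, ← hs]
      congr 1
      rw [sum_congr rfl (fun x hx => (hT' x hx).2), sum_const, hTc]
  -- an element in the middle
  by_cases hmid : ∃ x ∈ F, n < 4 * (φ x).val ∧ 4 * (φ x).val < 3 * n
  · obtain ⟨x, hx, hx1, hx2⟩ := hmid
    have hK : ({x} : Finset G) ⊆ F := singleton_subset_iff.2 hx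
    have hv := hval x
    have hl := hlt x
    rcases Nat.lt_or_ge n (2 * (φ x).val) with h | h
    · refine fin0 {x} hK ((φ x).val - 1) (by omega) (by omega)
        (by rw [card_singleton]; omega) (by rw [card_singleton]; omega) ?_
      have h2 : n - ((φ x).val - 1 + 1) = n - (φ x).val := by omega
      rw [sum_singleton, card_singleton, nsmul_one, h2, Nat.cast_sub hl.le, ZMod.natCast_self,
        zero_sub, hv, add_neg_cancel]
    · refine fin1 {x} hK (n - (φ x).val) (by omega) (by omega)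
        (by rw [card_singleton]; omega) (by rw [card_singleton]; omega) ?_
      rw [sum_singleton, nsmul_one, Nat.cast_sub hl.le, ZMod.natCast_self, zero_sub, hv,
        add_neg_cancel]
  push Not at hmid
  -- the two sides
  obtain ⟨P, hP⟩ : ∃ P, P = F.filter (fun x => 4 * (φ x).val ≤ n) := ⟨_, rfl⟩
  obtain ⟨Q, hQ⟩ : ∃ Q, Q = F.filter (fun x => ¬ (4 * (φ x).val ≤ n)) := ⟨_, rfl⟩
  have hPQ : #P + #Q = #F := by
    rw [hP, hQ]
    exact card_filter_add_card_filter_not _
  have hPF : P ⊆ F := by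
    rw [hP]
    exact filter_subset _ _
  have hQF : Q ⊆ F := by
    rw [hQ]
    exact filter_subset _ _
  have hP4 : ∀ x ∈ P, 4 * (φ x).val ≤ n := fun x hx => by
    rw [hP, mem_filter] at hx
    exact hx.2
  have hQ4 : ∀ x ∈ Q, 3 * n ≤ 4 * (φ x).val := fun x hx => by
    rw [hQ, mem_filter] at hx
    exact hmid x hx.1 (not_le.1 hx.2)
  rcases Nat.lt_or_ge (2 * #P) (n - r₁ + 3) with hPs | hPs
  · rcases Nat.lt_or_ge (2 * #Q) (n - r₀ + 3) with hQs | hQs
    · omega
    · -- negative side
      have hw : ∀ x ∈ Q, n - (φ x).val + 1 ≤ n / 4 + 1 := by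
        intro x hx
        have := hQ4 x hx
        omega
      have ht : n - r₀ + 3 ≤ ∑ x ∈ Q, (n - (φ x).val + 1) := by
        refine hQs.trans ?_
        rw [mul_comm, ← smul_eq_mul, ← sum_const]
        refine sum_le_sum fun x _ => ?_
        have := hlt x
        omega
      obtain ⟨K, hK, hK1, hK2⟩ := exists_sub (fun x => n - (φ x).val + 1) Q hw ht
      have hKc : ∑ x ∈ K, (n - (φ x).val + 1) = ∑ x ∈ K, (n - (φ x).val) + #K := by
        rw [sum_add_distrib, sum_const, smul_eq_mul, mul_one]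
      rw [hKc] at hK1 hK2
      refine fin0 K (hK.trans hQF) (n - (∑ x ∈ K, (n - (φ x).val) + #K)) (by omega) (by omega)
        (by omega) (by omega) ?_
      have h2 : n - (n - (∑ x ∈ K, (n - (φ x).val) + #K) + #K) = ∑ x ∈ K, (n - (φ x).val) := by
        omega
      rw [h2, nsmul_one, Nat.cast_sum, ← sum_add_distrib]
      refine sum_eq_zero fun x _ => ?_
      rw [Nat.cast_sub (hlt x).le, ZMod.natCast_self, zero_sub, hval, add_neg_cancel]
  · -- positive side
    have hw : ∀ x ∈ P, (φ x).val ≤ n / 4 := by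
      intro x hx
      have := hP4 x hx
      omega
    have ht : n - r₁ + 3 ≤ ∑ x ∈ P, (φ x).val := by
      refine hPs.trans ?_
      rw [mul_comm, ← smul_eq_mul, ← sum_const]
      exact sum_le_sum fun x hx => hF2 x (hPF hx)
    obtain ⟨K, hK, hK1, hK2⟩ := exists_sub (fun x => (φ x).val) P hw ht
    have hKc : #K ≤ ∑ x ∈ K, (φ x).val := by
      rw [card_eq_sum_ones]
      refine sum_le_sum fun x hx => ?_
      have := hF2 x (hPF (hK hx))
      omega
    refine fin1 K (hK.trans hPF) (n - ∑ x ∈ K, (φ x).val) (by omega) (by omega) (by omega)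
      (by omega) ?_
    rw [nsmul_one, Nat.cast_sub (by omega), ZMod.natCast_self, zero_sub, Nat.cast_sum,
      sum_congr rfl (fun x _ => hval x), add_neg_cancel]

end

/-- numbers in the structure: `o = n`, `j = 1`, one or two main rows -/
theorem near_num {n m o j hc k t' V P Q R Sc loss : ℕ} (hos : o ∣ n) (hmn : m ≤ n)
    (hn : 100 * n ≤ 101 * m) (hl : 1000 * loss + 1000 ≤ m)
    (hcard : hc * (o * j) = m * n) (hj : 1 ≤ j) (hSc : Sc = k + t') (hkn : k ≤ n)
    (hS : n + m ≤ Sc + 4 * loss) (hsum : Sc = P + R) (hR : R ≤ (V + 1) * hc)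
    (hwin : t' * V + (P + Q) + 2 ≤ o) (hrow : V = 0 → R < n + loss) :
    o = n ∧ j = 1 ∧ (V = 0 ∨ (V = 1 ∧ P + m ≤ n + 4 * loss)) := by
  have hon : o ≤ n := Nat.le_of_dvd (by omega) hos
  have ht' : m ≤ t' + 4 * loss := by omega
  have hV : V ≤ 1 := by
    by_contra h
    have h1 : t' * 2 ≤ t' * V := Nat.mul_le_mul_left _ (by omega)
    omega
  have ho : n < 2 * o := by
    rcases Nat.eq_zero_or_pos V with h | h
    · have := hrow h
      omega
    · obtain rfl : V = 1 := by omega
      omega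
  have hon' : o = n := by
    obtain ⟨a, ha⟩ := hos
    have h1 : a < 2 := by
      by_contra h
      push Not at h
      have : o * 2 ≤ o * a := Nat.mul_le_mul_left _ h
      omega
    have h2 : a ≠ 0 := by
      rintro rfl
      omega
    obtain rfl : a = 1 := by omega
    omega
  have hcj : hc * j = m := by
    rw [hon'] at hcard
    have h1 : n * (hc * j) = n * m := by
      rw [mul_comm n m, ← hcard]
      ring
    exact Nat.eq_of_mul_eq_mul_left (by omega) h1
  have hj1 : j = 1 := by
    by_contra h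
    have h1 : hc * 2 ≤ hc * j := Nat.mul_le_mul_left _ (by omega)
    rcases Nat.eq_zero_or_pos V with h2 | h2
    · rw [h2, zero_add, one_mul] at hR
      omega
    · obtain rfl : V = 1 := by omega
      omega
  refine ⟨hon', hj1, ?_⟩
  rcases Nat.eq_zero_or_pos V with h | h
  · exact Or.inl h
  · right
    obtain rfl : V = 1 := by omega
    exact ⟨rfl, by omega⟩

/-- **the upper bound for `m ≤ n ≤ 1.01 m`** -/
theorem upper_near {G : Type*} [AddCommGroup G] [Fintype G] [DecidableEq G] {m n : ℕ}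
    (hexp : ∀ x : G, n • x = 0) (hcardG : Nat.card G = m * n) (hmn : m ≤ n)
    (hn : 100 * n ≤ 101 * m) (hm : 10 ^ 44 * (Nat.log 2 n + 1) ^ 12 ≤ m) {A : Finset G}
    (hno : ¬ Hit A n 0) : #A ≤ n + m + 2 := by
  classical
  by_contra hA
  push Not at hA
  have hm44 : 10 ^ 44 ≤ m := by
    have h1 : 1 ≤ (Nat.log 2 n + 1) ^ 12 := Nat.one_le_pow _ _ (by omega)
    calc 10 ^ 44 = 10 ^ 44 * 1 := (mul_one _).symm
      _ ≤ 10 ^ 44 * (Nat.log 2 n + 1) ^ 12 := Nat.mul_le_mul_left _ h1
      _ ≤ m := hm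
  have : NeZero n := ⟨by omega⟩
  obtain ⟨ℓ, M, Λ, k₀, hpar, hℓ, hL⟩ := exists_parR (m := m) (n := n) hmn hm
  obtain ⟨loss, hloss⟩ : ∃ loss, loss = 2592 * M * ℓ ^ 3 := ⟨_, rfl⟩
  rw [← hloss] at hL
  have hloss1 : 1 ≤ loss := by
    rw [hloss]
    exact Nat.mul_pos (Nat.mul_pos (by norm_num) hpar.hM) (Nat.pow_pos (by omega))
  obtain ⟨c, hc⟩ : ∃ c, c = m - 3 * loss := ⟨_, rfl⟩
  obtain ⟨B, hB, hBc⟩ := exists_subset_card_eq (show n + c ≤ #A by omega)
  have htop : Nat.card (⊤ : AddSubgroup G) = m * n := by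
    rw [AddSubgroup.card_top, hcardG]
  have hGc : Fintype.card G ≤ n ^ 2 := by
    rw [← Nat.card_eq_fintype_card, hcardG, sq]
    exact Nat.mul_le_mul_right _ hmn
  obtain ⟨K, H, e, q, S, z, j, o, k, t', Z, u, v, hj1, h⟩ :=
    exists_amj (τ := c) hexp hGc hpar htop hloss (A := B) (fun _ _ => AddSubgroup.mem_top _)
      hBc le_rfl (by omega) (by omega) fun hB' => hno (Hit.mono hB hB')
  have hSB := h.sub
  have hSA : S ⊆ A := hSB.trans hB
  -- the rows of `S`
  have hrow : ∀ i : ℤ, ∀ x ∈ S.filter (fun x => z x = i), x - (q + i • e) ∈ H := by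
    intro i x hx
    rw [mem_filter] at hx
    have h1 := h.lift x hx.1
    rw [hx.2] at h1
    have h2 : x - (q + i • e) = x - q - i • e := by abel
    rw [h2]
    exact h1
  obtain ⟨V, hV⟩ := Int.eq_ofNat_of_zero_le (show 0 ≤ v - u by have := h.uv; omega)
  have hR : #(S.filter (fun x => u ≤ z x ∧ z x ≤ v)) ≤ (V + 1) * Nat.card H := by
    have h1 : #(S.filter (fun x => u ≤ z x ∧ z x ≤ v)) ≤ Nat.card H * #(Icc u v) := by
      refine card_le_mul_card_image_of_maps_to (f := z) ?_ _ ?_
      · intro x hx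
        rw [mem_filter] at hx
        exact mem_Icc.2 hx.2
      · intro b _
        refine card_le_of_coset H (q + b • e) ?_
        intro x hx
        rw [mem_filter, mem_filter] at hx
        exact hrow b x (mem_filter.2 ⟨hx.1.1, hx.2⟩)
    rw [Int.card_Icc] at h1
    have h2 : (v + 1 - u).toNat = V + 1 := by omega
    rw [h2, mul_comm] at h1
    exact h1
  obtain ⟨P, hP⟩ : ∃ P, P = #(S.filter (fun x => ¬ (u ≤ z x ∧ z x ≤ v))) := ⟨_, rfl⟩
  obtain ⟨Q, hQ⟩ : ∃ Q, Q = #(S.filter (fun x => ¬ (u - 1 ≤ z x ∧ z x ≤ v + 1))) := ⟨_, rfl⟩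
  have hsum : #S = P + #(S.filter (fun x => u ≤ z x ∧ z x ≤ v)) := by
    have := card_filter_add_card_filter_not (s := S) (fun x => u ≤ z x ∧ z x ≤ v)
    omega
  have hwin : t' * V + (P + Q) + 2 ≤ o := by
    have h1 : (P : ℤ) + Q ≤ ∑ x ∈ S.filter (fun x => v < z x), (z x - v) +
        ∑ x ∈ S.filter (fun x => z x < u), (u - z x) := by
      rw [hP, hQ, card_filter, card_filter, sum_filter, sum_filter, Nat.cast_sum, Nat.cast_sum,
        ← sum_add_distrib, ← sum_add_distrib]
      refine sum_le_sum fun x _ => ?_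
      have := h.uv
      split_ifs <;> push_cast <;> omega
    have h2 := h.win
    rw [hV] at h2
    have h3 : ((t' * V + (P + Q) + 2 : ℕ) : ℤ) ≤ o := by
      push_cast
      linarith
    exact_mod_cast h3
  have hcard : Nat.card H * (o * j) = m * n := by
    have h1 := h.cardH
    have h2 := h.cardK
    rw [← mul_assoc, h1, h2]
  have hSc := h.hloss
  obtain ⟨hon, hj, hcase⟩ := near_num h.on hmn hn (by omega) hcard hj1 h.cardS h.kn (loss := loss)
    (by omega) hsum hR hwin (fun hV0 => by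
      have h1 : S.filter (fun x => u ≤ z x ∧ z x ≤ v) = S.filter (fun x => z x = u) :=
        filter_congr fun x _ => by omega
      rw [h1]
      exact h.row (q + u • e) _ ((filter_subset _ _).trans hSB) (hrow u))
  have hKtop : K = ⊤ := by
    have h1 := h.cardK
    rw [hj, mul_one] at h1
    exact AddSubgroup.eq_top_of_card_eq K (by rw [h1, hcardG])
  obtain ⟨φ, hφ, hker, hφe⟩ := exists_phi (H := H) (e := e) (o := n)
    (by rw [h.order, hon]) fun x => h.gen x (by rw [hKtop]; exact AddSubgroup.mem_top _)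
  have hkc : Nat.card φ.ker = m := by
    rw [hker]
    rw [hon, hj, mul_one] at hcard
    exact Nat.eq_of_mul_eq_mul_right (by omega) hcard
  -- translation
  have hφ₀ : ∀ (i a : ℤ), ∀ x ∈ S.filter (fun x => z x = i + a),
      φ (x - (q + i • e)) = (a : ZMod n) := by
    intro i a x hx
    have h2 := hrow _ x hx
    rw [← hker, AddMonoidHom.mem_ker] at h2
    have h3 : x - (q + i • e) = (x - (q + (i + a) • e)) + a • e := by
      rw [add_smul]
      abel
    rw [h3, map_add, h2, map_zsmul, hφe, zsmul_one, zero_add]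
  have hle : ∀ (i a : ℤ), #(S.filter (fun x => z x = i + a)) ≤
      #((A.image (fun x => x - (q + i • e))).filter (fun x => φ x = (a : ZMod n))) := by
    intro i a
    rw [← card_image_of_injective (S.filter (fun x => z x = i + a))
      (sub_left_injective (b := q + i • e))]
    refine card_le_card fun y hy => ?_
    obtain ⟨x, hx, rfl⟩ := mem_image.1 hy
    rw [mem_filter]
    exact ⟨mem_image_of_mem _ (hSA (mem_filter.1 hx).1), hφ₀ i a x hx⟩
  have hback : ∀ i : ℤ, ¬ Hit (A.image (fun x => x - (q + i • e))) n 0 := fun i h5 =>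
    hno (RB.Hit.translate (hexp _) h5)
  have key : ∀ i : ℤ, 9 * m ≤ 10 * #(S.filter (fun x => z x = i)) →
      9 * m ≤ 10 * #(S.filter (fun x => z x = i + 1)) → False := by
    intro i h0 h1
    have hle0 := hle i 0
    have hle1 := hle i 1
    rw [add_zero, Int.cast_zero] at hle0
    rw [Int.cast_one] at hle1
    refine hback i (two_near φ hkc hmn hn (by omega) ?_ ?_ ?_)
    · rw [card_image_of_injective _ sub_left_injective]
      omega
    · omega
    · omega
  have hrle : ∀ i : ℤ, #(S.filter (fun x => z x = i)) ≤ m := fun i =>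
    (card_le_of_coset H _ (hrow i)).trans (by rw [← hker, hkc])
  rcases hcase with hV0 | ⟨hV1, hP4⟩
  · -- one main row
    have hvu : v = u := by omega
    have h1 : S.filter (fun x => u ≤ z x ∧ z x ≤ v) = S.filter (fun x => z x = u) :=
      filter_congr fun x _ => by omega
    rw [h1] at hsum
    have h3 : P ≤ #(S.filter (fun x => z x = u + 1)) + #(S.filter (fun x => z x = u - 1)) + Q := by
      rw [hP, hQ]
      have h4 : S.filter (fun x => ¬ (u ≤ z x ∧ z x ≤ v)) ⊆
          (S.filter (fun x => z x = u + 1) ∪ S.filter (fun x => z x = u - 1)) ∪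
            S.filter (fun x => ¬ (u - 1 ≤ z x ∧ z x ≤ v + 1)) := by
        intro x hx
        simp only [mem_union, mem_filter] at hx ⊢
        rcases eq_or_ne (z x) (u + 1) with h5 | h5
        · exact Or.inl (Or.inl ⟨hx.1, h5⟩)
        · rcases eq_or_ne (z x) (u - 1) with h6 | h6
          · exact Or.inl (Or.inr ⟨hx.1, h6⟩)
          · exact Or.inr ⟨hx.1, by omega⟩
      exact (card_le_card h4).trans ((card_union_le _ _).trans
        (Nat.add_le_add_right (card_union_le _ _) _))
    have hr := hrle u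
    have hr1 := hrle (u + 1)
    have hr2 := hrle (u - 1)
    rw [hV0, mul_zero, zero_add, hon] at hwin
    obtain ⟨a, ha⟩ : ∃ a, a = (n - #(S.filter (fun x => z x = u)) + 4) / 2 := ⟨_, rfl⟩
    rcases Nat.lt_or_ge (#(S.filter (fun x => z x = u + 1))) a with h₁ | h₁
    · refine key (u - 1) (by omega) ?_
      rw [sub_add_cancel]
      omega
    · rcases Nat.lt_or_ge (#(S.filter (fun x => z x = u - 1))) a with h₂ | h₂
      · exact key u (by omega) (by omega)
      · -- three rows
        refine hback u ?_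
        have e0 := hle u 0
        have e1 := hle u 1
        have e2 := hle u (-1)
        rw [add_zero, Int.cast_zero] at e0
        rw [Int.cast_one] at e1
        rw [← sub_eq_add_neg, Int.cast_neg, Int.cast_one] at e2
        obtain ⟨T₁, hT₁, hc₁⟩ := exists_subset_card_eq (h₁.trans e1)
        obtain ⟨T₂, hT₂, hc₂⟩ := exists_subset_card_eq (h₂.trans e2)
        have m₁ : ∀ x ∈ T₁, φ x = 1 := fun x hx => (mem_filter.1 (hT₁ hx)).2
        have m₂ : ∀ x ∈ T₂, φ x = -1 := fun x hx => (mem_filter.1 (hT₂ hx)).2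
        have h10 : (1 : ZMod n) ≠ 0 := by
          intro h
          have h2 := (ZMod.natCast_eq_zero_iff 1 n).1 (by rw [Nat.cast_one]; exact h)
          have h3 := Nat.le_of_dvd one_pos h2
          omega
        have h11 : (1 : ZMod n) ≠ -1 := by
          intro h
          have h2 := (ZMod.natCast_eq_zero_iff 2 n).1 (by
            rw [Nat.cast_two, ← one_add_one_eq_two]
            nth_rewrite 2 [h]
            rw [add_neg_cancel])
          have h3 := Nat.le_of_dvd two_pos h2
          omega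
        have hd : Disjoint T₁ T₂ := by
          rw [disjoint_left]
          intro x hx1 hx2
          exact h11 ((m₁ x hx1).symm.trans (m₂ x hx2))
        refine hit_flex φ (W := T₁ ∪ T₂) (u := 0) (k := n - 2 * a) ?_ ?_ ?_ ?_ ?_ ?_
        · exact union_subset (hT₁.trans (filter_subset _ _)) (hT₂.trans (filter_subset _ _))
        · intro x hx
          rw [mem_union] at hx
          rcases hx with hx | hx
          · rw [m₁ x hx]
            exact h10
          · rw [m₂ x hx]
            exact neg_ne_zero.2 h10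
        · omega
        · rw [hkc]
          omega
        · rw [card_union_of_disjoint hd]
          omega
        · rw [sum_union hd, sum_congr rfl m₁, sum_congr rfl m₂, sum_const, sum_const, hc₁, hc₂,
            smul_neg, add_neg_cancel, zero_add, smul_zero]
  · -- two main rows
    have hvu : v = u + 1 := by omega
    have h3 : #(S.filter (fun x => u ≤ z x ∧ z x ≤ v)) ≤
        #(S.filter (fun x => z x = u)) + #(S.filter (fun x => z x = u + 1)) := by
      refine le_trans (card_le_card ?_) (card_union_le _ _)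
      intro x hx
      simp only [mem_union, mem_filter] at hx ⊢
      rcases eq_or_ne (z x) u with h5 | h5
      · exact Or.inl ⟨hx.1, h5⟩
      · exact Or.inr ⟨hx.1, by omega⟩
    have hr := hrle u
    have hr1 := hrle (u + 1)
    exact key u (by omega) (by omega)

end Pool.Agent.Lib.MPa7239a.RF
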