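import Pool.Agent.Lib.MP_a7239a_co.RF.NUMF

/-!
# RF, module RES: the reserved elements
-/

set_option autoImplicit false

open Finset

namespace Pool.Agent.Lib.MPa7239a.RF

open Pool.Agent.Lib.MPa7239a.RB
open Pool.Agent.Lib.MPa7239a.RH

namespace RESM

/-- a sum of two elements of a set with at most `g` gaps in `[a, b]` -/
theorem pair_sum {a b m : ℕ} {P : Finset ℕ} (hm1 : 2 * a + 2 * #(Icc a b \ P) ≤ m)
    (hm2 : m + 2 * #(Icc a b \ P) ≤ 2 * b) : ∃ x ∈ P, ∃ y ∈ P, x + y = m := by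
  by_contra hcon
  push Not at hcon
  set B := Icc a b \ P with hB
  have h1 : Icc (max a (m - b)) (min b (m - a)) ⊆ B ∪ B.image (fun i => m - i) := by
    intro i hi
    rw [mem_Icc] at hi
    obtain ⟨hi1, hi2⟩ := hi
    have h2 : a ≤ i := le_trans (le_max_left _ _) hi1
    have h3 : m - b ≤ i := le_trans (le_max_right _ _) hi1
    have h4 : i ≤ b := le_trans hi2 (min_le_left _ _)
    have h5 : i ≤ m - a := le_trans hi2 (min_le_right _ _)
    rw [mem_union]
    by_cases hP : i ∈ P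
    · right
      rw [mem_image]
      refine ⟨m - i, ?_, by omega⟩
      rw [hB, mem_sdiff, mem_Icc]
      refine ⟨⟨by omega, by omega⟩, fun h6 => ?_⟩
      exact hcon i hP (m - i) h6 (by omega)
    · left
      rw [hB, mem_sdiff, mem_Icc]
      exact ⟨⟨h2, h4⟩, hP⟩
  have h2 := (card_le_card h1).trans (card_union_le _ _)
  have h3 := card_image_le (s := B) (f := fun i => m - i)
  rw [Nat.card_Icc] at h2
  omega

/-- a sum of six elements of a set with few gaps -/
theorem six_sum {a b T : ℕ} {P : Finset ℕ} (hT1 : 3 * (2 * a + 2 * #(Icc a b \ P)) ≤ T)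
    (hT2 : T + 6 * #(Icc a b \ P) ≤ 6 * b) : ∃ x : Fin 6 → ℕ, (∀ k, x k ∈ P) ∧ ∑ k, x k = T := by
  set g := #(Icc a b \ P) with hg
  have key : ∃ m₁ m₂ m₃ : ℕ, m₁ + m₂ + m₃ = T ∧ (2 * a + 2 * g ≤ m₁ ∧ m₁ + 2 * g ≤ 2 * b) ∧
      (2 * a + 2 * g ≤ m₂ ∧ m₂ + 2 * g ≤ 2 * b) ∧ (2 * a + 2 * g ≤ m₃ ∧ m₃ + 2 * g ≤ 2 * b) := by
    rcases le_total (T - 2 * (2 * a + 2 * g)) (2 * b - 2 * g) with h | h
    · exact ⟨T - 2 * (2 * a + 2 * g), 2 * a + 2 * g, 2 * a + 2 * g, by omega, by omega, by omega,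
        by omega⟩
    · rcases le_total (T - (2 * b - 2 * g) - (2 * a + 2 * g)) (2 * b - 2 * g) with h' | h'
      · exact ⟨2 * b - 2 * g, T - (2 * b - 2 * g) - (2 * a + 2 * g), 2 * a + 2 * g, by omega,
          by omega, by omega, by omega⟩
      · exact ⟨2 * b - 2 * g, 2 * b - 2 * g, T - 2 * (2 * b - 2 * g), by omega, by omega, by omega,
          by omega⟩
  obtain ⟨m₁, m₂, m₃, hs, h1, h2, h3⟩ := key
  obtain ⟨x₁, hx₁, y₁, hy₁, e₁⟩ := pair_sum (P := P) h1.1 h1.2
  obtain ⟨x₂, hx₂, y₂, hy₂, e₂⟩ := pair_sum (P := P) h2.1 h2.2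
  obtain ⟨x₃, hx₃, y₃, hy₃, e₃⟩ := pair_sum (P := P) h3.1 h3.2
  refine ⟨![x₁, y₁, x₂, y₂, x₃, y₃], ?_, ?_⟩
  · intro k
    fin_cases k <;> assumption
  · simp only [Fin.sum_univ_succ, Fin.isValue, Matrix.cons_val_zero, Matrix.cons_val_succ,
      Matrix.cons_val_fin_one, Finset.univ_unique, Finset.sum_singleton]
    omega

section

variable {o : ℕ} [NeZero o]

theorem pos_nat {q i : ℕ} (hqo : q < o) (hi : i ≤ q) : pos o q (i : ZMod o) = (i : ℤ) := by
  have h := pos_of q (o := o) (i := (i : ℤ)) (by omega) (by omega)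
  rwa [Int.cast_natCast] at h

/-- the reserve in two neighbouring rows -/
theorem two_rows {r : ZMod o → ℕ} {q h : ℕ} {u₀ u₁ : ZMod o} (h01 : u₀ ≠ u₁)
    (hp : pos o q u₁ = pos o q u₀ + 1) (h0 : 16 ≤ r u₀) (h1 : 16 ≤ r u₁)
    (hfat : h ≤ 2 * r u₀ ∨ h ≤ 2 * r u₁) :
    ∃ R : ZMod o → ℕ, (∀ u, R u ≤ 20) ∧ (∀ u, R u ≤ r u) ∧ (∀ u, R u ≠ 0 → u = u₀ ∨ u = u₁) ∧
      ∑ u, R u ≤ 32 ∧
      ∀ y : ℕ, y ≤ 10 → ∃ d : ZMod o → ℕ, (∀ u, d u ≤ R u) ∧ ∑ u, d u = 16 ∧
        ∑ u, (d u : ℤ) * pos o q u = (16 * pos o q u₀ + 3) + y ∧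
        ∃ u, h ≤ 2 * r u ∧ 3 ≤ d u ∧ d u + 3 ≤ R u := by
  refine ⟨fun u => (if u = u₀ then 16 else 0) + (if u = u₁ then 16 else 0), ?_, ?_, ?_, ?_, ?_⟩
  · intro u
    dsimp only
    split_ifs with h2 h3
    · exact absurd (h2.symm.trans h3) h01
    all_goals omega
  · intro u
    dsimp only
    split_ifs with h2 h3 h3
    · exact absurd (h2.symm.trans h3) h01
    · subst h2
      omega
    · subst h3
      omega
    · omega
  · intro u hu
    by_contra hcon
    push Not at hcon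
    apply hu
    dsimp only
    rw [if_neg hcon.1, if_neg hcon.2]
  · rw [sum_add_distrib, sum_ite_eq' univ u₀ (fun _ => 16), sum_ite_eq' univ u₁ (fun _ => 16),
      if_pos (mem_univ _), if_pos (mem_univ _)]
  · intro y hy
    refine ⟨fun u => (if u = u₀ then 13 - y else 0) + (if u = u₁ then 3 + y else 0), ?_, ?_, ?_, ?_⟩
    · intro u
      dsimp only
      split_ifs <;> omega
    · rw [sum_add_distrib, sum_ite_eq' univ u₀ (fun _ => 13 - y),
        sum_ite_eq' univ u₁ (fun _ => 3 + y), if_pos (mem_univ _), if_pos (mem_univ _)]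
      omega
    · have e : ∀ u : ZMod o, (((if u = u₀ then 13 - y else 0) + (if u = u₁ then 3 + y else 0) : ℕ) :
          ℤ) * pos o q u = (if u = u₀ then (13 - y) * pos o q u₀ else 0) +
          (if u = u₁ then (3 + y) * pos o q u₁ else 0) := by
        intro u
        have hy' : ((13 - y : ℕ) : ℤ) = 13 - y := by omega
        split_ifs with h2 h3 h3
        · exact absurd (h2.symm.trans h3) h01
        · subst h2
          push_cast [hy']
          ring
        · subst h3
          push_cast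
          ring
        · push_cast
          ring
      rw [sum_congr rfl fun u _ => e u, sum_add_distrib,
        sum_ite_eq' univ u₀ (fun _ => ((13 : ℤ) - y) * pos o q u₀),
        sum_ite_eq' univ u₁ (fun _ => ((3 : ℤ) + y) * pos o q u₁), if_pos (mem_univ _),
        if_pos (mem_univ _), hp]
      ring
    · rcases hfat with h2 | h2
      · refine ⟨u₀, h2, ?_, ?_⟩
        · dsimp only
          rw [if_pos rfl, if_neg h01]
          omega
        · dsimp only
          rw [if_pos rfl, if_neg h01, if_pos rfl, if_neg h01]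
          omega
      · refine ⟨u₁, h2, ?_, ?_⟩
        · dsimp only
          rw [if_pos rfl, if_neg h01.symm]
          omega
        · dsimp only
          rw [if_pos rfl, if_neg h01.symm, if_pos rfl, if_neg h01.symm]
          omega

/-- the reserve in many rows -/
theorem many_rows {r : ZMod o → ℕ} {q h : ℕ} (hqo : q < o) (hq : 1000 ≤ q) (hh : 40 ≤ h)
    (hfew : 1000 * #((range (q + 1)).filter (fun i : ℕ => 2 * r (i : ZMod o) < h)) ≤ 3000 + q) :
    ∃ (R : ZMod o → ℕ) (α : ℤ), (∀ u, R u ≤ 20) ∧ (∀ u, R u ≤ r u) ∧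
      (∀ u, R u ≠ 0 → h ≤ 2 * r u) ∧
      (∀ u, R u ≠ 0 → (q : ℤ) ≤ 4 * pos o q u ∧ 4 * pos o q u ≤ 3 * q) ∧
      ∀ y : ℕ, y ≤ 2 * q + 10 → ∃ d : ZMod o → ℕ, (∀ u, d u ≤ R u) ∧ ∑ u, d u = 16 ∧
        ∑ u, (d u : ℤ) * pos o q u = α + y ∧
        ∃ u, h ≤ 2 * r u ∧ 3 ≤ d u ∧ d u + 3 ≤ R u := by
  classical
  obtain ⟨a, ha⟩ : ∃ a, a = (q + 3) / 4 := ⟨_, rfl⟩
  obtain ⟨b, hb⟩ : ∃ b, b = 3 * q / 4 := ⟨_, rfl⟩
  set P : Finset ℕ := (Icc a b).filter (fun i : ℕ => h ≤ 2 * r (i : ZMod o)) with hP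
  have hPm : ∀ i, i ∈ P ↔ (a ≤ i ∧ i ≤ b) ∧ h ≤ 2 * r (i : ZMod o) := by
    intro i
    rw [hP, mem_filter, mem_Icc]
  have hPq : ∀ i ∈ P, i ≤ q := by
    intro i hi
    have := ((hPm i).1 hi).1.2
    omega
  have hg : 1000 * #(Icc a b \ P) ≤ 3000 + q := by
    refine le_trans (Nat.mul_le_mul_left _ (card_le_card ?_)) hfew
    intro i hi
    rw [mem_sdiff, mem_Icc, hPm] at hi
    rw [mem_filter, mem_range]
    refine ⟨by omega, ?_⟩
    by_contra hcon
    exact hi.2 ⟨hi.1, by omega⟩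
  set g := #(Icc a b \ P) with hgd
  obtain ⟨p₀, hp₀, -⟩ := pair_sum (a := a) (b := b) (m := 2 * a + 2 * g) (P := P) le_rfl (by omega)
  have hinj : ∀ i ∈ P, ∀ j ∈ P, (i : ZMod o) = (j : ZMod o) → i = j := by
    intro i hi j hj hij
    have h1 := pos_nat hqo (hPq i hi)
    have h2 := pos_nat hqo (hPq j hj)
    rw [hij, h2] at h1
    exact_mod_cast h1.symm
  set Q : Finset (ZMod o) := P.image (fun i : ℕ => (i : ZMod o)) with hQ
  refine ⟨fun u => if u ∈ Q then 20 else 0, 10 * (p₀ : ℤ) + 3 * (2 * a + 2 * g : ℕ), ?_, ?_, ?_, ?_,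
    ?_⟩
  · intro u
    dsimp only
    split_ifs <;> omega
  · intro u
    dsimp only
    split_ifs with h1
    · rw [hQ, mem_image] at h1
      obtain ⟨i, hi, rfl⟩ := h1
      have := ((hPm i).1 hi).2
      omega
    · omega
  · intro u hu
    have h1 : u ∈ Q := by
      by_contra h1
      exact hu (if_neg h1)
    rw [hQ, mem_image] at h1
    obtain ⟨i, hi, rfl⟩ := h1
    exact ((hPm i).1 hi).2
  · intro u hu
    have h1 : u ∈ Q := by
      by_contra h1
      exact hu (if_neg h1)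
    rw [hQ, mem_image] at h1
    obtain ⟨i, hi, rfl⟩ := h1
    rw [pos_nat hqo (hPq i hi)]
    have := ((hPm i).1 hi).1
    omega
  · intro y hy
    obtain ⟨x, hx, hxs⟩ := six_sum (a := a) (b := b) (T := 3 * (2 * a + 2 * g) + y) (P := P)
      (by omega) (by omega)
    have hs1 : ∀ u : ZMod o, ∑ k : Fin 6, (if u = (x k : ZMod o) then 1 else 0) ≤ 6 := by
      intro u
      refine (sum_le_card_nsmul univ _ 1 fun k _ => ?_).trans (by simp)
      split_ifs <;> omega
    refine ⟨fun u => (if u = (p₀ : ZMod o) then 10 else 0) +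
      ∑ k : Fin 6, (if u = (x k : ZMod o) then 1 else 0), ?_, ?_, ?_, ?_⟩
    · intro u
      dsimp only
      by_cases h1 : u ∈ Q
      · rw [if_pos h1]
        have := hs1 u
        split_ifs <;> omega
      · rw [if_neg h1]
        have h2 : u ≠ (p₀ : ZMod o) := by
          rintro rfl
          exact h1 (mem_image.2 ⟨p₀, hp₀, rfl⟩)
        have h3 : ∀ k : Fin 6, (if u = (x k : ZMod o) then 1 else 0) = 0 := by
          intro k
          rw [if_neg]
          rintro rfl
          exact h1 (mem_image.2 ⟨x k, hx k, rfl⟩)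
        rw [if_neg h2, sum_congr rfl fun k _ => h3 k]
        simp
    · rw [sum_add_distrib, sum_ite_eq' univ (p₀ : ZMod o) (fun _ => 10), if_pos (mem_univ _),
        sum_comm]
      have : ∀ k : Fin 6, ∑ u : ZMod o, (if u = (x k : ZMod o) then 1 else 0) = 1 := by
        intro k
        rw [sum_ite_eq' univ (x k : ZMod o) (fun _ => 1), if_pos (mem_univ _)]
      rw [sum_congr rfl fun k _ => this k]
      simp
    · have e : ∀ u : ZMod o, (((if u = (p₀ : ZMod o) then 10 else 0) +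
          ∑ k : Fin 6, (if u = (x k : ZMod o) then 1 else 0) : ℕ) : ℤ) * pos o q u =
          (if u = (p₀ : ZMod o) then 10 * pos o q u else 0) +
          ∑ k : Fin 6, (if u = (x k : ZMod o) then pos o q u else 0) := by
        intro u
        push_cast
        rw [add_mul, sum_mul]
        congr 1
        · split_ifs <;> ring
        · refine sum_congr rfl fun k _ => ?_
          split_ifs <;> ring
      rw [sum_congr rfl fun u _ => e u, sum_add_distrib,
        sum_ite_eq' univ (p₀ : ZMod o) (fun u => 10 * pos o q u), if_pos (mem_univ _), sum_comm]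
      have h2 : ∀ k : Fin 6, ∑ u : ZMod o, (if u = (x k : ZMod o) then pos o q u else 0) =
          (x k : ℤ) := by
        intro k
        rw [sum_ite_eq' univ (x k : ZMod o) (fun u => pos o q u), if_pos (mem_univ _),
          pos_nat hqo (hPq _ (hx k))]
      rw [sum_congr rfl fun k _ => h2 k, pos_nat hqo (hPq _ hp₀)]
      have h3 : ∑ k : Fin 6, (x k : ℤ) = ((3 * (2 * a + 2 * g) + y : ℕ) : ℤ) := by
        rw [← hxs]
        push_cast
        rfl
      rw [h3]
      push_cast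
      ring
    · refine ⟨(p₀ : ZMod o), ((hPm p₀).1 hp₀).2, ?_, ?_⟩
      · dsimp only
        rw [if_pos rfl]
        omega
      · dsimp only
        rw [if_pos rfl, if_pos (mem_image.2 ⟨p₀, hp₀, rfl⟩)]
        have := hs1 (p₀ : ZMod o)
        omega

end

end RESM


section

variable {o : ℕ} [NeZero o] {r : ZMod o → ℕ} {M s n c q L D θ : ℕ}

/-- **RES.** The reserve. -/
theorem reserve (N : NumF r M s n c q L D) (hr : ∀ u, r u ≤ M * s) (hL : 1000000 * (L + 1) ≤ M)
    (hθ : 1000 * θ ≤ M) (hc : M + exc M n o + 100 ≤ c) (ho : M < o) :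
    ∃ (R : ZMod o → ℕ) (α : ℤ), (∀ u, R u ≤ 20) ∧ (∀ u, R u ≤ r u) ∧
      (∀ u, R u ≠ 0 → 49 * M ≤ 100 * r u) ∧
      (∀ u, R u ≠ 0 → -1 ≤ pos o q u ∧ pos o q u ≤ (q : ℤ) + 1) ∧
      (1 ≤ q → ∀ u, R u ≠ 0 → 0 ≤ pos o q u ∧ pos o q u ≤ (q : ℤ)) ∧
      (q < 1000 → ∑ u, R u ≤ 32) ∧
      (1000 ≤ q → ∀ u, R u ≠ 0 → (q : ℤ) ≤ 4 * pos o q u ∧ 4 * pos o q u ≤ 3 * q) ∧
      ∀ y : ℕ, y ≤ JJ q → ∃ d : ZMod o → ℕ, (∀ u, d u ≤ R u) ∧ ∑ u, d u = 16 ∧
        ∑ u, (d u : ℤ) * pos o q u = α + y ∧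
        ∃ u, M * s + θ ≤ 2 * r u ∧ 3 ≤ d u ∧ d u + 3 ≤ R u := by
  have hs1 := N.s1
  have hMs : M ≤ M * s := Nat.le_mul_of_pos_right _ hs1
  have hqo : q < o := by
    have h1 := N.win
    have h2 : q * (L + 1) ≤ q * c := Nat.mul_le_mul_left _ (by omega)
    rw [mul_add, mul_one] at h2
    omega
  rcases lt_or_ge q 1000 with hq | hq
  · have hJ : JJ q = 10 := if_pos hq
    rcases Nat.eq_zero_or_pos q with hq0 | hq0
    · subst hq0
      obtain ⟨-, h1, h2⟩ := nf_q0 N hr hL (by omega) ho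
      have hp0 : pos o 0 (0 : ZMod o) = 0 := by
        have := RESM.pos_nat (o := o) (q := 0) (i := 0) hqo le_rfl
        rwa [Nat.cast_zero] at this
      have hp1 : pos o 0 (1 : ZMod o) = 1 := by
        have := pos_of 0 (o := o) (i := 1) (by omega) (by omega)
        rwa [Int.cast_one] at this
      have hpm : pos o 0 (-1 : ZMod o) = -1 := by
        have := pos_of 0 (o := o) (i := -1) (by omega) (by omega)
        rwa [Int.cast_neg, Int.cast_one] at this
      rcases h2 with h2 | h2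
      · have hne : (0 : ZMod o) ≠ 1 := by
          intro h
          rw [h, hp1] at hp0
          omega
        obtain ⟨R, hR1, hR2, hR3, hR4, hR5⟩ := RESM.two_rows (r := r) (q := 0) (h := M * s + θ)
          hne (by rw [hp0, hp1]; rfl) (by omega) (by omega) (Or.inl (by omega))
        refine ⟨R, 16 * pos o 0 0 + 3, hR1, hR2, ?_, ?_, by omega, fun _ => hR4, by omega, ?_⟩
        · intro u hu
          rcases hR3 u hu with rfl | rfl <;> omega
        · intro u hu
          rcases hR3 u hu with rfl | rfl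
          · rw [hp0]
            omega
          · rw [hp1]
            omega
        · intro y hy
          exact hR5 y (by omega)
      · have hne : (-1 : ZMod o) ≠ 0 := by
          intro h
          rw [h, hp0] at hpm
          omega
        obtain ⟨R, hR1, hR2, hR3, hR4, hR5⟩ := RESM.two_rows (r := r) (q := 0) (h := M * s + θ)
          hne (by rw [hp0, hpm]; rfl) (by omega) (by omega) (Or.inr (by omega))
        refine ⟨R, 16 * pos o 0 (-1) + 3, hR1, hR2, ?_, ?_, by omega, fun _ => hR4, by omega, ?_⟩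
        · intro u hu
          rcases hR3 u hu with rfl | rfl <;> omega
        · intro u hu
          rcases hR3 u hu with rfl | rfl
          · rw [hpm]
            omega
          · rw [hp0]
            omega
        · intro y hy
          exact hR5 y (by omega)
    · have h1 := nf_rows N hr hL hc ho hq0 hq (i := 0) (Nat.zero_le _)
      have h2 := nf_rows N hr hL hc ho hq0 hq (i := 1) hq0
      have h3 := nf_pair N hr hL hc ho hq0 hq (i := 0) (j := 1) (Nat.zero_le _) hq0 (by omega)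
      have hp0 := RESM.pos_nat (o := o) (q := q) (i := 0) hqo (Nat.zero_le _)
      have hp1 := RESM.pos_nat (o := o) (q := q) (i := 1) hqo hq0
      have hne : ((0 : ℕ) : ZMod o) ≠ ((1 : ℕ) : ZMod o) := by
        intro h
        rw [h, hp1] at hp0
        omega
      obtain ⟨R, hR1, hR2, hR3, hR4, hR5⟩ := RESM.two_rows (r := r) (q := q) (h := M * s + θ)
        hne (by rw [hp0, hp1]; rfl) (by omega) (by omega) (by omega)
      have hR6 : ∀ u, R u ≠ 0 → 0 ≤ pos o q u ∧ pos o q u ≤ (q : ℤ) := by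
        intro u hu
        rcases hR3 u hu with rfl | rfl
        · rw [hp0]
          omega
        · rw [hp1]
          omega
      refine ⟨R, 16 * pos o q ((0 : ℕ) : ZMod o) + 3, hR1, hR2, ?_, ?_, fun _ => hR6, fun _ => hR4,
        by omega, ?_⟩
      · intro u hu
        rcases hR3 u hu with rfl | rfl <;> omega
      · intro u hu
        have := hR6 u hu
        omega
      · intro y hy
        exact hR5 y (by omega)
  · have hJ : JJ q = 2 * q + 10 := if_neg (by omega)
    have h1 := nf_fat N hr hL hθ (by omega) hq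
    obtain ⟨R, α, hR1, hR2, hR0, hR3, hR4⟩ := RESM.many_rows (r := r) (h := M * s + θ) hqo hq
      (by omega) h1
    refine ⟨R, α, hR1, hR2, ?_, ?_, ?_, by omega, fun _ => hR3, ?_⟩
    · intro u hu
      have := hR0 u hu
      omega
    · intro u hu
      have := hR3 u hu
      omega
    · intro _ u hu
      have := hR3 u hu
      omega
    · intro y hy
      exact hR4 y (by omega)

end

end Pool.Agent.Lib.MPa7239a.RF
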